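import Mathlib

/-!
# Connected functional graphs

`ConnF φ` says that the functional graph of `φ` is (weakly) connected, i.e. has exactly one cycle
(when the type is finite and nonempty).  We prove weighted counting formulas for rank one weights.
-/

namespace Pool.Agent.Hhelper69.Uni

open Finset

/-- the functional graph of `φ` is connected -/
def ConnF {V : Type*} (φ : V → V) : Prop := ∀ u v, ∃ i j, φ^[i] u = φ^[j] v

theorem ConnF.of_all_reach {V : Type*} {φ : V → V} (r : V) (h : ∀ v, ∃ i, φ^[i] v = r) :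
    ConnF φ := by
  intro u v
  obtain ⟨i, hi⟩ := h u
  obtain ⟨j, hj⟩ := h v
  exact ⟨i, j, by rw [hi, hj]⟩

theorem ConnF.reach_fixed {V : Type*} {φ : V → V} (h : ConnF φ) {r : V} (hr : φ r = r) (v : V) :
    ∃ i, φ^[i] v = r := by
  obtain ⟨i, j, hij⟩ := h v r
  refine ⟨i, ?_⟩
  rw [hij]
  exact Function.iterate_fixed hr j

theorem ConnF.fixed_unique {V : Type*} {φ : V → V} (h : ConnF φ) {r s : V} (hr : φ r = r)
    (hs : φ s = s) : r = s := by
  obtain ⟨i, hi⟩ := h.reach_fixed hr s
  rw [Function.iterate_fixed hs i] at hi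
  exact hi.symm

/-- Comparison of two functional graphs along a projection. -/
theorem connF_iff {V V' : Type*} {φ : V → V} {φ' : V' → V'} (c : V → V') (inc : V' → V)
    (h0 : ∀ y, c (inc y) = y)
    (h1 : ∀ x, ∃ i, φ^[i] x = inc (c x))
    (h2 : ∀ y, c (φ (inc y)) = φ' y)
    (h3 : ∀ x, x ≠ inc (c x) → c (φ x) = c x) :
    ConnF φ ↔ ConnF φ' := by
  -- one step of φ' is some steps of φ
  have step : ∀ y, ∃ i, φ^[i] (inc y) = inc (φ' y) := by
    intro y
    obtain ⟨i, hi⟩ := h1 (φ (inc y))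
    refine ⟨i + 1, ?_⟩
    rw [Function.iterate_add_apply, Function.iterate_one, hi, h2]
  have steps : ∀ n y, ∃ i, φ^[i] (inc y) = inc (φ'^[n] y) := by
    intro n
    induction n with
    | zero => intro y; exact ⟨0, rfl⟩
    | succ n ih =>
      intro y
      obtain ⟨i, hi⟩ := step y
      obtain ⟨j, hj⟩ := ih (φ' y)
      refine ⟨j + i, ?_⟩
      rw [Function.iterate_add_apply, hi, hj]
      rfl
  have proj : ∀ n x, ∃ i, c (φ^[n] x) = φ'^[i] (c x) := by
    intro n
    induction n with
    | zero => intro x; exact ⟨0, rfl⟩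
    | succ n ih =>
      intro x
      rw [Function.iterate_succ_apply]
      obtain ⟨i, hi⟩ := ih (φ x)
      rw [hi]
      by_cases hx : x = inc (c x)
      · refine ⟨i + 1, ?_⟩
        rw [Function.iterate_succ_apply]
        conv_lhs => rw [hx]
        rw [h2]
      · exact ⟨i, by rw [h3 x hx]⟩
  constructor
  · intro h u v
    obtain ⟨i, j, hij⟩ := h (inc u) (inc v)
    obtain ⟨i', hi'⟩ := proj i (inc u)
    obtain ⟨j', hj'⟩ := proj j (inc v)
    refine ⟨i', j', ?_⟩
    rw [h0] at hi' hj'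
    rw [← hi', ← hj', hij]
  · intro h u v
    obtain ⟨i, hi⟩ := h1 u
    obtain ⟨j, hj⟩ := h1 v
    obtain ⟨i', j', hij⟩ := h (c u) (c v)
    obtain ⟨i'', hi''⟩ := steps i' (c u)
    obtain ⟨j'', hj''⟩ := steps j' (c v)
    refine ⟨i'' + i, j'' + j, ?_⟩
    rw [Function.iterate_add_apply, Function.iterate_add_apply, hi, hj, hi'', hj'', hij]

section sums

variable {R : Type*} [CommRing R]

open Classical in
/-- summing over functions with prescribed composition -/
theorem sum_fiber {Z X Y : Type*} [Fintype Z] [Fintype X] [Fintype Y]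
    [DecidableEq Z] [DecidableEq Y]
    (c : X → Y) (f : Z → X → R) (P : (Z → Y) → Prop) [DecidablePred P] :
    ∑ η : Z → X, (if P (c ∘ η) then ∏ z, f z (η z) else 0) =
      ∑ θ : Z → Y, if P θ then ∏ z, ∑ t : X, (if c t = θ z then f z t else 0) else 0 := by
  classical
  have e1 : ∀ θ : Z → Y, (∏ z, ∑ t : X, (if c t = θ z then f z t else 0)) =
      ∑ η : Z → X, if c ∘ η = θ then ∏ z, f z (η z) else 0 := by
    intro θ
    rw [Finset.prod_univ_sum]
    rw [← Fintype.piFinset_univ]
    apply Finset.sum_congr rfl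
    intro η _
    by_cases h : c ∘ η = θ
    · rw [if_pos h]
      apply Finset.prod_congr rfl
      intro z _
      rw [if_pos (show c (η z) = θ z from congrFun h z)]
    · rw [if_neg h]
      have : ∃ z, c (η z) ≠ θ z := by
        by_contra hcon
        push Not at hcon
        exact h (funext hcon)
      obtain ⟨z, hz⟩ := this
      exact Finset.prod_eq_zero (Finset.mem_univ z) (if_neg hz)
  simp only [e1]
  have e2 : ∀ θ : Z → Y, (if P θ then ∑ η : Z → X, (if c ∘ η = θ then ∏ z, f z (η z) else 0)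
      else 0) = ∑ η : Z → X, if c ∘ η = θ then (if P θ then ∏ z, f z (η z) else 0) else 0 := by
    intro θ
    by_cases h : P θ
    · simp [h]
    · simp [h]
  simp only [e2]
  rw [Finset.sum_comm]
  apply Finset.sum_congr rfl
  intro η _
  rw [Finset.sum_ite_eq]
  simp

end sums

section contraction

variable {Z : Type*} [DecidableEq Z]

/-- contraction of `z₀` into `z₁` -/
def ctr (z₀ : Z) (z₁ : {z : Z // z ≠ z₀}) (z : Z) : {z : Z // z ≠ z₀} :=
  if h : z = z₀ then z₁ else ⟨z, h⟩

theorem ctr_self (z₀ : Z) (z₁ : {z : Z // z ≠ z₀}) : ctr z₀ z₁ z₀ = z₁ := by simp [ctr]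

theorem ctr_ne {z₀ : Z} {z₁ : {z : Z // z ≠ z₀}} {z : Z} (h : z ≠ z₀) :
    ctr z₀ z₁ z = ⟨z, h⟩ := by simp [ctr, h]

theorem ctr_coe {z₀ : Z} {z₁ : {z : Z // z ≠ z₀}} (z : {z : Z // z ≠ z₀}) :
    ctr z₀ z₁ z = z := by rw [ctr_ne z.2]

/-- extend a function on `{z // z ≠ z₀}` by `z₀ ↦ z₁` -/
def ext₀ (z₀ : Z) (z₁ : Z) (η : {z : Z // z ≠ z₀} → Z) (z : Z) : Z :=
  if h : z = z₀ then z₁ else η ⟨z, h⟩

theorem ext₀_self (z₀ z₁ : Z) (η : {z : Z // z ≠ z₀} → Z) : ext₀ z₀ z₁ η z₀ = z₁ := by
  simp [ext₀]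

theorem ext₀_coe (z₀ z₁ : Z) (η : {z : Z // z ≠ z₀} → Z) (z : {z : Z // z ≠ z₀}) :
    ext₀ z₀ z₁ η z = η z := by
  rw [ext₀, dif_neg z.2]

theorem connF_ext₀ {z₀ : Z} (z₁ : {z : Z // z ≠ z₀}) (η : {z : Z // z ≠ z₀} → Z) :
    ConnF (ext₀ z₀ z₁ η) ↔ ConnF (ctr z₀ z₁ ∘ η) := by
  apply connF_iff (ctr z₀ z₁) Subtype.val
  · intro y; exact ctr_coe y
  · intro x
    by_cases h : x = z₀
    · subst h
      exact ⟨1, by rw [ctr_self, Function.iterate_one, ext₀_self]⟩
    · exact ⟨0, by rw [ctr_ne h]; rfl⟩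
  · intro y
    rw [ext₀_coe]
    rfl
  · intro x hx
    by_cases h : x = z₀
    · subst h
      rw [ext₀_self, ctr_self, ctr_coe]
    · rw [ctr_ne h] at hx
      exact absurd rfl hx

end contraction

section connSum

variable {R : Type*} [CommRing R]

open Classical in
/-- weighted number of connected functional graphs -/
noncomputable def connSum {Z : Type*} [Fintype Z] [DecidableEq Z] (f : Z → Z → R) : R :=
  ∑ θ : Z → Z, if ConnF θ then ∏ z, f z (θ z) else 0

open Classical in
/-- weighted number of rooted trees: every point leads to the fixed point `r` -/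
noncomputable def rootSum {Z : Type*} [Fintype Z] [DecidableEq Z] (f : Z → Z → R) (r : Z) : R :=
  ∑ η : {z : Z // z ≠ r} → Z, if ConnF (ext₀ r r η) then ∏ z : {z : Z // z ≠ r}, f z (η z) else 0

theorem sum_eq_add_ne {Z : Type*} [Fintype Z] [DecidableEq Z] (z₀ : Z) (g : Z → R) :
    ∑ z : Z, g z = g z₀ + ∑ z : {z : Z // z ≠ z₀}, g z := by
  rw [← Finset.add_sum_erase _ _ (Finset.mem_univ z₀)]
  congr 1
  exact Finset.sum_subtype (Finset.univ.erase z₀) (p := fun z => z ≠ z₀) (by simp) g

theorem prod_eq_mul_ne {Z : Type*} [Fintype Z] [DecidableEq Z] (z₀ : Z) (g : Z → R) :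
    ∏ z : Z, g z = g z₀ * ∏ z : {z : Z // z ≠ z₀}, g z := by
  rw [← Finset.mul_prod_erase _ _ (Finset.mem_univ z₀)]
  congr 1
  exact Finset.prod_subtype (Finset.univ.erase z₀) (p := fun z => z ≠ z₀) (by simp) g

open Classical in
theorem ctr_sum {Z : Type*} [Fintype Z] [DecidableEq Z] (z₀ : Z) (z₁ t' : {z : Z // z ≠ z₀}) (g : Z → R) :
    ∑ t : Z, (if ctr z₀ z₁ t = t' then g t else 0) = g t' + if t' = z₁ then g z₀ else 0 := by
  rw [sum_eq_add_ne z₀, ctr_self, add_comm]
  congr 1
  · simp only [ctr_coe]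
    rw [Finset.sum_ite_eq', if_pos (Finset.mem_univ _)]
  · simp only [eq_comm]

open Classical in
theorem sum_split {Z : Type*} [Fintype Z] [DecidableEq Z] (z₀ : Z) (F : (Z → Z) → R) :
    ∑ θ : Z → Z, F θ = ∑ t : Z, ∑ η : {z : Z // z ≠ z₀} → Z, F (ext₀ z₀ t η) := by
  rw [← Equiv.sum_comp (Equiv.funSplitAt z₀ Z).symm, Fintype.sum_prod_type]
  apply Finset.sum_congr rfl
  intro t _
  apply Finset.sum_congr rfl
  intro η _
  congr 1
  ext z
  by_cases h : z = z₀
  · simp [ext₀, h, Equiv.funSplitAt, Equiv.piSplitAt]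
  · simp [ext₀, h, Equiv.funSplitAt, Equiv.piSplitAt]

open Classical in
theorem prod_ext₀ {Z : Type*} [Fintype Z] [DecidableEq Z] (z₀ t : Z) (f : Z → Z → R)
    (η : {z : Z // z ≠ z₀} → Z) :
    ∏ z, f z (ext₀ z₀ t η z) = f z₀ t * ∏ z : {z : Z // z ≠ z₀}, f z (η z) := by
  rw [prod_eq_mul_ne z₀, ext₀_self]
  simp only [ext₀_coe]

open Classical in
theorem connSum_split {Z : Type*} [Fintype Z] [DecidableEq Z] (f : Z → Z → R) (z₀ : Z) :
    connSum f = f z₀ z₀ * rootSum f z₀ + ∑ z₁ : {z : Z // z ≠ z₀}, f z₀ z₁ *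
      connSum (fun z t' : {z : Z // z ≠ z₀} => f z t' + if t' = z₁ then f z z₀ else 0) := by
  rw [connSum, sum_split z₀]
  rw [sum_eq_add_ne z₀]
  congr 1
  · rw [rootSum, Finset.mul_sum]
    apply Finset.sum_congr rfl
    intro η _
    rw [prod_ext₀]
    split_ifs <;> simp
  · apply Finset.sum_congr rfl
    intro z₁ _
    have e : ∀ η : {z : Z // z ≠ z₀} → Z, (if ConnF (ext₀ z₀ z₁ η) then
        ∏ z, f z (ext₀ z₀ z₁ η z) else 0) = f z₀ z₁ * (if ConnF (ctr z₀ z₁ ∘ η) then
        ∏ z : {z : Z // z ≠ z₀}, f z (η z) else 0) := by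
      intro η
      rw [prod_ext₀, connF_ext₀]
      split_ifs <;> simp
    simp only [e]
    rw [← Finset.mul_sum, sum_fiber (ctr z₀ z₁) (fun (z : {z : Z // z ≠ z₀}) t => f z t) ConnF]
    simp only [ctr_sum]
    rfl

open Classical in
/-- weights of a tree rooted at `r` -/
noncomputable def treeW {Z : Type*} [DecidableEq Z] (v : Z → R) (r : Z) (z t : Z) : R :=
  if z = r then (if t = r then 1 else 0) else v t

open Classical in
theorem connSum_treeW {Z : Type*} [Fintype Z] [DecidableEq Z] (f : Z → Z → R) (r : Z) :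
    connSum (fun z t => if z = r then (if t = r then 1 else 0) else f z t) = rootSum f r := by
  rw [connSum, sum_split r, rootSum]
  rw [Finset.sum_eq_single_of_mem r (Finset.mem_univ r)]
  · apply Finset.sum_congr rfl
    intro η _
    rw [prod_ext₀ r r (fun z t => if z = r then (if t = r then 1 else 0) else f z t)]
    simp only [if_true, one_mul]
    congr 1
    apply Finset.prod_congr rfl
    intro z _
    rw [if_neg z.2]
  · intro t _ ht
    apply Finset.sum_eq_zero
    intro η _
    rw [prod_ext₀ r t (fun z t => if z = r then (if t = r then 1 else 0) else f z t)]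
    simp [ht]

open Classical in
theorem rootSum_eq_zero_of_row {Z : Type*} [Fintype Z] [DecidableEq Z] (f : Z → Z → R) {r s : Z} (h : s ≠ r)
    (hs : ∀ t, t ≠ s → f s t = 0) : rootSum f r = 0 := by
  rw [rootSum]
  apply Finset.sum_eq_zero
  intro η _
  split_ifs with hc
  · apply Finset.prod_eq_zero (Finset.mem_univ ⟨s, h⟩)
    apply hs
    intro he
    have h1 : ext₀ r r η r = r := ext₀_self _ _ _
    have h2 : ext₀ r r η s = s := by
      have := ext₀_coe r r η ⟨s, h⟩
      rw [he] at this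
      exact this
    exact h (hc.fixed_unique h2 h1)
  · rfl

/-- rank one tree formula -/
theorem tree_formula : ∀ (n : ℕ) {Z : Type} [Fintype Z] [DecidableEq Z] (v : Z → R) (r : Z),
    Fintype.card Z = n + 2 → connSum (treeW v r) = v r * (∑ z, v z) ^ n := by
  intro n
  induction n with
  | zero =>
    intro Z _ _ v r hcard
    obtain ⟨z₀, hz₀⟩ : ∃ z₀ : Z, z₀ ≠ r := by
      by_contra hcon
      push Not at hcon
      have : Fintype.card Z ≤ 1 := Fintype.card_le_one_iff.2 (fun a b => by rw [hcon a, hcon b])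
      omega
    have huniq : ∀ z : Z, z ≠ z₀ → z = r := by
      intro z hz
      by_contra hzr
      have h3 : ({z, z₀, r} : Finset Z).card ≤ Fintype.card Z := Finset.card_le_univ _
      rw [Finset.card_insert_of_notMem, Finset.card_insert_of_notMem, Finset.card_singleton] at h3
      · omega
      · simpa using hz₀
      · simp [hz, hzr]
    rw [connSum_split _ z₀]
    have h0 : rootSum (treeW v r) z₀ = 0 := by
      apply rootSum_eq_zero_of_row _ hz₀.symm
      intro t ht
      simp [treeW, ht]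
    rw [h0, mul_zero, zero_add]
    let _ : Unique {z : Z // z ≠ z₀} :=
      { default := ⟨r, hz₀.symm⟩, uniq := fun a => Subtype.ext (huniq a a.2) }
    rw [Fintype.sum_unique]
    have hdef : ((default : {z : Z // z ≠ z₀}) : Z) = r := huniq _ (default : {z : Z // z ≠ z₀}).2
    rw [connSum, Fintype.sum_unique, if_pos]
    · rw [Fintype.prod_unique]
      simp only [treeW, hdef, if_neg hz₀]
      rw [Subsingleton.elim ((default : {z : Z // z ≠ z₀} → {z : Z // z ≠ z₀}) default) default]
      simp [hdef]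
    · intro u w
      exact ⟨0, 0, Subsingleton.elim _ _⟩
  | succ n ih =>
    intro Z _ _ v r hcard
    obtain ⟨z₀, hz₀⟩ : ∃ z₀ : Z, z₀ ≠ r := by
      by_contra hcon
      push Not at hcon
      have : Fintype.card Z ≤ 1 := Fintype.card_le_one_iff.2 (fun a b => by rw [hcon a, hcon b])
      omega
    rw [connSum_split _ z₀]
    have h0 : rootSum (treeW v r) z₀ = 0 := by
      apply rootSum_eq_zero_of_row _ hz₀.symm
      intro t ht
      simp [treeW, ht]
    rw [h0, mul_zero, zero_add]
    have hcard' : Fintype.card {z : Z // z ≠ z₀} = n + 2 := by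
      rw [Fintype.card_subtype_compl, hcard]
      simp
    have hsum : ∀ g : Z → R, ∑ z : Z, g z = g z₀ + ∑ z : {z : Z // z ≠ z₀}, g z :=
      sum_eq_add_ne z₀
    have key : ∀ z₁ : {z : Z // z ≠ z₀},
        connSum (fun z t' : {z : Z // z ≠ z₀} => treeW v r z t' +
          if t' = z₁ then treeW v r z z₀ else 0) =
        (v r + if (⟨r, hz₀.symm⟩ : {z : Z // z ≠ z₀}) = z₁ then v z₀ else 0) * (∑ z, v z) ^ n := by
      intro z₁
      have e1 : (fun z t' : {z : Z // z ≠ z₀} => treeW v r z t' +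
          if t' = z₁ then treeW v r z z₀ else 0) =
          treeW (fun t' : {z : Z // z ≠ z₀} => v t' + if t' = z₁ then v z₀ else 0)
            ⟨r, hz₀.symm⟩ := by
        funext z t'
        by_cases hz : (z : Z) = r
        · have hz' : z = ⟨r, hz₀.symm⟩ := Subtype.ext hz
          subst hz'
          simp only [treeW, if_true, if_neg hz₀]
          simp [Subtype.ext_iff]
        · have hz' : z ≠ ⟨r, hz₀.symm⟩ := fun h => hz (congrArg Subtype.val h)
          simp only [treeW, if_neg hz, if_neg hz']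
      rw [e1, ih _ _ hcard']
      congr 2
      rw [Finset.sum_add_distrib, Finset.sum_ite_eq', if_pos (Finset.mem_univ _), hsum v, add_comm]
    simp only [key]
    have e2 : ∀ z₁ : {z : Z // z ≠ z₀}, treeW v r z₀ z₁ = v z₁ := by
      intro z₁
      simp [treeW, hz₀]
    simp only [e2]
    have e3 : ∀ z₁ : {z : Z // z ≠ z₀}, v z₁ *
        ((v r + if (⟨r, hz₀.symm⟩ : {z : Z // z ≠ z₀}) = z₁ then v z₀ else 0) * (∑ z, v z) ^ n) =
        (v z₁ * v r + if (⟨r, hz₀.symm⟩ : {z : Z // z ≠ z₀}) = z₁ then v z₁ * v z₀ else 0) *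
          (∑ z, v z) ^ n := by
      intro z₁
      split_ifs <;> ring
    simp only [e3]
    rw [← Finset.sum_mul, Finset.sum_add_distrib, Finset.sum_ite_eq, if_pos (Finset.mem_univ _),
      ← Finset.sum_mul, pow_succ, hsum v]
    ring

/-- rank one cycle formula when the weights sum to zero -/
theorem cycle_formula : ∀ (n : ℕ) {Z : Type} [Fintype Z] [DecidableEq Z] (v : Z → R),
    Fintype.card Z = n + 2 → ∑ z, v z = 0 →
    connSum (fun _ t => v t) = - (n.factorial : R) * ∏ z, v z := by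
  intro n
  induction n with
  | zero =>
    intro Z _ _ v hcard hv
    obtain ⟨z₀⟩ : Nonempty Z := Fintype.card_pos_iff.1 (by omega)
    have hsum : ∀ g : Z → R, ∑ z : Z, g z = g z₀ + ∑ z : {z : Z // z ≠ z₀}, g z :=
      sum_eq_add_ne z₀
    have hprod : ∀ g : Z → R, ∏ z : Z, g z = g z₀ * ∏ z : {z : Z // z ≠ z₀}, g z :=
      prod_eq_mul_ne z₀
    have hcard' : Fintype.card {z : Z // z ≠ z₀} = 1 := by
      rw [Fintype.card_subtype_compl, hcard]
      simp
    rw [connSum_split _ z₀, ← connSum_treeW]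
    have := tree_formula 0 v z₀ hcard
    unfold treeW at this
    rw [this, pow_zero, mul_one]
    obtain ⟨hu⟩ := Fintype.card_eq_one_iff_nonempty_unique.1 hcard'
    rw [Fintype.sum_unique]
    rw [connSum, Fintype.sum_unique]
    rw [if_pos (show ConnF (default : {z : Z // z ≠ z₀} → {z : Z // z ≠ z₀}) from
      fun u w => ⟨0, 0, Subsingleton.elim _ _⟩), Fintype.prod_unique]
    rw [hprod, Fintype.prod_unique]
    rw [hsum, Fintype.sum_unique] at hv
    rw [Subsingleton.elim ((default : {z : Z // z ≠ z₀} → {z : Z // z ≠ z₀}) default) default]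
    simp only [if_true]
    generalize v ((default : {z : Z // z ≠ z₀}) : Z) = b at hv ⊢
    have : v z₀ = - b := eq_neg_of_add_eq_zero_left hv
    rw [this]
    simp
  | succ n ih =>
    intro Z _ _ v hcard hv
    obtain ⟨z₀⟩ : Nonempty Z := Fintype.card_pos_iff.1 (by omega)
    have hsum : ∀ g : Z → R, ∑ z : Z, g z = g z₀ + ∑ z : {z : Z // z ≠ z₀}, g z :=
      sum_eq_add_ne z₀
    have hprod : ∀ g : Z → R, ∏ z : Z, g z = g z₀ * ∏ z : {z : Z // z ≠ z₀}, g z :=
      prod_eq_mul_ne z₀
    have hcard' : Fintype.card {z : Z // z ≠ z₀} = n + 2 := by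
      rw [Fintype.card_subtype_compl, hcard]
      simp
    rw [connSum_split _ z₀, ← connSum_treeW]
    have := tree_formula (n + 1) v z₀ hcard
    unfold treeW at this
    rw [this, hv, pow_succ, mul_zero, mul_zero, mul_zero, zero_add]
    have key : ∀ z₁ : {z : Z // z ≠ z₀}, v z₁ *
        connSum (fun _ t' : {z : Z // z ≠ z₀} => v t' + if t' = z₁ then v z₀ else 0) =
        - (n.factorial : R) * ((∏ z : {z : Z // z ≠ z₀}, v z) * (v z₁ + v z₀)) := by
      intro z₁
      rw [ih (fun t' : {z : Z // z ≠ z₀} => v t' + if t' = z₁ then v z₀ else 0) hcard' (by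
        rw [Finset.sum_add_distrib, Finset.sum_ite_eq', if_pos (Finset.mem_univ _), add_comm,
          ← hsum v, hv])]
      rw [← Finset.mul_prod_erase _ _ (Finset.mem_univ z₁),
        ← Finset.mul_prod_erase _ (fun z : {z : Z // z ≠ z₀} => v z) (Finset.mem_univ z₁)]
      have : ∏ x ∈ Finset.univ.erase z₁, (v (x : Z) + if x = z₁ then v z₀ else 0) =
          ∏ x ∈ Finset.univ.erase z₁, v (x : Z) := by
        apply Finset.prod_congr rfl
        intro x hx
        rw [if_neg (Finset.ne_of_mem_erase hx), add_zero]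
      rw [this]
      simp only [if_true]
      ring
    simp only [key]
    rw [← Finset.mul_sum, ← Finset.mul_sum, Finset.sum_add_distrib, Finset.sum_const,
      Finset.card_univ, hcard', hprod v, Nat.factorial_succ]
    have hs : ∑ z : {z : Z // z ≠ z₀}, v (z : Z) = - v z₀ := by
      rw [hsum] at hv
      exact eq_neg_of_add_eq_zero_right hv
    rw [hs]
    push_cast
    rw [nsmul_eq_mul]
    push_cast
    ring

end connSum

end Pool.Agent.Hhelper69.Uni
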