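import Mathlib
import Pool.Agent.Hhelper69.Uni.Fun

/-!
# Clone gadget

Evaluation of the number of connected functional graphs on `V₀ ⊕ Z` when the rows of the clones
`z ∈ Z` are `κ + N·δ_z` with `∑ κ = 0`.
-/

namespace Pool.Agent.Hhelper69.Uni

open Finset

section root

variable {V₀ Z : Type*}

/-- follow `ψ` on `V₀`, stay on `Z` -/
def gfun (ψ : V₀ → V₀ ⊕ Z) : V₀ ⊕ Z → V₀ ⊕ Z := Sum.elim ψ Sum.inr

/-- `x` reaches the clone `z` following `ψ` -/
def Hits (ψ : V₀ → V₀ ⊕ Z) (x : V₀ ⊕ Z) (z : Z) : Prop := ∃ n, (gfun ψ)^[n] x = Sum.inr z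

theorem gfun_iter_inr (ψ : V₀ → V₀ ⊕ Z) (z : Z) (n : ℕ) :
    (gfun ψ)^[n] (Sum.inr z) = Sum.inr z := Function.iterate_fixed rfl n

theorem Hits.unique {ψ : V₀ → V₀ ⊕ Z} {x : V₀ ⊕ Z} {z z' : Z} (h : Hits ψ x z)
    (h' : Hits ψ x z') : z = z' := by
  obtain ⟨n, hn⟩ := h
  obtain ⟨m, hm⟩ := h'
  have h1 : (gfun ψ)^[m + n] x = Sum.inr z := by
    rw [Function.iterate_add_apply, hn, gfun_iter_inr]
  have h2 : (gfun ψ)^[n + m] x = Sum.inr z' := by
    rw [Function.iterate_add_apply, hm, gfun_iter_inr]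
  rw [Nat.add_comm] at h2
  rw [h1] at h2
  exact Sum.inr.inj h2

theorem hits_inr {ψ : V₀ → V₀ ⊕ Z} {z z' : Z} : Hits ψ (Sum.inr z) z' ↔ z = z' := by
  constructor
  · rintro ⟨n, hn⟩
    rw [gfun_iter_inr] at hn
    exact Sum.inr.inj hn
  · rintro rfl
    exact ⟨0, rfl⟩

theorem hits_inl {ψ : V₀ → V₀ ⊕ Z} {v : V₀} {z : Z} :
    Hits ψ (Sum.inl v) z ↔ Hits ψ (ψ v) z := by
  constructor
  · rintro ⟨n, hn⟩
    cases n with
    | zero => simp at hn
    | succ n => exact ⟨n, by rw [Function.iterate_succ_apply] at hn; exact hn⟩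
  · rintro ⟨n, hn⟩
    exact ⟨n + 1, by rw [Function.iterate_succ_apply]; exact hn⟩

open Classical in
/-- the clone reached from `x`, if any -/
noncomputable def rt (ψ : V₀ → V₀ ⊕ Z) (x : V₀ ⊕ Z) : Option Z :=
  if h : ∃ z, Hits ψ x z then some h.choose else none

theorem rt_eq_some {ψ : V₀ → V₀ ⊕ Z} {x : V₀ ⊕ Z} {z : Z} : rt ψ x = some z ↔ Hits ψ x z := by
  unfold rt
  split_ifs with h
  · constructor
    · intro h'
      have := h.choose_spec
      rwa [Option.some.inj h'] at this
    · intro h'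
      rw [h.choose_spec.unique h']
  · constructor
    · intro h'; exact absurd h' (by simp)
    · intro h'; exact absurd ⟨z, h'⟩ h

theorem rt_inr (ψ : V₀ → V₀ ⊕ Z) (z : Z) : rt ψ (Sum.inr z) = some z := by
  rw [rt_eq_some, hits_inr]

theorem rt_inl (ψ : V₀ → V₀ ⊕ Z) (v : V₀) : rt ψ (Sum.inl v) = rt ψ (ψ v) := by
  apply Option.ext
  intro z
  rw [rt_eq_some, rt_eq_some, hits_inl]

/-- every point of `V₀` reaches a clone -/
def Good (ψ : V₀ → V₀ ⊕ Z) : Prop := ∀ v, ∃ z, Hits ψ (Sum.inl v) z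

theorem reach_of_hits {ψ : V₀ → V₀ ⊕ Z} {x : V₀ ⊕ Z} {z : Z} (χ : Z → V₀ ⊕ Z)
    (h : Hits ψ x z) : ∃ i, (Sum.elim ψ χ)^[i] x = Sum.inr z := by
  obtain ⟨n, hn⟩ := h
  induction n generalizing x with
  | zero => exact ⟨0, hn⟩
  | succ n ih =>
    cases x with
    | inl v =>
      rw [Function.iterate_succ_apply] at hn
      obtain ⟨i, hi⟩ := ih hn
      exact ⟨i + 1, by rw [Function.iterate_succ_apply]; exact hi⟩
    | inr z' =>
      rw [gfun_iter_inr] at hn
      exact ⟨0, hn⟩

theorem rt_step (ψ : V₀ → V₀ ⊕ Z) (χ : Z → V₀ ⊕ Z) (v : V₀) :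
    rt ψ (Sum.elim ψ χ (Sum.inl v)) = rt ψ (Sum.inl v) := (rt_inl ψ v).symm

theorem good_connF {ψ : V₀ → V₀ ⊕ Z} (c : V₀ ⊕ Z → Z) (hc : ∀ x, rt ψ x = some (c x))
    (χ : Z → V₀ ⊕ Z) : ConnF (Sum.elim ψ χ) ↔ ConnF (c ∘ χ) := by
  apply connF_iff c Sum.inr
  · intro z
    have := hc (Sum.inr z)
    rw [rt_inr] at this
    exact (Option.some.inj this).symm
  · intro x
    exact reach_of_hits χ (rt_eq_some.1 (hc x))
  · intro z
    rfl
  · intro x hx
    cases x with
    | inl v =>
      have h1 := hc (Sum.elim ψ χ (Sum.inl v))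
      rw [rt_step, hc] at h1
      exact (Option.some.inj h1).symm
    | inr z =>
      exfalso
      apply hx
      have := hc (Sum.inr z)
      rw [rt_inr] at this
      rw [← Option.some.inj this]

/-- extend by `none ↦ none` -/
def opt (θ : Z → Option Z) : Option Z → Option Z
  | none => none
  | some z => θ z

/-- the part never reaching a clone is connected -/
def BadConn (ψ : V₀ → V₀ ⊕ Z) : Prop :=
  ∀ u v, rt ψ u = none → rt ψ v = none → ∃ i j, (gfun ψ)^[i] u = (gfun ψ)^[j] v

theorem bad_iter {ψ : V₀ → V₀ ⊕ Z} (χ : Z → V₀ ⊕ Z) {x : V₀ ⊕ Z} (h : rt ψ x = none) (n : ℕ) :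
    (Sum.elim ψ χ)^[n] x = (gfun ψ)^[n] x ∧ rt ψ ((gfun ψ)^[n] x) = none := by
  induction n generalizing x with
  | zero => exact ⟨rfl, h⟩
  | succ n ih =>
    cases x with
    | inl v =>
      rw [rt_inl] at h
      rw [Function.iterate_succ_apply, Function.iterate_succ_apply]
      exact ih h
    | inr z => rw [rt_inr] at h; exact absurd h (by simp)

theorem bad_connF {ψ : V₀ → V₀ ⊕ Z} {v₀ : V₀} (hbad : rt ψ (Sum.inl v₀) = none)
    (χ : Z → V₀ ⊕ Z) :
    ConnF (Sum.elim ψ χ) ↔ BadConn ψ ∧ ConnF (opt (rt ψ ∘ χ)) := by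
  have proj : ∀ n x, ∃ i, rt ψ ((Sum.elim ψ χ)^[n] x) = (opt (rt ψ ∘ χ))^[i] (rt ψ x) := by
    intro n
    induction n with
    | zero => intro x; exact ⟨0, rfl⟩
    | succ n ih =>
      intro x
      rw [Function.iterate_succ_apply]
      obtain ⟨i, hi⟩ := ih (Sum.elim ψ χ x)
      rw [hi]
      cases x with
      | inl v => exact ⟨i, by rw [rt_step]⟩
      | inr z =>
        refine ⟨i + 1, ?_⟩
        rw [Function.iterate_succ_apply, rt_inr]
        rfl
  constructor
  · intro h
    constructor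
    · intro u v hu hv
      obtain ⟨i, j, hij⟩ := h u v
      refine ⟨i, j, ?_⟩
      rw [← (bad_iter χ hu i).1, ← (bad_iter χ hv j).1, hij]
    · -- projection
      have surj : ∀ o : Option Z, ∃ x, rt ψ x = o := by
        intro o
        cases o with
        | none => exact ⟨_, hbad⟩
        | some z => exact ⟨_, rt_inr ψ z⟩
      intro a b
      obtain ⟨x, hx⟩ := surj a
      obtain ⟨y, hy⟩ := surj b
      obtain ⟨i, j, hij⟩ := h x y
      obtain ⟨i', hi'⟩ := proj i x
      obtain ⟨j', hj'⟩ := proj j y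
      refine ⟨i', j', ?_⟩
      rw [← hx, ← hy, ← hi', ← hj', hij]
  · rintro ⟨hP, hθ⟩
    -- every point reaches a bad one
    have step : ∀ n (x : V₀ ⊕ Z), (opt (rt ψ ∘ χ))^[n] (rt ψ x) = none →
        ∃ i, rt ψ ((Sum.elim ψ χ)^[i] x) = none := by
      intro n
      induction n with
      | zero => intro x hx; exact ⟨0, hx⟩
      | succ n ih =>
        intro x hx
        cases hrt : rt ψ x with
        | none => exact ⟨0, hrt⟩
        | some z =>
          obtain ⟨i, hi⟩ := reach_of_hits χ (rt_eq_some.1 hrt)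
          rw [hrt, Function.iterate_succ_apply] at hx
          obtain ⟨j, hj⟩ := ih (χ z) hx
          refine ⟨j + 1 + i, ?_⟩
          rw [Function.iterate_add_apply, hi, Function.iterate_succ_apply]
          exact hj
    have reach : ∀ x : V₀ ⊕ Z, ∃ i, rt ψ ((Sum.elim ψ χ)^[i] x) = none := by
      intro x
      obtain ⟨n, hn⟩ := hθ.reach_fixed (r := none) rfl (rt ψ x)
      exact step n x hn
    intro u v
    obtain ⟨i, hi⟩ := reach u
    obtain ⟨j, hj⟩ := reach v
    obtain ⟨a, b, hab⟩ := hP _ _ hi hj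
    refine ⟨a + i, b + j, ?_⟩
    rw [Function.iterate_add_apply, Function.iterate_add_apply, (bad_iter χ hi a).1,
      (bad_iter χ hj b).1, hab]

end root

section eval

variable {R : Type*} [CommRing R]
variable {V₀ Z : Type} [Fintype V₀] [Fintype Z] [DecidableEq V₀] [DecidableEq Z]

/-- row of a clone -/
def cloneRow (κ : V₀ ⊕ Z → R) (N : R) (z : Z) (x : V₀ ⊕ Z) : R :=
  κ x + if x = Sum.inr z then N else 0

open Classical in
/-- weight of the fibre of the root map -/
noncomputable def fib (ψ : V₀ → V₀ ⊕ Z) (κ : V₀ ⊕ Z → R) (o : Option Z) : R :=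
  ∑ t, if rt ψ t = o then κ t else 0

theorem sum_fib (ψ : V₀ → V₀ ⊕ Z) (κ : V₀ ⊕ Z → R) : ∑ o, fib ψ κ o = ∑ t, κ t := by
  unfold fib
  rw [Finset.sum_comm]
  apply Finset.sum_congr rfl
  intro t _
  rw [Finset.sum_ite_eq, if_pos (Finset.mem_univ _)]

theorem prod_single {ι : Type*} [Fintype ι] [DecidableEq ι] (a b : ι → R)
    (h : ∀ i j, i ≠ j → b i = 0 ∨ b j = 0) :
    ∏ i, (a i + b i) = ∏ i, a i + ∑ i, b i * ∏ j : {j : ι // j ≠ i}, a j := by
  by_cases hb : ∃ i, b i ≠ 0
  · obtain ⟨i, hi⟩ := hb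
    have h0 : ∀ j, j ≠ i → b j = 0 := fun j hj => (h i j hj.symm).resolve_left hi
    rw [Finset.sum_eq_single i (fun j _ hj => by rw [h0 j hj, zero_mul])
      (fun h => absurd (Finset.mem_univ i) h)]
    rw [prod_eq_mul_ne i, prod_eq_mul_ne i a]
    have : ∏ z : {z : ι // z ≠ i}, (a z + b z) = ∏ z : {z : ι // z ≠ i}, a z := by
      apply Finset.prod_congr rfl
      intro z _
      rw [h0 z z.2, add_zero]
    rw [this]
    ring
  · push Not at hb
    simp [hb]

open Classical in
theorem good_eval {n : ℕ} (hcard : Fintype.card Z = n + 2) {ψ : V₀ → V₀ ⊕ Z} (hg : Good ψ)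
    (κ : V₀ ⊕ Z → R) (N : R) (hκ : ∑ t, κ t = 0) :
    ∑ χ : Z → V₀ ⊕ Z, (if ConnF (Sum.elim ψ χ) then ∏ z, cloneRow κ N z (χ z) else 0) =
      - (n.factorial : R) * ∏ z, fib ψ κ (some z) := by
  have hc' : ∀ x : V₀ ⊕ Z, ∃ z, rt ψ x = some z := by
    intro x
    cases x with
    | inl v =>
      obtain ⟨z, hz⟩ := hg v
      exact ⟨z, rt_eq_some.2 hz⟩
    | inr z => exact ⟨z, rt_inr ψ z⟩
  choose c hc using hc'
  simp only [good_connF c hc]
  rw [sum_fiber c (fun z t => cloneRow κ N z t) ConnF]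
  have hcr : ∀ z, c (Sum.inr z) = z := by
    intro z
    have := hc (Sum.inr z)
    rw [rt_inr] at this
    exact (Option.some.inj this).symm
  set v : Z → R := fun z => fib ψ κ (some z) with hv
  have hfib : ∀ z z' : Z, (∑ t, if c t = z' then cloneRow κ N z t else 0) =
      v z' + if z' = z then N else 0 := by
    intro z z'
    have e1 : ∀ t, (if c t = z' then cloneRow κ N z t else 0) =
        (if rt ψ t = some z' then κ t else 0) +
          if t = Sum.inr z then (if z' = z then N else 0) else 0 := by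
      intro t
      unfold cloneRow
      rw [hc t]
      by_cases h1 : c t = z'
      · simp only [h1, if_true]
        by_cases h2 : t = Sum.inr z
        · subst h2
          rw [hcr] at h1
          simp [h1]
        · simp [h2]
      · by_cases h2 : t = Sum.inr z
        · subst h2
          rw [hcr] at h1
          simp only [hcr, if_neg h1, if_true, Option.some.injEq]
          rw [if_neg (fun h => h1 h.symm)]
          simp
        · simp [h1, h2]
    simp only [e1]
    rw [Finset.sum_add_distrib, Finset.sum_ite_eq', if_pos (Finset.mem_univ _)]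
    rfl
  simp only [hfib]
  have hvsum : ∑ z, v z = 0 := by
    have h1 := sum_fib ψ κ
    rw [Fintype.sum_option] at h1
    have h2 : fib ψ κ none = 0 := by
      unfold fib
      apply Finset.sum_eq_zero
      intro t _
      rw [if_neg]
      rw [hc t]
      simp
    rw [h2, zero_add, hκ] at h1
    exact h1
  have e2 : ∀ θ : Z → Z, (if ConnF θ then ∏ z, (v (θ z) + if θ z = z then N else 0) else 0) =
      (if ConnF θ then ∏ z, v (θ z) else 0) + ∑ z₀, N * (if ConnF θ then
        ∏ z, treeW v z₀ z (θ z) else 0) := by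
    intro θ
    by_cases hθ : ConnF θ
    · simp only [if_pos hθ]
      rw [prod_single]
      · congr 1
        apply Finset.sum_congr rfl
        intro z₀ _
        rw [prod_eq_mul_ne z₀ (fun z => treeW v z₀ z (θ z))]
        unfold treeW
        simp only [if_true]
        by_cases h : θ z₀ = z₀
        · simp only [h, if_true, one_mul]
          congr 1
          apply Finset.prod_congr rfl
          intro z _
          rw [if_neg z.2]
        · simp [h]
      · intro i j hij
        by_contra hcon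
        push Not at hcon
        have h1 : θ i = i := by
          by_contra h; exact hcon.1 (if_neg h)
        have h2 : θ j = j := by
          by_contra h; exact hcon.2 (if_neg h)
        exact hij (hθ.fixed_unique h1 h2)
    · simp [hθ]
  simp only [e2]
  rw [Finset.sum_add_distrib, Finset.sum_comm]
  have e3 := cycle_formula n v hcard hvsum
  unfold connSum at e3
  rw [e3]
  have e4 : ∀ z₀ : Z, ∑ θ : Z → Z, N * (if ConnF θ then ∏ z, treeW v z₀ z (θ z) else 0) =
      N * (v z₀ * (∑ z, v z) ^ n) := by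
    intro z₀
    rw [← Finset.mul_sum]
    have := tree_formula n v z₀ hcard
    unfold connSum at this
    rw [this]
  simp only [e4]
  rw [← Finset.mul_sum, ← Finset.sum_mul, hvsum]
  ring

/-- the nonempty options -/
def someEquiv {Z : Type} : {o : Option Z // o ≠ none} ≃ Z where
  toFun o := o.1.get (Option.isSome_iff_ne_none.2 o.2)
  invFun z := ⟨some z, by simp⟩
  left_inv o := by simp
  right_inv z := by simp

open Classical in
theorem bad_eval {n : ℕ} (hcard : Fintype.card Z = n + 2) {ψ : V₀ → V₀ ⊕ Z} (hg : ¬ Good ψ)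
    (κ : V₀ ⊕ Z → R) (N : R) (hκ : ∑ t, κ t = 0) :
    ∑ χ : Z → V₀ ⊕ Z, (if ConnF (Sum.elim ψ χ) then ∏ z, cloneRow κ N z (χ z) else 0) = 0 := by
  unfold Good at hg
  push Not at hg
  obtain ⟨v₀, hv₀⟩ := hg
  have hbad : rt ψ (Sum.inl v₀) = none := by
    cases h : rt ψ (Sum.inl v₀) with
    | none => rfl
    | some z => exact absurd (rt_eq_some.1 h) (hv₀ z)
  simp only [bad_connF hbad]
  by_cases hP : BadConn ψ
  swap
  · simp [hP]
  simp only [hP, true_and]
  rw [sum_fiber (rt ψ) (fun z t => cloneRow κ N z t) (fun θ => ConnF (opt θ))]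
  set v : Option Z → R := fib ψ κ with hv
  have e1 : ∀ θ : Z → Option Z, (if ConnF (opt θ) then
      ∏ z, ∑ t, (if rt ψ t = θ z then cloneRow κ N z t else 0) else 0) =
      if ConnF (opt θ) then ∏ z, v (θ z) else 0 := by
    intro θ
    by_cases hθ : ConnF (opt θ)
    · rw [if_pos hθ, if_pos hθ]
      apply Finset.prod_congr rfl
      intro z _
      have hne : θ z ≠ some z := by
        intro h
        have := hθ.fixed_unique (r := none) (s := some z) rfl h
        simp at this
      rw [hv]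
      unfold fib
      apply Finset.sum_congr rfl
      intro t _
      by_cases h1 : rt ψ t = θ z
      · rw [if_pos h1, if_pos h1]
        unfold cloneRow
        rw [if_neg, add_zero]
        intro h2
        subst h2
        rw [rt_inr] at h1
        exact hne h1.symm
      · rw [if_neg h1, if_neg h1]
    · rw [if_neg hθ, if_neg hθ]
  simp only [e1]
  have hcard' : Fintype.card (Option Z) = (n + 1) + 2 := by
    rw [Fintype.card_option, hcard]
  have e2 := tree_formula (n + 1) v none hcard'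
  have hsum : ∑ o, v o = 0 := by rw [hv, sum_fib, hκ]
  rw [hsum, pow_succ, mul_zero, mul_zero] at e2
  refine Eq.trans ?_ e2
  unfold treeW
  rw [connSum_treeW, rootSum]
  -- reindex
  refine (Equiv.sum_comp ((someEquiv (Z := Z)).arrowCongr
    (Equiv.refl (Option Z))) _).symm.trans ?_
  apply Finset.sum_congr rfl
  intro η _
  have h1 : opt (((someEquiv (Z := Z)).arrowCongr (Equiv.refl (Option Z))) η) =
      ext₀ none none η := by
    funext o
    cases o with
    | none => rfl
    | some z => rfl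
  rw [h1]
  congr 1
  refine (Equiv.prod_comp (someEquiv (Z := Z)) _).symm.trans ?_
  apply Finset.prod_congr rfl
  intro z _
  simp [Equiv.arrowCongr]

/-- number of connected functional graphs on the graph with clones -/
theorem clone_connSum {n : ℕ} (hcard : Fintype.card Z = n + 2) (f : V₀ ⊕ Z → V₀ ⊕ Z → R)
    (κ : V₀ ⊕ Z → R) (N : R) (hκ : ∑ t, κ t = 0)
    (hf : ∀ z t, f (Sum.inr z) t = cloneRow κ N z t) :
    connSum f = - (n.factorial : R) * ∑ ψ : V₀ → V₀ ⊕ Z, open Classical in
      if Good ψ then (∏ v, f (Sum.inl v) (ψ v)) * ∏ z, fib ψ κ (some z) else 0 := by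
  classical
  rw [connSum, ← Equiv.sum_comp (Equiv.sumArrowEquivProdArrow V₀ Z (V₀ ⊕ Z)).symm,
    Fintype.sum_prod_type, Finset.mul_sum]
  apply Finset.sum_congr rfl
  intro ψ _
  have e1 : ∀ χ : Z → V₀ ⊕ Z, (if ConnF ((Equiv.sumArrowEquivProdArrow V₀ Z (V₀ ⊕ Z)).symm (ψ, χ))
      then ∏ z, f z ((Equiv.sumArrowEquivProdArrow V₀ Z (V₀ ⊕ Z)).symm (ψ, χ) z) else 0) =
      (∏ v, f (Sum.inl v) (ψ v)) *
        (if ConnF (Sum.elim ψ χ) then ∏ z, cloneRow κ N z (χ z) else 0) := by
    intro χ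
    rw [Fintype.prod_sum_type]
    simp only [Equiv.sumArrowEquivProdArrow, Equiv.coe_fn_symm_mk, Sum.elim_inl, Sum.elim_inr, hf]
    split_ifs <;> simp
  simp only [e1]
  rw [← Finset.mul_sum]
  by_cases hg : Good ψ
  · rw [good_eval hcard hg κ N hκ, if_pos hg]
    ring
  · rw [bad_eval hcard hg κ N hκ, if_neg hg]
    ring

end eval

end Pool.Agent.Hhelper69.Uni
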