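import Mathlib
import Pool.Agent.Hhelper69.Uni.Fun

/-!
# Spanning trees and connected unicyclic subgraphs versus functional graphs
-/

namespace Pool.Agent.Hhelper69.Uni

open Finset

section fiber

variable {R : Type*} [CommRing R]

open Classical in
theorem sum_fiber' {Z X Y : Type*} [Fintype Z] [Fintype X] [Fintype Y]
    [DecidableEq Z] [DecidableEq Y]
    (c : Z → X → Y) (f : Z → X → R) (G : (Z → Y) → R) :
    ∑ η : Z → X, G (fun z => c z (η z)) * ∏ z, f z (η z) =
      ∑ θ : Z → Y, G θ * ∏ z, ∑ t : X, (if c z t = θ z then f z t else 0) := by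
  classical
  have e1 : ∀ θ : Z → Y, (∏ z, ∑ t : X, (if c z t = θ z then f z t else 0)) =
      ∑ η : Z → X, if (fun z => c z (η z)) = θ then ∏ z, f z (η z) else 0 := by
    intro θ
    rw [Finset.prod_univ_sum]
    rw [← Fintype.piFinset_univ]
    apply Finset.sum_congr rfl
    intro η _
    by_cases h : (fun z => c z (η z)) = θ
    · rw [if_pos h]
      apply Finset.prod_congr rfl
      intro z _
      rw [if_pos (show c z (η z) = θ z from congrFun h z)]
    · rw [if_neg h]
      have : ∃ z, c z (η z) ≠ θ z := by
        by_contra hcon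
        push Not at hcon
        exact h (funext hcon)
      obtain ⟨z, hz⟩ := this
      exact Finset.prod_eq_zero (Finset.mem_univ z) (if_neg hz)
  simp only [e1]
  have e2 : ∀ θ : Z → Y, G θ * ∑ η : Z → X, (if (fun z => c z (η z)) = θ then ∏ z, f z (η z) else 0)
      = ∑ η : Z → X, if (fun z => c z (η z)) = θ then G θ * ∏ z, f z (η z) else 0 := by
    intro θ
    rw [Finset.mul_sum]
    apply Finset.sum_congr rfl
    intro η _
    split_ifs <;> simp
  simp only [e2]
  rw [Finset.sum_comm]
  apply Finset.sum_congr rfl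
  intro η _
  rw [Finset.sum_ite_eq]
  simp

end fiber

/-- A functional graph is connected iff its underlying undirected graph is. -/
theorem connF_iff_refl {V : Type*} (φ : V → V) (S : V → V → Prop)
    (h1 : ∀ x, x = φ x ∨ (S x (φ x) ∧ S (φ x) x))
    (h2 : ∀ x y, S x y → φ x = y ∨ φ y = x) :
    ConnF φ ↔ ∀ u v, Relation.ReflTransGen S u v := by
  constructor
  · intro h u v
    have hit : ∀ i x, Relation.ReflTransGen S x (φ^[i] x) ∧
        Relation.ReflTransGen S (φ^[i] x) x := by
      intro i
      induction i with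
      | zero => intro x; exact ⟨Relation.ReflTransGen.refl, Relation.ReflTransGen.refl⟩
      | succ i ih =>
        intro x
        rw [Function.iterate_succ_apply]
        obtain ⟨a, b⟩ := ih (φ x)
        rcases h1 x with hx | hx
        · rw [← hx] at a b ⊢
          exact ⟨a, b⟩
        · exact ⟨a.head hx.1, b.tail hx.2⟩
    obtain ⟨i, j, hij⟩ := h u v
    have a := (hit i u).1
    have b := (hit j v).2
    rw [hij] at a
    exact a.trans b
  · intro h u v
    have := h u v
    induction this with
    | refl => exact ⟨0, 0, rfl⟩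
    | tail _ hs ih =>
      rename_i b c
      obtain ⟨i, j, hij⟩ := ih
      rcases h2 _ _ hs with hb | hb
      · -- φ b = c
        refine ⟨i + 1, j, ?_⟩
        rw [Function.iterate_succ_apply', hij, ← hb, ← Function.iterate_succ_apply φ,
          Function.iterate_succ_apply' φ]
      · exact ⟨i, j + 1, by rw [Function.iterate_succ_apply, hb, hij]⟩

section edges

set_option linter.unusedSectionVars false
set_option linter.unusedVariables false

variable {V ι : Type*} [DecidableEq V]

/-- `v` is an end of the edge `i` -/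
def Inc (e : ι → V × V) (i : ι) (v : V) : Prop := (e i).1 = v ∨ (e i).2 = v

instance (e : ι → V × V) (i : ι) (v : V) : Decidable (Inc e i v) :=
  inferInstanceAs (Decidable (_ ∨ _))

/-- the other end -/
def oth (e : ι → V × V) (i : ι) (v : V) : V := if (e i).1 = v then (e i).2 else (e i).1

/-- adjacency using the edges in `A` -/
def AdjE (e : ι → V × V) (A : Finset ι) (x y : V) : Prop := ∃ i ∈ A, e i = (x, y) ∨ e i = (y, x)

/-- the edges in `A` connect all the vertices -/
def Conn (e : ι → V × V) (A : Finset ι) : Prop := ∀ u v, Relation.ReflTransGen (AdjE e A) u v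

variable {e : ι → V × V}

theorem AdjE.symm {A : Finset ι} {x y : V} (h : AdjE e A x y) : AdjE e A y x := by
  obtain ⟨i, hi, h⟩ := h
  exact ⟨i, hi, h.symm⟩

theorem Conn.mono {A B : Finset ι} (hAB : A ⊆ B) (h : Conn e A) : Conn e B := fun u v =>
  Relation.ReflTransGen.mono (show AdjE e A ≤ AdjE e B from
    fun _ _ ⟨i, hi, h⟩ => ⟨i, hAB hi, h⟩) u v (h u v)

theorem Inc.eq_or {i : ι} {v w : V} (h : Inc e i v) (h' : Inc e i w) : w = v ∨ w = oth e i v := by
  unfold Inc at h h'
  unfold oth
  by_cases h1 : (e i).1 = v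
  · rw [if_pos h1]
    rcases h' with h' | h'
    · left; rw [← h', h1]
    · right; exact h'.symm
  · rw [if_neg h1]
    rcases h' with h' | h'
    · right; exact h'.symm
    · left
      rcases h with h | h
      · exact absurd h h1
      · rw [← h', h]

theorem Inc.oth_ne (hl : ∀ i, (e i).1 ≠ (e i).2) {i : ι} {v : V} (h : Inc e i v) :
    oth e i v ≠ v := by
  unfold oth
  by_cases h1 : (e i).1 = v
  · rw [if_pos h1, ← h1]; exact (hl i).symm
  · rw [if_neg h1]; exact h1

theorem Inc.inc_oth {i : ι} {v : V} (h : Inc e i v) : Inc e i (oth e i v) := by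
  unfold oth
  by_cases h1 : (e i).1 = v
  · rw [if_pos h1]; exact Or.inr rfl
  · rw [if_neg h1]; exact Or.inl rfl

theorem Inc.pair {i : ι} {v : V} (h : Inc e i v) :
    e i = (v, oth e i v) ∨ e i = (oth e i v, v) := by
  unfold oth
  by_cases h1 : (e i).1 = v
  · left; rw [if_pos h1, ← h1]
  · right
    rw [if_neg h1]
    rcases h with h | h
    · exact absurd h h1
    · rw [← h]

theorem Inc.oth_eq {i : ι} {v w : V} (h : Inc e i v) (h' : Inc e i w) (hne : w ≠ v) :
    oth e i v = w := ((h.eq_or h').resolve_left hne).symm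

theorem AdjE.of_pair {A : Finset ι} {i : ι} (hi : i ∈ A) {v : V} (h : Inc e i v) :
    AdjE e A v (oth e i v) := ⟨i, hi, h.pair⟩

theorem adjE_iff (hl : ∀ i, (e i).1 ≠ (e i).2) {A : Finset ι} {x y : V} :
    AdjE e A x y ↔ ∃ i ∈ A, Inc e i x ∧ oth e i x = y := by
  constructor
  · rintro ⟨i, hi, h⟩
    refine ⟨i, hi, ?_⟩
    rcases h with h | h
    · refine ⟨Or.inl (by rw [h]), ?_⟩
      unfold oth
      rw [h]; simp
    · refine ⟨Or.inr (by rw [h]), ?_⟩
      have := hl i
      unfold oth
      rw [h] at this ⊢
      simp only [if_neg this]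
  · rintro ⟨i, hi, h, rfl⟩
    exact AdjE.of_pair hi h

/-- distance-like function to the root -/
theorem exists_dist (hl : ∀ i, (e i).1 ≠ (e i).2) {A : Finset ι} (hA : Conn e A) (r : V) :
    ∃ d : V → ℕ, ∀ v, v ≠ r → ∃ i ∈ A, Inc e i v ∧ d (oth e i v) < d v := by
  classical
  let P : ℕ → V → Prop := fun n => Nat.rec (fun v => v = r)
    (fun _ Q v => ∃ w, AdjE e A v w ∧ Q w) n
  have hP0 : ∀ v, P 0 v ↔ v = r := fun v => Iff.rfl
  have hPs : ∀ n v, P (n + 1) v ↔ ∃ w, AdjE e A v w ∧ P n w := fun n v => Iff.rfl
  have hex : ∀ v, ∃ n, P n v := by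
    intro v
    have := hA v r
    induction this using Relation.ReflTransGen.head_induction_on with
    | refl => exact ⟨0, rfl⟩
    | head hs _ ih =>
      obtain ⟨n, hn⟩ := ih
      exact ⟨n + 1, _, hs, hn⟩
  have hfind : ∀ v, ∃ n, P n v ∧ ∀ m, P m v → n ≤ m := fun v =>
    ⟨sInf {n | P n v}, Nat.sInf_mem (s := {n | P n v}) (hex v),
      fun m hm => Nat.sInf_le (s := {n | P n v}) hm⟩
  choose d hd hmin using hfind
  refine ⟨d, fun v hv => ?_⟩
  have h1 := hd v
  rcases h2 : d v with _ | n
  · rw [h2] at h1
    exact absurd h1 hv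
  · rw [h2] at h1
    obtain ⟨w, hw, hn⟩ := h1
    obtain ⟨i, hi, hinc, rfl⟩ := (adjE_iff hl).1 hw
    exact ⟨i, hi, hinc, Nat.lt_succ_of_le (hmin _ _ hn)⟩

end edges

section count

set_option linter.unusedSectionVars false
set_option linter.unusedVariables false

variable {V ι : Type*} [DecidableEq V] [Fintype V] [Fintype ι] [DecidableEq ι]
variable {e : ι → V × V}

/-- an injective assignment of incident edges in `A` to the vertices different from `r` -/
structure TM (e : ι → V × V) (A : Finset ι) (r : V) (η : {v : V // v ≠ r} → ι) : Prop where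
  inj : Function.Injective η
  inc : ∀ v, Inc e (η v) v
  mem : ∀ v, η v ∈ A

theorem exists_tm (hl : ∀ i, (e i).1 ≠ (e i).2) {A : Finset ι} (hA : Conn e A) (r : V) :
    ∃ (d : V → ℕ) (η : {v : V // v ≠ r} → ι), TM e A r η ∧
      ∀ v, d (oth e (η v) v) < d v := by
  obtain ⟨d, hd⟩ := exists_dist hl hA r
  have : ∀ v : {v : V // v ≠ r}, ∃ i ∈ A, Inc e i v ∧ d (oth e i v) < d v := fun v => hd v v.2
  choose η h1 h2 h3 using this
  refine ⟨d, η, ⟨?_, h2, h1⟩, h3⟩
  intro v w hvw
  by_contra hne
  have hne' : (w : V) ≠ v := fun h => hne (Subtype.ext h.symm)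
  have a := h2 v
  have b := h2 w
  have c := h3 v
  have d' := h3 w
  rw [hvw] at a c
  rw [a.oth_eq b hne'] at c
  rw [b.oth_eq a hne'.symm] at d'
  omega

theorem card_ne (r : V) : Fintype.card {v : V // v ≠ r} + 1 = Fintype.card V := by
  rw [Fintype.card_subtype_compl, Fintype.card_subtype_eq]
  have : 0 < Fintype.card V := Fintype.card_pos_iff.2 ⟨r⟩
  omega

theorem TM.card_le {A : Finset ι} {r : V} {η : {v : V // v ≠ r} → ι} (h : TM e A r η) :
    Fintype.card V ≤ A.card + 1 := by
  rw [← card_ne r]
  have : Fintype.card {v : V // v ≠ r} ≤ A.card := by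
    rw [← Finset.card_univ]
    exact Finset.card_le_card_of_injOn η (fun v _ => h.mem v) (fun a _ b _ hab => h.inj hab)
  omega

theorem TM.surj {A : Finset ι} {r : V} {η : {v : V // v ≠ r} → ι} (h : TM e A r η)
    (hc : A.card + 1 = Fintype.card V) {i : ι} (hi : i ∈ A) : ∃ v, η v = i := by
  have : (Finset.univ.image η) = A := by
    apply Finset.eq_of_subset_of_card_le
    · intro x hx
      obtain ⟨v, _, rfl⟩ := Finset.mem_image.1 hx
      exact h.mem v
    · rw [Finset.card_image_of_injective _ h.inj, Finset.card_univ]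
      have := card_ne r
      omega
  rw [← this] at hi
  obtain ⟨v, _, hv⟩ := Finset.mem_image.1 hi
  exact ⟨v, hv⟩

theorem Conn.card_le (hl : ∀ i, (e i).1 ≠ (e i).2) {A : Finset ι} (hA : Conn e A) :
    Fintype.card V ≤ A.card + 1 := by
  by_cases hV : Nonempty V
  · obtain ⟨r⟩ := hV
    obtain ⟨d, η, h, _⟩ := exists_tm hl hA r
    exact h.card_le
  · rw [not_nonempty_iff] at hV
    simp

theorem tm_unique (hl : ∀ i, (e i).1 ≠ (e i).2) {A : Finset ι} (hA : Conn e A)
    (hc : A.card + 1 = Fintype.card V) {r : V} {η η' : {v : V // v ≠ r} → ι}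
    (h : TM e A r η) (h' : TM e A r η') : η = η' := by
  obtain ⟨d, η₀, h₀, hd⟩ := exists_tm hl hA r
  have key : ∀ η : {v : V // v ≠ r} → ι, TM e A r η → η = η₀ := by
    intro η h
    have : ∀ n, ∀ v : {v : V // v ≠ r}, d v = n → η v = η₀ v := by
      intro n
      induction n using Nat.strong_induction_on with
      | _ n ih =>
        intro v hv
        obtain ⟨w, hw⟩ := h.surj hc (h₀.mem v)
        have a := h₀.inc v
        have b := h.inc w
        rw [hw] at b
        rcases a.eq_or b with hwv | hwv
        · rw [← hw, Subtype.ext hwv]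
        · have c := hd v
          rw [← hwv, hv] at c
          have e1 := ih _ c w rfl
          rw [hw] at e1
          have := h₀.inj e1
          rw [← this] at c
          omega
    funext v
    exact this _ v rfl
  rw [key η h, key η' h']

/-- image of a tree map -/
theorem TM.image {A : Finset ι} {r : V} {η : {v : V // v ≠ r} → ι} (h : TM e A r η)
    (hc : A.card + 1 = Fintype.card V) : Finset.univ.image η = A := by
  apply Finset.Subset.antisymm
  · intro x hx
    obtain ⟨v, _, rfl⟩ := Finset.mem_image.1 hx
    exact h.mem v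
  · intro x hx
    obtain ⟨v, rfl⟩ := h.surj hc hx
    exact Finset.mem_image_of_mem _ (Finset.mem_univ _)

/-! #### Maps `V → ι` -/

/-- the functional graph of an incident map -/
def fg (e : ι → V × V) (g : V → ι) (v : V) : V := oth e (g v) v

theorem conn_iff_connF (hl : ∀ i, (e i).1 ≠ (e i).2) {g : V → ι} (hg : ∀ v, Inc e (g v) v) :
    ConnF (fg e g) ↔ Conn e (Finset.univ.image g) := by
  apply connF_iff_refl
  · intro x
    right
    have := AdjE.of_pair (A := Finset.univ.image g)
      (Finset.mem_image_of_mem g (Finset.mem_univ x)) (hg x)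
    exact ⟨this, this.symm⟩
  · intro x y hxy
    obtain ⟨i, hi, hinc, ho⟩ := (adjE_iff hl).1 hxy
    obtain ⟨v, _, rfl⟩ := Finset.mem_image.1 hi
    rcases hinc.eq_or (hg v) with h | h
    · subst h; left; exact ho
    · right
      rw [ho] at h
      subst h
      unfold fg
      exact (hg v).oth_eq hinc (fun h => by
        have := hinc.oth_ne hl
        rw [ho] at this
        exact this h.symm)

theorem conn_iff_connF_root (hl : ∀ i, (e i).1 ≠ (e i).2) {r : V} {η : {v : V // v ≠ r} → ι}
    (hη : ∀ v, Inc e (η v) v) :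
    ConnF (ext₀ r r (fun v => oth e (η v) v)) ↔ Conn e (Finset.univ.image η) := by
  apply connF_iff_refl
  · intro x
    by_cases hx : x = r
    · left; subst hx; rw [ext₀_self]
    · right
      have := AdjE.of_pair (A := Finset.univ.image η)
        (Finset.mem_image_of_mem η (Finset.mem_univ ⟨x, hx⟩)) (hη ⟨x, hx⟩)
      have e1 := ext₀_coe r r (fun v => oth e (η v) v) ⟨x, hx⟩
      simp only at e1 this
      rw [e1]
      exact ⟨this, this.symm⟩
  · intro x y hxy
    obtain ⟨i, hi, hinc, ho⟩ := (adjE_iff hl).1 hxy
    obtain ⟨v, _, rfl⟩ := Finset.mem_image.1 hi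
    have e1 := ext₀_coe r r (fun v => oth e (η v) v) v
    rcases hinc.eq_or (hη v) with h | h
    · left; rw [← h, e1, h]; exact ho
    · right
      rw [ho] at h
      rw [← h, e1]
      exact (hη v).oth_eq hinc (fun h' => by
        have := hinc.oth_ne hl
        rw [ho, ← h] at this
        exact this h'.symm)

/-- incident maps onto `A` -/
def Sg (e : ι → V × V) (A : Finset ι) : Finset (V → ι) :=
  Finset.univ.filter fun g => (∀ v, Inc e (g v) v) ∧ Finset.univ.image g = A

theorem mem_Sg {A : Finset ι} {g : V → ι} : g ∈ Sg e A ↔ (∀ v, Inc e (g v) v) ∧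
    Finset.univ.image g = A := by
  rw [Sg, Finset.mem_filter]; simp

/-- extend a tree map -/
def exg (r : V) (i : ι) (η : {v : V // v ≠ r} → ι) (v : V) : ι :=
  if h : v = r then i else η ⟨v, h⟩

theorem exg_self (r : V) (i : ι) (η : {v : V // v ≠ r} → ι) : exg r i η r = i := by simp [exg]

theorem exg_coe (r : V) (i : ι) (η : {v : V // v ≠ r} → ι) (v : {v : V // v ≠ r}) :
    exg r i η v = η v := by
  rw [exg, dif_neg v.2]

theorem exg_image (r : V) (i : ι) (η : {v : V // v ≠ r} → ι) :
    Finset.univ.image (exg r i η) = insert i (Finset.univ.image η) := by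
  ext j
  simp only [Finset.mem_image, Finset.mem_univ, true_and, Finset.mem_insert]
  constructor
  · rintro ⟨v, rfl⟩
    by_cases hv : v = r
    · subst hv; left; exact exg_self _ _ _
    · right; exact ⟨⟨v, hv⟩, (exg_coe r i η ⟨v, hv⟩).symm⟩
  · rintro (rfl | ⟨v, rfl⟩)
    · exact ⟨r, exg_self _ _ _⟩
    · exact ⟨v, exg_coe _ _ _ _⟩

theorem eq_exg {g : V → ι} (r : V) : g = exg r (g r) (fun v => g v) := by
  funext v
  by_cases hv : v = r
  · subst hv; rw [exg_self]
  · exact (exg_coe r (g r) (fun v => g v) ⟨v, hv⟩).symm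

theorem card_Sg_uni (hl : ∀ i, (e i).1 ≠ (e i).2) {A : Finset ι} (hA : Conn e A)
    (hc : A.card = Fintype.card V) (hV : Nonempty V) : (Sg e A).card = 2 := by
  obtain ⟨r⟩ := hV
  obtain ⟨d, η, hη, hd⟩ := exists_tm hl hA r
  set B := Finset.univ.image η with hB
  have hBA : B ⊆ A := by
    intro x hx
    obtain ⟨v, _, rfl⟩ := Finset.mem_image.1 hx
    exact hη.mem v
  have hBc : B.card + 1 = Fintype.card V := by
    rw [hB, Finset.card_image_of_injective _ hη.inj, Finset.card_univ, card_ne]
  have hBconn : Conn e B := by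
    rw [hB, ← conn_iff_connF_root hl hη.inc]
    apply ConnF.of_all_reach r
    have : ∀ n, ∀ v, d v = n → ∃ i, (ext₀ r r (fun v => oth e (η v) v))^[i] v = r := by
      intro n
      induction n using Nat.strong_induction_on with
      | _ n ih =>
        intro v hv
        by_cases hvr : v = r
        · exact ⟨0, hvr⟩
        · have e1 := ext₀_coe r r (fun v => oth e (η v) v) ⟨v, hvr⟩
          simp only at e1
          have h1 := hd ⟨v, hvr⟩
          simp only at h1
          rw [hv] at h1
          obtain ⟨i, hi⟩ := ih _ h1 _ rfl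
          exact ⟨i + 1, by rw [Function.iterate_succ_apply, e1, hi]⟩
    exact fun v => this _ v rfl
  obtain ⟨i₀, hi₀⟩ : ∃ i₀, A = insert i₀ B ∧ i₀ ∉ B := by
    have h1 : (A \ B).card = 1 := by
      rw [Finset.card_sdiff_of_subset hBA]; omega
    obtain ⟨i₀, hi₀⟩ := Finset.card_eq_one.1 h1
    have h2 : i₀ ∈ A \ B := by rw [hi₀]; exact Finset.mem_singleton_self _
    refine ⟨i₀, ?_, (Finset.mem_sdiff.1 h2).2⟩
    ext j
    rw [Finset.mem_insert]
    constructor
    · intro hj
      by_cases hjB : j ∈ B
      · exact Or.inr hjB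
      · have : j ∈ A \ B := Finset.mem_sdiff.2 ⟨hj, hjB⟩
        rw [hi₀, Finset.mem_singleton] at this
        exact Or.inl this
    · rintro (rfl | hj)
      · exact (Finset.mem_sdiff.1 h2).1
      · exact hBA hj
  obtain ⟨hAB, hi₀B⟩ := hi₀
  -- the two maps
  have hex : ∀ s : V, ∃ ηs : {v : V // v ≠ s} → ι, TM e B s ηs := fun s => by
    obtain ⟨_, ηs, h, _⟩ := exists_tm hl hBconn s
    exact ⟨ηs, h⟩
  choose ηs hηs using hex
  have hmem : ∀ s, Inc e i₀ s → exg s i₀ (ηs s) ∈ Sg e A := by
    intro s hs
    rw [mem_Sg]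
    refine ⟨fun v => ?_, ?_⟩
    · by_cases hv : v = s
      · subst hv; rw [exg_self]; exact hs
      · have := exg_coe s i₀ (ηs s) ⟨v, hv⟩
        simp only at this
        rw [this]
        exact (hηs s).inc ⟨v, hv⟩
    · rw [exg_image, (hηs s).image hBc, hAB]
  have hall : Sg e A = {exg (e i₀).1 i₀ (ηs (e i₀).1), exg (e i₀).2 i₀ (ηs (e i₀).2)} := by
    apply Finset.Subset.antisymm
    · intro g hg
      rw [mem_Sg] at hg
      obtain ⟨hginc, hgA⟩ := hg
      have hginj : Function.Injective g := by
        have := Finset.card_image_iff.1 (show (Finset.univ.image g).card = Finset.univ.card by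
          rw [hgA, hc, Finset.card_univ])
        exact fun a b h => this (by simp) (by simp) h
      obtain ⟨s, hs⟩ : ∃ s, g s = i₀ := by
        have : i₀ ∈ Finset.univ.image g := by rw [hgA, hAB]; exact Finset.mem_insert_self _ _
        obtain ⟨s, _, hs⟩ := Finset.mem_image.1 this
        exact ⟨s, hs⟩
      have hrest : (fun v : {v : V // v ≠ s} => g v) = ηs s := by
        apply tm_unique hl hBconn hBc _ (hηs s)
        refine ⟨fun v w h => Subtype.ext (hginj h), fun v => hginc v, fun v => ?_⟩
        have h1 : g v ∈ A := by rw [← hgA]; exact Finset.mem_image_of_mem _ (Finset.mem_univ _)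
        rw [hAB, Finset.mem_insert] at h1
        rcases h1 with h1 | h1
        · exfalso
          rw [← hs] at h1
          exact v.2 (hginj h1)
        · exact h1
      have hgs : g = exg s i₀ (ηs s) := by
        rw [← hrest, ← hs]
        exact eq_exg s
      have hinc : Inc e i₀ s := by rw [← hs]; exact hginc s
      rw [Finset.mem_insert, Finset.mem_singleton]
      rcases hinc with h | h
      · left; rw [h]; exact hgs
      · right; rw [h]; exact hgs
    · intro g hg
      rw [Finset.mem_insert, Finset.mem_singleton] at hg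
      rcases hg with rfl | rfl
      · exact hmem _ (Or.inl rfl)
      · exact hmem _ (Or.inr rfl)
  rw [hall, Finset.card_pair]
  intro heq
  have h1 := congrFun heq (e i₀).1
  rw [exg_self] at h1
  have h2 := exg_coe (e i₀).2 i₀ (ηs (e i₀).2) ⟨(e i₀).1, hl i₀⟩
  simp only at h2
  rw [h2] at h1
  exact hi₀B (h1 ▸ (hηs (e i₀).2).mem _)

theorem card_Sg_tree (hl : ∀ i, (e i).1 ≠ (e i).2) {A : Finset ι} (hA : Conn e A)
    (hc : A.card + 1 = Fintype.card V) : (Sg e A).card = A.card := by
  have hex : ∀ s : V, ∃ ηs : {v : V // v ≠ s} → ι, TM e A s ηs := fun s => by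
    obtain ⟨_, ηs, h, _⟩ := exists_tm hl hA s
    exact ⟨ηs, h⟩
  choose ηs hηs using hex
  symm
  apply Finset.card_bij (fun i _ => exg (e i).1 i (ηs (e i).1))
  · intro i hi
    rw [mem_Sg]
    refine ⟨fun v => ?_, ?_⟩
    · by_cases hv : v = (e i).1
      · rw [hv, exg_self]; exact Or.inl rfl
      · have := exg_coe (e i).1 i (ηs (e i).1) ⟨v, hv⟩
        simp only at this
        rw [this]
        exact (hηs _).inc ⟨v, hv⟩
    · rw [exg_image, (hηs _).image hc, Finset.insert_eq_of_mem hi]
  · intro i hi j hj hij
    -- values at the two ends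
    have hval : ∀ i ∈ A, exg (e i).1 i (ηs (e i).1) (e i).2 = i := by
      intro i hi
      obtain ⟨w, hw⟩ := (hηs (e i).1).surj hc hi
      have h1 := (hηs (e i).1).inc w
      rw [hw] at h1
      have h2 : (e i).2 = w := by
        rcases h1 with h1 | h1
        · exact absurd h1.symm w.2
        · exact h1
      rw [h2, exg_coe, hw]
    have hval1 : ∀ i, exg (e i).1 i (ηs (e i).1) (e i).1 = i := fun i => exg_self _ _ _
    by_contra hne
    -- g is injective off the first end of i
    set g := exg (e i).1 i (ηs (e i).1) with hg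
    have hinj : ∀ v w, v ≠ (e i).1 → w ≠ (e i).1 → g v = g w → v = w := by
      intro v w hv hw h
      have a := exg_coe (e i).1 i (ηs (e i).1) ⟨v, hv⟩
      have b := exg_coe (e i).1 i (ηs (e i).1) ⟨w, hw⟩
      simp only at a b
      rw [hg, a, b] at h
      exact congrArg Subtype.val ((hηs _).inj h)
    have h1 : g (e j).1 = j := by rw [hij]; exact hval1 j
    have h2 : g (e j).2 = j := by rw [hij]; exact hval j hj
    have h3 : g (e i).1 = i := hval1 i
    have n1 : (e j).1 ≠ (e i).1 := by
      intro h; rw [h, h3] at h1; exact hne h1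
    have n2 : (e j).2 ≠ (e i).1 := by
      intro h; rw [h, h3] at h2; exact hne h2
    exact hl j (hinj _ _ n1 n2 (h1.trans h2.symm))
  · intro g hg
    rw [mem_Sg] at hg
    obtain ⟨hginc, hgA⟩ := hg
    -- a collision
    have hni : ¬ Function.Injective g := by
      intro h
      have := Finset.card_image_of_injective Finset.univ h
      rw [hgA, Finset.card_univ] at this
      omega
    have : ∃ v w, g v = g w ∧ v ≠ w := by
      by_contra hcon
      push Not at hcon
      exact hni fun v w h => hcon v w h
    obtain ⟨v, w, hvw, hne⟩ := this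
    set i := g v with hi
    have hiA : i ∈ A := by rw [← hgA]; exact Finset.mem_image_of_mem _ (Finset.mem_univ _)
    have hv : Inc e i v := hginc v
    have hw : Inc e i w := by rw [hvw]; exact hginc w
    -- both ends are mapped to i
    have hends : g (e i).1 = i ∧ g (e i).2 = i := by
      have h1 : Inc e i (e i).1 := Or.inl rfl
      have h2 : Inc e i (e i).2 := Or.inr rfl
      have hw' : w = oth e i v := (hv.eq_or hw).resolve_left (fun h => hne h.symm)
      constructor
      · rcases hv.eq_or h1 with h | h
        · rw [h]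
        · rw [h, ← hw', ← hvw]
      · rcases hv.eq_or h2 with h | h
        · rw [h]
        · rw [h, ← hw', ← hvw]
    refine ⟨i, hiA, ?_⟩
    have himg : Finset.univ.image (fun v : {v : V // v ≠ (e i).1} => g v) = A := by
      rw [← hgA]
      ext j
      simp only [Finset.mem_image, Finset.mem_univ, true_and]
      constructor
      · rintro ⟨v, rfl⟩; exact ⟨v, rfl⟩
      · rintro ⟨v, rfl⟩
        by_cases hvi : v = (e i).1
        · refine ⟨⟨(e i).2, (hl i).symm⟩, ?_⟩
          simp only
          rw [hvi, hends.1, hends.2]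
        · exact ⟨⟨v, hvi⟩, rfl⟩
    have hrest : (fun v : {v : V // v ≠ (e i).1} => g v) = ηs (e i).1 := by
      apply tm_unique hl hA hc _ (hηs _)
      refine ⟨?_, fun v => hginc v, fun v => ?_⟩
      · have := Finset.card_image_iff.1 (show (Finset.univ.image
          (fun v : {v : V // v ≠ (e i).1} => g v)).card = Finset.univ.card by
          rw [himg, Finset.card_univ]
          have := card_ne (e i).1
          omega)
        exact fun a b h => this (by simp) (by simp) h
      · rw [← hgA]; exact Finset.mem_image_of_mem _ (Finset.mem_univ _)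
    rw [← hrest]
    have := eq_exg (g := g) (e i).1
    rw [hends.1] at this
    exact this.symm

open Classical in
/-- number of spanning trees -/
noncomputable def treeNum (e : ι → V × V) : ℕ :=
  (Finset.univ.filter fun A : Finset ι => A.card + 1 = Fintype.card V ∧ Conn e A).card

open Classical in
/-- number of connected unicyclic spanning subgraphs -/
noncomputable def uniNum (e : ι → V × V) : ℕ :=
  (Finset.univ.filter fun A : Finset ι => A.card = Fintype.card V ∧ Conn e A).card

/-- number of edges between two vertices -/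
def mult (e : ι → V × V) (v w : V) : ℕ :=
  (Finset.univ.filter fun i => e i = (v, w) ∨ e i = (w, v)).card

theorem mult_eq (hl : ∀ i, (e i).1 ≠ (e i).2) (v w : V) :
    mult e v w = ∑ i, if oth e i v = w then (if Inc e i v then 1 else 0) else 0 := by
  rw [mult, Finset.card_filter]
  apply Finset.sum_congr rfl
  intro i _
  rw [← ite_and]
  congr 1
  apply propext
  constructor
  · intro h
    rcases h with h | h
    · have h1 : Inc e i v := Or.inl (by rw [h])
      refine ⟨?_, h1⟩
      unfold oth; rw [h]; simp
    · have h1 : Inc e i v := Or.inr (by rw [h])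
      refine ⟨?_, h1⟩
      have := hl i
      unfold oth
      rw [h] at this ⊢
      simp only [if_neg this]
  · rintro ⟨h, h1⟩
    have := h1.pair
    rwa [h] at this

variable {R : Type*} [CommRing R]

open Classical in
theorem connSum_mult (hl : ∀ i, (e i).1 ≠ (e i).2) (hV : Nonempty V) :
    connSum (fun v w => (mult e v w : R)) =
      2 * uniNum e + ((Fintype.card V : R) - 1) * treeNum e := by
  -- count of incident maps
  have e1 : connSum (fun v w => (mult e v w : R)) =
      ((Finset.univ.filter fun g : V → ι => (∀ v, Inc e (g v) v) ∧ ConnF (fg e g)).card : R) := by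
    rw [connSum]
    have h1 : ∀ φ : V → V, (if ConnF φ then ∏ v, (mult e v (φ v) : R) else 0) =
        (if ConnF φ then 1 else 0) * ∏ v, ∑ i, (if oth e i v = φ v then
          (if Inc e i v then (1 : R) else 0) else 0) := by
      intro φ
      by_cases h : ConnF φ
      · rw [if_pos h, if_pos h, one_mul]
        apply Finset.prod_congr rfl
        intro v _
        rw [mult_eq hl]
        push_cast
        rfl
      · rw [if_neg h, if_neg h, zero_mul]
    simp only [h1]
    rw [← sum_fiber' (fun v i => oth e i v) (fun v i => if Inc e i v then (1 : R) else 0)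
      (fun φ => if ConnF φ then 1 else 0)]
    rw [Finset.card_filter]
    push_cast
    apply Finset.sum_congr rfl
    intro g _
    by_cases h : ∀ v, Inc e (g v) v
    · have : ∏ v, (if Inc e (g v) v then (1 : R) else 0) = 1 :=
        Finset.prod_eq_one fun v _ => if_pos (h v)
      rw [this, mul_one]
      simp only [h, implies_true, true_and]
      rfl
    · push Not at h
      obtain ⟨v, hv⟩ := h
      have hnot : ¬ ((∀ v, Inc e (g v) v) ∧ ConnF (fg e g)) := fun h' => hv (h'.1 v)
      rw [Finset.prod_eq_zero (Finset.mem_univ v) (if_neg hv), mul_zero, if_neg hnot]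
  rw [e1]
  -- partition according to the image
  have e2 : (Finset.univ.filter fun g : V → ι => (∀ v, Inc e (g v) v) ∧ ConnF (fg e g)).card =
      ∑ A ∈ Finset.univ.filter (fun A : Finset ι => Conn e A), (Sg e A).card := by
    rw [Finset.card_eq_sum_card_fiberwise (f := fun g => Finset.univ.image g)
      (t := Finset.univ.filter (fun A : Finset ι => Conn e A))]
    · apply Finset.sum_congr rfl
      intro A hA
      rw [Finset.mem_filter] at hA
      congr 1
      ext g
      rw [Finset.mem_filter, Finset.mem_filter, mem_Sg]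
      constructor
      · rintro ⟨⟨_, h1, _⟩, h2⟩; exact ⟨h1, h2⟩
      · rintro ⟨h1, h2⟩
        refine ⟨⟨Finset.mem_univ _, h1, ?_⟩, h2⟩
        rw [conn_iff_connF hl h1, h2]
        exact hA.2
    · intro g hg
      simp only [Finset.coe_filter, Finset.mem_univ, true_and, Set.mem_ofPred_eq] at hg ⊢
      rw [← conn_iff_connF hl hg.1]
      exact hg.2
  rw [e2]
  have e3 : ∀ A : Finset ι, Conn e A → (Sg e A).card =
      2 * (if A.card = Fintype.card V then 1 else 0) +
        (Fintype.card V - 1) * (if A.card + 1 = Fintype.card V then 1 else 0) := by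
    intro A hA
    by_cases h1 : A.card = Fintype.card V
    · rw [if_pos h1, if_neg (by omega), card_Sg_uni hl hA h1 hV]; omega
    · by_cases h2 : A.card + 1 = Fintype.card V
      · rw [if_neg h1, if_pos h2, card_Sg_tree hl hA h2]; omega
      · rw [if_neg h1, if_neg h2]
        simp only [mul_zero, add_zero, Finset.card_eq_zero]
        rw [Finset.eq_empty_iff_forall_notMem]
        intro g hg
        rw [mem_Sg] at hg
        have h3 := hA.card_le hl
        have h4 : A.card ≤ Fintype.card V := by
          rw [← hg.2, ← Finset.card_univ]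
          exact Finset.card_image_le
        omega
  rw [Finset.sum_congr rfl (fun A hA => e3 A (Finset.mem_filter.1 hA).2), Finset.sum_add_distrib,
    ← Finset.mul_sum, ← Finset.mul_sum, ← Finset.card_filter, ← Finset.card_filter,
    Finset.filter_filter, Finset.filter_filter]
  have hpos : 1 ≤ Fintype.card V := Fintype.card_pos_iff.2 hV
  push_cast [Nat.cast_sub hpos]
  simp only [uniNum, treeNum, and_comm]

open Classical in
theorem rootSum_mult (hl : ∀ i, (e i).1 ≠ (e i).2) (r : V) :
    rootSum (fun v w => (mult e v w : R)) r = treeNum e := by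
  have e1 : rootSum (fun v w => (mult e v w : R)) r =
      ((Finset.univ.filter fun η : {v : V // v ≠ r} → ι => (∀ v, Inc e (η v) v) ∧
        ConnF (ext₀ r r (fun v => oth e (η v) v))).card : R) := by
    rw [rootSum]
    have h1 : ∀ φ : {v : V // v ≠ r} → V, (if ConnF (ext₀ r r φ) then
        ∏ v : {v : V // v ≠ r}, (mult e v (φ v) : R) else 0) =
        (if ConnF (ext₀ r r φ) then 1 else 0) * ∏ v : {v : V // v ≠ r},
          ∑ i, (if oth e i v = φ v then (if Inc e i v then (1 : R) else 0) else 0) := by
      intro φ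
      by_cases h : ConnF (ext₀ r r φ)
      · rw [if_pos h, if_pos h, one_mul]
        apply Finset.prod_congr rfl
        intro v _
        rw [mult_eq hl]
        push_cast
        rfl
      · rw [if_neg h, if_neg h, zero_mul]
    simp only [h1]
    rw [← sum_fiber' (fun (v : {v : V // v ≠ r}) i => oth e i (v : V))
      (fun v i => if Inc e i v then (1 : R) else 0)
      (fun φ => if ConnF (ext₀ r r φ) then 1 else 0)]
    rw [Finset.card_filter]
    push_cast
    apply Finset.sum_congr rfl
    intro g _
    by_cases h : ∀ v, Inc e (g v) v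
    · have : ∏ v, (if Inc e (g v) (v : V) then (1 : R) else 0) = 1 :=
        Finset.prod_eq_one fun v _ => if_pos (h v)
      rw [this, mul_one]
      simp only [h, implies_true, true_and]
    · push Not at h
      obtain ⟨v, hv⟩ := h
      have hnot : ¬ ((∀ v, Inc e (g v) v) ∧ ConnF (ext₀ r r (fun v => oth e (g v) v))) :=
        fun h' => hv (h'.1 v)
      rw [Finset.prod_eq_zero (Finset.mem_univ v) (if_neg hv), mul_zero, if_neg hnot]
  rw [e1]
  congr 1
  rw [treeNum]
  -- ConnF implies injective
  have hinj : ∀ η : {v : V // v ≠ r} → ι, (∀ v, Inc e (η v) v) →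
      ConnF (ext₀ r r (fun v => oth e (η v) v)) → Function.Injective η := by
    intro η hη hc v w hvw
    by_contra hne
    have hne' : (w : V) ≠ v := fun h => hne (Subtype.ext h.symm)
    have a := hη v
    have b := hη w
    rw [hvw] at a
    have ov : ext₀ r r (fun v => oth e (η v) v) v = w := by
      rw [ext₀_coe, hvw]; exact a.oth_eq b hne'
    have ow : ext₀ r r (fun v => oth e (η v) v) w = v := by
      rw [ext₀_coe]; exact b.oth_eq a hne'.symm
    obtain ⟨i, hi⟩ := hc.reach_fixed (ext₀_self r r _) v
    have : ∀ i, (ext₀ r r (fun v => oth e (η v) v))^[i] v = v ∨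
        (ext₀ r r (fun v => oth e (η v) v))^[i] v = w := by
      intro i
      induction i with
      | zero => left; rfl
      | succ i ih =>
        rw [Function.iterate_succ_apply']
        rcases ih with h | h
        · right; rw [h, ov]
        · left; rw [h, ow]
    rcases this i with h | h
    · exact v.2 (h.symm.trans hi)
    · exact w.2 (h.symm.trans hi)
  apply Finset.card_bij (fun η _ => Finset.univ.image η)
  · intro η hη
    rw [Finset.mem_filter] at hη ⊢
    obtain ⟨_, h1, h2⟩ := hη
    refine ⟨Finset.mem_univ _, ?_, (conn_iff_connF_root hl h1).1 h2⟩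
    rw [Finset.card_image_of_injective _ (hinj η h1 h2), Finset.card_univ, card_ne]
  · intro η hη η' hη' him
    rw [Finset.mem_filter] at hη hη'
    obtain ⟨_, h1, h2⟩ := hη
    obtain ⟨_, h1', h2'⟩ := hη'
    change Finset.univ.image η = Finset.univ.image η' at him
    have t1 : TM e (Finset.univ.image η) r η :=
      ⟨hinj η h1 h2, h1, fun v => Finset.mem_image_of_mem _ (Finset.mem_univ _)⟩
    have t2 : TM e (Finset.univ.image η) r η' := ⟨hinj η' h1' h2', h1', fun v => by
        rw [him]; exact Finset.mem_image_of_mem _ (Finset.mem_univ _)⟩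
    refine tm_unique hl ((conn_iff_connF_root hl h1).1 h2) ?_ t1 t2
    rw [Finset.card_image_of_injective _ (hinj η h1 h2), Finset.card_univ, card_ne]
  · intro A hA
    rw [Finset.mem_filter] at hA
    obtain ⟨_, hc, hA⟩ := hA
    obtain ⟨_, η, hη, _⟩ := exists_tm hl hA r
    have him := hη.image hc
    refine ⟨η, ?_, him⟩
    rw [Finset.mem_filter]
    refine ⟨Finset.mem_univ _, hη.inc, ?_⟩
    rw [conn_iff_connF_root hl hη.inc, him]
    exact hA

end count

end Pool.Agent.Hhelper69.Uni
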