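import Mathlib
import Pool.Agent.Hhelper69.Uni.Clone
import Pool.Agent.Hhelper69.Uni.Edges

/-!
# Sum over the labels of the roots
-/

namespace Pool.Agent.Hhelper69.Uni

open Finset

section label

variable {R : Type*} [CommRing R]
variable {V Z : Type*} [Fintype V] [Fintype Z] [DecidableEq V] [DecidableEq Z]

open Classical in
theorem prod_eq_sum_injOn (ρ : V → Z) (a : V → R) :
    ∀ (n : ℕ) (U : Finset V), U.card = n →
    ∏ z, (1 + ∑ v ∈ U, if ρ v = z then a v else 0) =
      ∑ T ∈ U.powerset, if Set.InjOn ρ (T : Set V) then ∏ v ∈ T, a v else 0 := by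
  intro n
  induction n using Nat.strong_induction_on with
  | _ n ih =>
    intro U hU
    rcases U.eq_empty_or_nonempty with rfl | ⟨u, hu⟩
    · simp
    · obtain ⟨W, huW, rfl⟩ : ∃ W, u ∉ W ∧ insert u W = U :=
        ⟨U.erase u, Finset.notMem_erase _ _, Finset.insert_erase hu⟩
      rw [Finset.card_insert_of_notMem huW] at hU
      rw [Finset.sum_powerset_insert huW, ← ih W.card (by omega) W rfl]
      -- left hand side
      have h1 : ∀ z, (1 + ∑ v ∈ insert u W, if ρ v = z then a v else 0) =
          (1 + ∑ v ∈ W, if ρ v = z then a v else 0) + if ρ u = z then a u else 0 := by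
        intro z
        rw [Finset.sum_insert huW]
        ring
      simp only [h1]
      rw [prod_single _ _ (fun i j hij => by
        by_cases h : ρ u = i
        · right; rw [if_neg (fun h' => hij (h.symm.trans h'))]
        · left; rw [if_neg h])]
      congr 1
      simp only [ite_mul, zero_mul]
      rw [Finset.sum_ite_eq, if_pos (Finset.mem_univ _)]
      -- smaller set
      set W' := W.filter (fun v => ρ v ≠ ρ u) with hW'
      have hW'c : W'.card ≤ W.card := Finset.card_filter_le _ _
      have h2 : ∏ j : {j : Z // j ≠ ρ u}, (1 + ∑ v ∈ W, if ρ v = j then a v else 0) =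
          ∏ z, (1 + ∑ v ∈ W', if ρ v = z then a v else 0) := by
        rw [prod_eq_mul_ne (ρ u) (fun z => (1 + ∑ v ∈ W', if ρ v = z then a v else 0))]
        have h3 : ∑ v ∈ W', (if ρ v = ρ u then a v else 0) = 0 := by
          apply Finset.sum_eq_zero
          intro v hv
          rw [if_neg (Finset.mem_filter.1 hv).2]
        rw [h3, add_zero, one_mul]
        apply Finset.prod_congr rfl
        intro j _
        congr 1
        rw [hW', Finset.sum_filter]
        apply Finset.sum_congr rfl
        intro v _
        by_cases h : ρ v = j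
        · rw [if_pos h, if_pos (by rw [h]; exact j.2)]
        · rw [if_neg h]; simp
      rw [h2, ih W'.card (by omega) W' rfl]
      rw [Finset.mul_sum]
      -- right hand side
      have h4 : ∀ T ∈ W.powerset, (if Set.InjOn ρ (insert u T : Finset V) then
          ∏ v ∈ insert u T, a v else 0) =
          if T ⊆ W' then a u * (if Set.InjOn ρ (T : Set V) then ∏ v ∈ T, a v else 0) else 0 := by
        intro T hT
        rw [Finset.mem_powerset] at hT
        have huT : u ∉ T := fun h => huW (hT h)
        have hiff : Set.InjOn ρ (insert u T : Finset V) ↔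
            Set.InjOn ρ (T : Set V) ∧ ρ u ∉ ρ '' (T : Set V) := by
          rw [Finset.coe_insert, Set.injOn_insert (by simpa using huT)]
        rw [Finset.prod_insert huT]
        by_cases hTW : T ⊆ W'
        · rw [if_pos hTW]
          have h5 : ρ u ∉ ρ '' (T : Set V) := by
            rintro ⟨v, hv, hvu⟩
            exact (Finset.mem_filter.1 (hTW hv)).2 hvu
          by_cases h6 : Set.InjOn ρ (T : Set V)
          · rw [if_pos (hiff.2 ⟨h6, h5⟩), if_pos h6]
          · rw [if_neg (fun h => h6 (hiff.1 h).1), if_neg h6, mul_zero]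
        · rw [if_neg hTW, if_neg]
          intro h5'
          obtain ⟨_, h5⟩ := hiff.1 h5'
          apply hTW
          intro v hv
          rw [hW', Finset.mem_filter]
          refine ⟨hT hv, fun h => h5 ⟨v, hv, h⟩⟩
      rw [Finset.sum_congr rfl h4, ← Finset.sum_filter]
      apply Finset.sum_congr _ (fun _ _ => rfl)
      ext T
      rw [Finset.mem_filter, Finset.mem_powerset, Finset.mem_powerset]
      constructor
      · intro h; exact ⟨h.trans (Finset.filter_subset _ _), h⟩
      · intro h; exact h.2

open Classical in
theorem card_injOn (T : Finset V) :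
    (Finset.univ.filter fun ρ : V → Z => Set.InjOn ρ (T : Set V)).card =
      (Fintype.card Z).descFactorial T.card * Fintype.card Z ^ (Fintype.card V - T.card) := by
  rw [← Fintype.card_subtype]
  have e : {ρ : V → Z // Set.InjOn ρ (T : Set V)} ≃
      ({v : V // v ∈ T} ↪ Z) × ({v : V // ¬ v ∈ T} → Z) :=
    ((Equiv.piEquivPiSubtypeProd (fun v => v ∈ T) (fun _ => Z)).subtypeEquiv
      (q := fun p => Function.Injective p.1) (fun ρ => by
        simp only [Equiv.piEquivPiSubtypeProd, Equiv.coe_fn_mk]
        constructor
        · intro h a b hab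
          exact Subtype.ext (h a.2 b.2 hab)
        · intro h a ha b hb hab
          exact congrArg Subtype.val (h (a₁ := ⟨a, ha⟩) (a₂ := ⟨b, hb⟩) hab))).trans
      ((Equiv.prodSubtypeFstEquivSubtypeProd (p := fun f : {v : V // v ∈ T} → Z =>
        Function.Injective f)).trans
        (Equiv.prodCongr (Equiv.subtypeInjectiveEquivEmbedding _ _) (Equiv.refl _)))
  rw [Fintype.card_congr e, Fintype.card_prod, Fintype.card_embedding_eq, Fintype.card_fun,
    Fintype.card_subtype_compl]
  simp

/-- sum over all labellings -/
theorem sum_labels (a : V → R) :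
    ∑ ρ : V → Z, ∏ z, (1 + ∑ v, if ρ v = z then a v else 0) =
      ∑ T : Finset V, (∏ v ∈ T, a v) *
        ((Fintype.card Z).descFactorial T.card * Fintype.card Z ^ (Fintype.card V - T.card) : ℕ) := by
  classical
  have h1 : ∀ ρ : V → Z, ∏ z, (1 + ∑ v, if ρ v = z then a v else 0) =
      ∑ T : Finset V, if Set.InjOn ρ (T : Set V) then ∏ v ∈ T, a v else 0 := by
    intro ρ
    rw [prod_eq_sum_injOn ρ a _ Finset.univ rfl, Finset.powerset_univ]
  simp only [h1]
  rw [Finset.sum_comm]
  apply Finset.sum_congr rfl
  intro T _
  rw [← Finset.sum_filter, Finset.sum_const, card_injOn, nsmul_eq_mul, mul_comm]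

end label

end Pool.Agent.Hhelper69.Uni
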