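import Mathlib
import Pool.Agent.Hhelper69.Uni.Label

/-!
# Rooted forests
-/

namespace Pool.Agent.Hhelper69.Uni

open Finset

set_option linter.unusedSectionVars false

section comb

variable {V Z : Type*}

/-- parents from `ψ₀`, labels of the roots from `ρ` -/
def comb (ψ₀ : V → Option V) (ρ : V → Z) (v : V) : V ⊕ Z :=
  match ψ₀ v with
  | some w => Sum.inl w
  | none => Sum.inr (ρ v)

theorem comb_some {ψ₀ : V → Option V} {ρ : V → Z} {v w : V} (h : ψ₀ v = some w) :
    comb ψ₀ ρ v = Sum.inl w := by simp [comb, h]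

theorem comb_none {ψ₀ : V → Option V} {ρ : V → Z} {v : V} (h : ψ₀ v = none) :
    comb ψ₀ ρ v = Sum.inr (ρ v) := by simp [comb, h]

/-- `ψ₀` has no cycle -/
def Acy (ψ₀ : V → Option V) : Prop := Good (comb ψ₀ (fun v => v))

/-- root of the tree containing `v` -/
noncomputable def rootOf (ψ₀ : V → Option V) (v : V) : Option V :=
  rt (comb ψ₀ (fun v => v)) (Sum.inl v)

theorem comb_iter (ψ₀ : V → Option V) (ρ : V → Z) (n : ℕ) (x : V ⊕ V) :
    (gfun (comb ψ₀ ρ))^[n] (Sum.map id ρ x) =
      Sum.map id ρ ((gfun (comb ψ₀ (fun v => v)))^[n] x) := by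
  induction n generalizing x with
  | zero => rfl
  | succ n ih =>
    rw [Function.iterate_succ_apply, Function.iterate_succ_apply, ← ih]
    congr 1
    cases x with
    | inl v =>
      cases h : ψ₀ v with
      | none => simp [gfun, comb_none h]
      | some w => simp [gfun, comb_some h]
    | inr z => rfl

theorem rt_comb (ψ₀ : V → Option V) (ρ : V → Z) (x : V ⊕ V) :
    rt (comb ψ₀ ρ) (Sum.map id ρ x) = (rt (comb ψ₀ (fun v => v)) x).map ρ := by
  cases h : rt (comb ψ₀ (fun v => v)) x with
  | none =>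
    rw [Option.map_none]
    cases h' : rt (comb ψ₀ ρ) (Sum.map id ρ x) with
    | none => rfl
    | some z =>
      exfalso
      obtain ⟨n, hn⟩ := rt_eq_some.1 h'
      rw [comb_iter] at hn
      cases hx : (gfun (comb ψ₀ (fun v => v)))^[n] x with
      | inl v => rw [hx] at hn; simp at hn
      | inr r =>
        have : rt (comb ψ₀ (fun v => v)) x = some r := rt_eq_some.2 ⟨n, hx⟩
        rw [h] at this
        simp at this
  | some r =>
    obtain ⟨n, hn⟩ := rt_eq_some.1 h
    rw [Option.map_some, rt_eq_some]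
    refine ⟨n, ?_⟩
    rw [comb_iter, hn]
    rfl

theorem rt_comb_inl (ψ₀ : V → Option V) (ρ : V → Z) (v : V) :
    rt (comb ψ₀ ρ) (Sum.inl v) = (rootOf ψ₀ v).map ρ := rt_comb ψ₀ ρ (Sum.inl v)

theorem acy_iff {ψ₀ : V → Option V} : Acy ψ₀ ↔ ∀ v, ∃ r, rootOf ψ₀ v = some r := by
  unfold Acy Good rootOf
  simp only [rt_eq_some]

theorem good_comb_iff (ψ₀ : V → Option V) (ρ : V → Z) : Good (comb ψ₀ ρ) ↔ Acy ψ₀ := by
  rw [acy_iff]
  unfold Good
  constructor
  · intro h v
    obtain ⟨z, hz⟩ := h v
    rw [← rt_eq_some, rt_comb_inl] at hz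
    cases h : rootOf ψ₀ v with
    | none => rw [h] at hz; simp at hz
    | some r => exact ⟨r, rfl⟩
  · intro h v
    obtain ⟨r, hr⟩ := h v
    refine ⟨ρ r, ?_⟩
    rw [← rt_eq_some, rt_comb_inl, hr]
    rfl

theorem rootOf_none {ψ₀ : V → Option V} {v : V} (h : ψ₀ v = none) : rootOf ψ₀ v = some v := by
  unfold rootOf
  rw [rt_inl, comb_none h, rt_inr]

theorem rootOf_some {ψ₀ : V → Option V} {v w : V} (h : ψ₀ v = some w) :
    rootOf ψ₀ v = rootOf ψ₀ w := by
  unfold rootOf
  rw [rt_inl, comb_some h]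

/-- the root is a root -/
theorem rootOf_isRoot {ψ₀ : V → Option V} {v r : V} (h : rootOf ψ₀ v = some r) : ψ₀ r = none := by
  have key : ∀ n (v : V), (gfun (comb ψ₀ (fun v => v)))^[n] (Sum.inl v) = Sum.inr r →
      ψ₀ r = none := by
    intro n
    induction n with
    | zero => intro v h; simp at h
    | succ n ih =>
      intro v h
      rw [Function.iterate_succ_apply] at h
      cases hv : ψ₀ v with
      | none =>
        simp only [gfun, Sum.elim_inl, comb_none hv] at h
        have h2 := gfun_iter_inr (comb ψ₀ (fun v => v)) v n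
        unfold gfun at h2
        rw [h2] at h
        rw [← Sum.inr.inj h]
        exact hv
      | some w =>
        simp only [gfun, Sum.elim_inl, comb_some hv] at h
        exact ih w h
  obtain ⟨n, hn⟩ := rt_eq_some.1 h
  exact key n v hn

end comb

section sums

variable {R : Type*} [CommRing R]
variable {V Z : Type} [Fintype V] [Fintype Z] [DecidableEq V] [DecidableEq Z]

open Classical in
/-- size of the tree with root `r` (`0` when `r` is not a root) -/
noncomputable def tsz (ψ₀ : V → Option V) (r : V) : ℕ :=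
  (Finset.univ.filter fun v => rootOf ψ₀ v = some r).card

theorem tsz_eq_zero {ψ₀ : V → Option V} {r : V} (h : ψ₀ r ≠ none) : tsz ψ₀ r = 0 := by
  classical
  rw [tsz, Finset.card_eq_zero, Finset.eq_empty_iff_forall_notMem]
  intro v hv
  exact h (rootOf_isRoot (Finset.mem_filter.1 hv).2)

theorem tsz_pos {ψ₀ : V → Option V} {r : V} (h : ψ₀ r = none) : 0 < tsz ψ₀ r := by
  classical
  rw [tsz, Finset.card_pos]
  exact ⟨r, Finset.mem_filter.2 ⟨Finset.mem_univ _, rootOf_none h⟩⟩

theorem sum_tsz {ψ₀ : V → Option V} (h : Acy ψ₀) : ∑ r, tsz ψ₀ r = Fintype.card V := by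
  classical
  rw [acy_iff] at h
  choose r hr using h
  have : ∀ s, tsz ψ₀ s = (Finset.univ.filter fun v => r v = s).card := by
    intro s
    rw [tsz]
    congr 1
    ext v
    rw [Finset.mem_filter, Finset.mem_filter, hr, Option.some.injEq]
  simp only [this]
  rw [← Finset.card_univ, Finset.card_eq_sum_card_fiberwise (f := r) (t := Finset.univ)
    (fun _ _ => by simp)]

open Classical in
/-- fibres of the root map of a combination -/
theorem fib_comb (ψ₀ : V → Option V) (ρ : V → Z) (b c : R) (z : Z) :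
    fib (comb ψ₀ ρ) (Sum.elim (fun _ => b) (fun _ => c)) (some z) =
      b * (∑ r, if ρ r = z then (tsz ψ₀ r : R) else 0) + c := by
  unfold fib
  rw [Fintype.sum_sum_type]
  simp only [Sum.elim_inl, Sum.elim_inr, rt_inr, Option.some.injEq]
  rw [Finset.sum_ite_eq', if_pos (Finset.mem_univ _)]
  congr 1
  rw [Finset.mul_sum]
  have e1 : ∀ r, b * (if ρ r = z then (tsz ψ₀ r : R) else 0) =
      ∑ v, if rootOf ψ₀ v = some r then (if ρ r = z then b else 0) else 0 := by
    intro r
    rw [← Finset.sum_filter, Finset.sum_const, tsz]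
    split_ifs
    · rw [nsmul_eq_mul, mul_comm]
    · simp
  simp only [e1]
  rw [Finset.sum_comm]
  apply Finset.sum_congr rfl
  intro v _
  rw [rt_comb_inl]
  cases h : rootOf ψ₀ v with
  | none => simp
  | some r => simp

open Classical in
/-- passing from maps to the clones to pairs (forest, labels) -/
theorem sum_comb (f : V → V ⊕ Z → R) (f₀ : V → Option V → R)
    (h1 : ∀ v w, f v (Sum.inl w) = (Fintype.card Z : R) * f₀ v (some w))
    (h2 : ∀ v z, f v (Sum.inr z) = f₀ v none) (Y : (V → V ⊕ Z) → R) :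
    ∑ ψ : V → V ⊕ Z, Y ψ * ∏ v, f v (ψ v) =
      ∑ ψ₀ : V → Option V, (∏ v, f₀ v (ψ₀ v)) * ∑ ρ : V → Z, Y (comb ψ₀ ρ) := by
  let c : V → Option V × Z → V ⊕ Z := fun _ p => match p.1 with
    | some w => Sum.inl w
    | none => Sum.inr p.2
  have e1 := sum_fiber' c (fun v p => f₀ v p.1) Y
  have e2 : ∀ (ψ : V → V ⊕ Z) (v : V), ∑ t : Option V × Z, (if c v t = ψ v then f₀ v t.1 else 0) =
      f v (ψ v) := by
    intro ψ v
    rw [Fintype.sum_prod_type, Fintype.sum_option]
    cases h : ψ v with
    | inl w =>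
      simp only [c, reduceCtorEq, if_false, Finset.sum_const_zero, zero_add, Sum.inl.injEq]
      rw [h1, Finset.sum_eq_single w]
      · simp
      · intro x _ hx; simp [hx]
      · intro h; exact absurd (Finset.mem_univ _) h
    | inr z =>
      simp only [c, reduceCtorEq, if_false, Finset.sum_const_zero, add_zero, Sum.inr.injEq]
      rw [h2, Finset.sum_ite_eq', if_pos (Finset.mem_univ _)]
  simp only [e2] at e1
  rw [← e1, ← Equiv.sum_comp (Equiv.arrowProdEquivProdArrow V (fun _ => Option V) (fun _ => Z)).symm,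
    Fintype.sum_prod_type]
  apply Finset.sum_congr rfl
  intro ψ₀ _
  rw [Finset.mul_sum]
  apply Finset.sum_congr rfl
  intro ρ _
  rw [mul_comm]
  rfl

end sums

end Pool.Agent.Hhelper69.Uni
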