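import Mathlib
import Pool.Agent.Hhelper69.Uni.Forest

/-!
# The tuned clone gadget
-/

namespace Pool.Agent.Hhelper69.Uni

open Finset

set_option linter.unusedSectionVars false

variable {V Z : Type} [Fintype V] [Fintype Z] [DecidableEq V] [DecidableEq Z]

/-- the weight matrix: `a • M` inside `V`, `b` between `V` and the clones, `c` between clones -/
def gW (M : V → V → ℚ) (a b c : ℚ) : V ⊕ Z → V ⊕ Z → ℚ
  | Sum.inl v, Sum.inl w => a * M v w
  | Sum.inl _, Sum.inr _ => b
  | Sum.inr _, Sum.inl _ => b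
  | Sum.inr z, Sum.inr z' => if z = z' then 0 else c

/-- weight of a parent choice -/
def fw (M : V → V → ℚ) (α : ℚ) (v : V) (o : Option V) : ℚ := o.elim 1 (fun w => α * M v w)

/-- the polynomial in `m` attached to tree sizes `s` -/
def gT (N : ℚ) (s : V → ℕ) (m : ℕ) : ℚ :=
  ∑ T : Finset V, (-1 / N) ^ T.card * (∏ v ∈ T, (s v : ℚ)) * (m.descFactorial T.card : ℚ)

open Classical in
/-- the weighted forest sum -/
noncomputable def gF (M : V → V → ℚ) (α : ℚ) (m : ℕ) : ℚ :=
  ∑ ψ₀ : V → Option V, (∏ v, fw M α v (ψ₀ v)) *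
    if Acy ψ₀ then gT (Fintype.card V) (tsz ψ₀) m else 0

theorem sum_labels_tuned (s : V → ℕ) (hV : (Fintype.card V : ℚ) ≠ 0) :
    ∑ ρ : V → Z, ∏ z, ((Fintype.card Z : ℚ) * (∑ r, if ρ r = z then (s r : ℚ) else 0) +
      (-(Fintype.card V : ℚ))) =
    (-(Fintype.card V : ℚ)) ^ Fintype.card Z * (Fintype.card Z : ℚ) ^ Fintype.card V *
      gT (Fintype.card V) s (Fintype.card Z) := by
  set m := Fintype.card Z with hm
  set N : ℚ := (Fintype.card V : ℚ) with hN
  have e1 : ∀ ρ : V → Z, ∏ z, ((m : ℚ) * (∑ r, if ρ r = z then (s r : ℚ) else 0) + (-N)) =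
      (-N) ^ m * ∏ z, (1 + ∑ v, if ρ v = z then (-(m : ℚ) / N * s v) else 0) := by
    intro ρ
    rw [hm, ← Finset.card_univ, ← Finset.prod_const, ← Finset.prod_mul_distrib]
    apply Finset.prod_congr rfl
    intro z _
    have : ∑ v, (if ρ v = z then (-((Finset.univ : Finset Z).card : ℚ) / N * s v) else 0) =
        (-((Finset.univ : Finset Z).card : ℚ) / N) * ∑ r, if ρ r = z then (s r : ℚ) else 0 := by
      rw [Finset.mul_sum]
      apply Finset.sum_congr rfl
      intro v _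
      split_ifs <;> simp
    rw [this]
    field_simp
    ring
  simp only [e1]
  rw [← Finset.mul_sum, sum_labels, gT, Finset.mul_sum, Finset.mul_sum]
  apply Finset.sum_congr rfl
  intro T _
  have hT : T.card ≤ Fintype.card V := Finset.card_le_univ T
  rw [Finset.prod_mul_distrib, Finset.prod_const]
  have h2 : (m : ℚ) ^ Fintype.card V = (m : ℚ) ^ T.card * (m : ℚ) ^ (Fintype.card V - T.card) := by
    rw [← pow_add, Nat.add_sub_cancel' hT]
  rw [h2]
  push_cast
  rw [← hm]
  have h3 : (-(m : ℚ) / N) ^ T.card = (-1 / N) ^ T.card * (m : ℚ) ^ T.card := by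
    rw [← mul_pow]; congr 1; ring
  rw [h3]
  ring

theorem gW_clone (M : V → V → ℚ) (a : ℚ) (z : Z) (t : V ⊕ Z) :
    gW M a (Fintype.card Z) (-(Fintype.card V : ℚ)) (Sum.inr z) t =
      cloneRow (Sum.elim (fun _ => (Fintype.card Z : ℚ)) (fun _ => (-(Fintype.card V : ℚ))))
        (Fintype.card V) z t := by
  cases t with
  | inl v => simp [gW, cloneRow]
  | inr z' =>
    simp only [gW, cloneRow, Sum.elim_inr, Sum.inr.injEq]
    by_cases h : z = z'
    · subst h; simp
    · rw [if_neg h, if_neg (fun h' => h h'.symm), add_zero]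

theorem kappa_sum : ∑ t : V ⊕ Z, (Sum.elim (fun _ => (Fintype.card Z : ℚ))
    (fun _ => (-(Fintype.card V : ℚ))) t : ℚ) = 0 := by
  rw [Fintype.sum_sum_type]
  simp only [Sum.elim_inl, Sum.elim_inr, Finset.sum_const, Finset.card_univ, nsmul_eq_mul]
  ring

/-- the tuned number of connected functional graphs -/
theorem connSum_tuned {n : ℕ} (hcard : Fintype.card Z = n + 2) (hV : (Fintype.card V : ℚ) ≠ 0)
    (M : V → V → ℚ) (α : ℚ) :
    connSum (gW (Z := Z) M (α * (Fintype.card Z : ℚ) ^ 2) (Fintype.card Z)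
      (-(Fintype.card V : ℚ))) =
    - (n.factorial : ℚ) * ((-(Fintype.card V : ℚ)) ^ Fintype.card Z *
      (Fintype.card Z : ℚ) ^ (2 * Fintype.card V)) * gF M α (Fintype.card Z) := by
  classical
  set m := Fintype.card Z with hm
  set N := Fintype.card V with hN
  rw [clone_connSum hcard (gW (Z := Z) M (α * (m : ℚ) ^ 2) m (-(N : ℚ)))
    (Sum.elim (fun _ => (m : ℚ)) (fun _ => (-(N : ℚ)))) N kappa_sum (gW_clone M _)]
  have e1 := sum_comb (Z := Z) (fun v t => gW M (α * (m : ℚ) ^ 2) m (-(N : ℚ)) (Sum.inl v) t)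
    (fun v o => (m : ℚ) * fw M α v o) (fun v w => by
      simp only [gW, fw, Option.elim_some, ← hm]; ring) (fun v z => by simp [gW, fw])
    (fun ψ => if Good ψ then ∏ z, fib ψ (Sum.elim (fun _ => (m : ℚ)) (fun _ => (-(N : ℚ))))
      (some z) else 0)
  have e2 : ∀ ψ : V → V ⊕ Z, (if Good ψ then (∏ v, gW M (α * (m : ℚ) ^ 2) m (-(N : ℚ))
      (Sum.inl v) (ψ v)) * ∏ z, fib ψ (Sum.elim (fun _ => (m : ℚ)) (fun _ => (-(N : ℚ))))
      (some z) else 0) =
      (if Good ψ then ∏ z, fib ψ (Sum.elim (fun _ => (m : ℚ)) (fun _ => (-(N : ℚ))))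
      (some z) else 0) * ∏ v, gW M (α * (m : ℚ) ^ 2) m (-(N : ℚ)) (Sum.inl v) (ψ v) := by
    intro ψ
    split_ifs
    · rw [mul_comm]
    · rw [zero_mul]
  have e3 : (∑ ψ : V → V ⊕ Z, (if Good ψ then (∏ v, gW M (α * (m : ℚ) ^ 2) m (-(N : ℚ))
      (Sum.inl v) (ψ v)) * ∏ z, fib ψ (Sum.elim (fun _ => (m : ℚ)) (fun _ => (-(N : ℚ))))
      (some z) else 0)) = (-(N : ℚ)) ^ m * (m : ℚ) ^ (2 * N) * gF M α m := by
    simp only [e2]
    rw [e1, gF, Finset.mul_sum]
    apply Finset.sum_congr rfl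
    intro ψ₀ _
    rw [Finset.prod_mul_distrib, Finset.prod_const, Finset.card_univ, ← hN]
    simp only [good_comb_iff]
    by_cases hA : Acy ψ₀
    · simp only [hA, if_true, fib_comb]
      rw [hm, sum_labels_tuned (tsz ψ₀) hV, ← hm, ← hN]
      rw [two_mul N, pow_add]
      ring
    · simp only [hA, if_false, Finset.sum_const_zero, mul_zero]
  have e4 : ∀ x y : ℚ, x = y → -(n.factorial : ℚ) * x = -(n.factorial : ℚ) * y := by
    intro x y h; rw [h]
  rw [mul_assoc]
  refine e4 _ _ ?_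
  convert e3 using 1

/-- the tuned number of spanning trees vanishes -/
theorem rootSum_tuned {n : ℕ} (hcard : Fintype.card Z = n + 2)
    (M : V → V → ℚ) (a : ℚ) (r : V) :
    rootSum (gW (Z := Z) M a (Fintype.card Z) (-(Fintype.card V : ℚ))) (Sum.inl r) = 0 := by
  classical
  rw [← connSum_treeW]
  rw [clone_connSum hcard _ (Sum.elim (fun _ => (Fintype.card Z : ℚ))
    (fun _ => (-(Fintype.card V : ℚ)))) (Fintype.card V) kappa_sum (fun z t => by
      rw [if_neg (by simp)]; exact gW_clone M a z t)]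
  apply mul_eq_zero_of_right
  apply Finset.sum_eq_zero
  intro ψ _
  split_ifs with hg
  · apply mul_eq_zero_of_left
    apply Finset.prod_eq_zero (Finset.mem_univ r)
    rw [if_pos rfl, if_neg]
    intro h
    obtain ⟨z, k, hk⟩ := hg r
    have : ∀ k, (gfun ψ)^[k] (Sum.inl r) = Sum.inl r := by
      intro k
      exact Function.iterate_fixed (by simp [gfun, h]) k
    rw [this] at hk
    simp at hk
  · rfl

end Pool.Agent.Hhelper69.Uni
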