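import Mathlib
import Pool.Agent.Hhelper69.Uni.Tuned

/-!
# Interpolation
-/

namespace Pool.Agent.Hhelper69.Uni

open Finset

set_option linter.unusedSectionVars false

/-- value at `y` of the Lagrange basis polynomial for the nodes `0, …, d` -/
def lag (d i : ℕ) (y : ℚ) : ℚ := ∏ j ∈ (Finset.range (d + 1)).erase i, (y - j) / ((i : ℚ) - j)

theorem lagrange_eval (P : Polynomial ℚ) (d : ℕ) (hP : P.natDegree ≤ d) (y : ℚ) :
    P.eval y = ∑ i ∈ Finset.range (d + 1), P.eval (i : ℚ) * lag d i y := by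
  have h := Lagrange.eq_interpolate (s := Finset.range (d + 1)) (v := fun i : ℕ => (i : ℚ)) (f := P)
    (fun a _ b _ h => Nat.cast_injective h) (by
      rw [Finset.card_range]
      exact lt_of_le_of_lt Polynomial.degree_le_natDegree (by exact_mod_cast Nat.lt_succ_of_le hP))
  conv_lhs => rw [h]
  rw [Lagrange.interpolate_apply, Polynomial.eval_finsetSum]
  apply Finset.sum_congr rfl
  intro i _
  rw [Polynomial.eval_mul, Polynomial.eval_C, Lagrange.basis, Polynomial.eval_prod, lag]
  congr 1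
  apply Finset.prod_congr rfl
  intro j _
  rw [Lagrange.basisDivisor, Polynomial.eval_mul, Polynomial.eval_C, Polynomial.eval_sub,
    Polynomial.eval_X, Polynomial.eval_C]
  ring

/-- extrapolation of a polynomial from `1, …, d + 1` to `0` -/
theorem lagrange_zero (P : Polynomial ℚ) (d : ℕ) (hP : P.natDegree ≤ d) :
    P.eval 0 = ∑ i ∈ Finset.range (d + 1), P.eval ((i + 1 : ℕ) : ℚ) * lag d i (-1) := by
  have h := lagrange_eval (P.comp (Polynomial.X + 1)) d (by
    refine Polynomial.natDegree_comp_le.trans ?_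
    have : (Polynomial.X + 1 : Polynomial ℚ).natDegree ≤ 1 := by
      rw [← Polynomial.C_1]; exact (Polynomial.natDegree_X_add_C (1 : ℚ)).le
    calc P.natDegree * (Polynomial.X + 1 : Polynomial ℚ).natDegree ≤ P.natDegree * 1 :=
          Nat.mul_le_mul_left _ this
      _ ≤ d := by omega) (-1)
  simp only [Polynomial.eval_comp, Polynomial.eval_add, Polynomial.eval_X,
    Polynomial.eval_one] at h
  rw [neg_add_cancel] at h
  rw [h]
  push_cast
  rfl

/-- truncated exponential -/
def texp (n : ℕ) (y : ℚ) : ℚ := ∑ l ∈ Finset.range (n + 1), y ^ l / l.factorial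

theorem texp_mul (K : ℕ) (x : ℚ) :
    ∑ i ∈ Finset.range (K + 1), x ^ i / i.factorial * texp (K - i) (-x) = 1 := by
  induction K with
  | zero => simp [texp]
  | succ K ih =>
    rw [Finset.sum_range_succ]
    have h1 : ∀ i ∈ Finset.range (K + 1), x ^ i / i.factorial * texp (K + 1 - i) (-x) =
        x ^ i / i.factorial * texp (K - i) (-x) +
          x ^ i / i.factorial * ((-x) ^ (K + 1 - i) / (K + 1 - i).factorial) := by
      intro i hi
      have hi' : i ≤ K := Nat.lt_succ_iff.1 (Finset.mem_range.1 hi)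
      rw [show K + 1 - i = K - i + 1 by omega, texp, Finset.sum_range_succ, ← texp, mul_add]
    rw [Finset.sum_congr rfl h1, Finset.sum_add_distrib, ih]
    have h2 : ∑ i ∈ Finset.range (K + 1 + 1),
        x ^ i / i.factorial * ((-x) ^ (K + 1 - i) / (K + 1 - i).factorial) = 0 := by
      have h3 := add_pow x (-x) (K + 1)
      rw [add_neg_cancel, zero_pow (Nat.succ_ne_zero K)] at h3
      have h4 : ∀ i ∈ Finset.range (K + 1 + 1),
          x ^ i / i.factorial * ((-x) ^ (K + 1 - i) / (K + 1 - i).factorial) =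
          (x ^ i * (-x) ^ (K + 1 - i) * ((K + 1).choose i : ℚ)) / (K + 1).factorial := by
        intro i hi
        have hi' : i ≤ K + 1 := Nat.lt_succ_iff.1 (Finset.mem_range.1 hi)
        rw [Nat.cast_choose ℚ hi']
        have a1 : ((K + 1).factorial : ℚ) ≠ 0 := by exact_mod_cast Nat.factorial_ne_zero _
        have a2 : (i.factorial : ℚ) ≠ 0 := by exact_mod_cast Nat.factorial_ne_zero _
        have a3 : ((K + 1 - i).factorial : ℚ) ≠ 0 := by exact_mod_cast Nat.factorial_ne_zero _
        field_simp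
      rw [Finset.sum_congr rfl h4, ← Finset.sum_div, ← h3, zero_div]
    rw [Finset.sum_range_succ] at h2
    simp only [Nat.sub_self, Nat.factorial_zero, pow_zero] at h2 ⊢
    have h5 : texp 0 (-x) = 1 := by simp [texp]
    rw [h5]
    simp only [Nat.cast_one, div_one, mul_one] at h2 ⊢
    linarith

/-- coefficients of the functional `(m)_j ↦ N^j` -/
def lam (N i : ℕ) : ℚ := (N : ℚ) ^ i / i.factorial * texp (N - i) (-(N : ℚ))

theorem lam_desc (N j : ℕ) (hj : j ≤ N) :
    ∑ i ∈ Finset.range (N + 1), lam N i * (i.descFactorial j : ℚ) = (N : ℚ) ^ j := by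
  obtain ⟨K, rfl⟩ := Nat.exists_eq_add_of_le hj
  rw [show j + K + 1 = j + (K + 1) by ring, Finset.sum_range_add]
  have h1 : ∑ i ∈ Finset.range j, lam (j + K) i * (i.descFactorial j : ℚ) = 0 := by
    apply Finset.sum_eq_zero
    intro i hi
    rw [Nat.descFactorial_of_lt (Finset.mem_range.1 hi), Nat.cast_zero, mul_zero]
  rw [h1, zero_add]
  have h2 : ∀ i ∈ Finset.range (K + 1), lam (j + K) (j + i) * ((j + i).descFactorial j : ℚ) =
      ((j + K : ℕ) : ℚ) ^ j * (((j + K : ℕ) : ℚ) ^ i / i.factorial *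
        texp (K - i) (-((j + K : ℕ) : ℚ))) := by
    intro i hi
    have h3 : ((j + i).factorial : ℚ) = i.factorial * (j + i).descFactorial j := by
      have := Nat.factorial_mul_descFactorial (show j ≤ j + i by omega)
      rw [Nat.add_sub_cancel_left] at this
      exact_mod_cast this.symm
    have h4 : ((j + i).descFactorial j : ℚ) ≠ 0 := by
      have : (j + i).descFactorial j ≠ 0 := by
        rw [Ne, Nat.descFactorial_eq_zero_iff_lt]; omega
      exact_mod_cast this
    have h5 : (i.factorial : ℚ) ≠ 0 := by exact_mod_cast Nat.factorial_ne_zero _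
    rw [lam, h3, show j + K - (j + i) = K - i by omega, pow_add]
    field_simp
  rw [Finset.sum_congr rfl h2, ← Finset.mul_sum, texp_mul, mul_one]

/-- weights for the number of clones `m = 2, …, N + 1` -/
def wM (N i : ℕ) : ℚ := (if i ≤ N then lam N i else 0) + lam N 0 * lag N (i - 1) (-1)

theorem functional_eq (P : Polynomial ℚ) (N : ℕ) (hN : 1 ≤ N) (hP : P.natDegree ≤ N)
    (h1 : P.eval 1 = 0) :
    ∑ i ∈ Finset.range (N + 1), lam N i * P.eval (i : ℚ) =
      ∑ i ∈ Finset.range N, wM N (i + 2) * P.eval ((i + 2 : ℕ) : ℚ) := by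
  have h0 := lagrange_zero P N hP
  rw [Finset.sum_range_succ'] at h0 ⊢
  simp only [zero_add, Nat.cast_one, h1, zero_mul, add_zero, Nat.cast_zero] at h0 ⊢
  rw [h0]
  obtain ⟨K, rfl⟩ := Nat.exists_eq_add_of_le' hN
  have h2 : ∑ i ∈ Finset.range (K + 1), lam (K + 1) (i + 1) * P.eval ((i + 1 : ℕ) : ℚ) =
      ∑ i ∈ Finset.range (K + 1), (if i + 2 ≤ K + 1 then lam (K + 1) (i + 2) else 0) *
        P.eval ((i + 2 : ℕ) : ℚ) := by
    rw [Finset.sum_range_succ' (fun i => lam (K + 1) (i + 1) * P.eval ((i + 1 : ℕ) : ℚ)),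
      Finset.sum_range_succ (fun i => (if i + 2 ≤ K + 1 then lam (K + 1) (i + 2) else 0) *
        P.eval ((i + 2 : ℕ) : ℚ))]
    simp only [zero_add, Nat.cast_one, h1, mul_zero, add_zero]
    rw [if_neg (by omega), zero_mul, add_zero]
    apply Finset.sum_congr rfl
    intro i hi
    rw [Finset.mem_range] at hi
    rw [if_pos (by omega)]
  rw [h2, Finset.mul_sum, ← Finset.sum_add_distrib]
  apply Finset.sum_congr rfl
  intro i _
  rw [wM, show i + 2 - 1 = i + 1 by omega]
  ring

section G

variable {V : Type} [Fintype V] [DecidableEq V]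

/-- `gT` as a polynomial -/
noncomputable def gTpoly (N : ℚ) (s : V → ℕ) : Polynomial ℚ :=
  ∑ T : Finset V, Polynomial.C ((-1 / N) ^ T.card * (∏ v ∈ T, (s v : ℚ))) *
    descPochhammer ℚ T.card

theorem gTpoly_eval (N : ℚ) (s : V → ℕ) (m : ℕ) : (gTpoly N s).eval (m : ℚ) = gT N s m := by
  rw [gTpoly, Polynomial.eval_finsetSum, gT]
  apply Finset.sum_congr rfl
  intro T _
  rw [Polynomial.eval_mul, Polynomial.eval_C, descPochhammer_eval_eq_descFactorial]

theorem gTpoly_natDegree (N : ℚ) (s : V → ℕ) : (gTpoly N s).natDegree ≤ Fintype.card V := by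
  apply Polynomial.natDegree_sum_le_of_forall_le
  intro T _
  refine (Polynomial.natDegree_C_mul_le _ _).trans ?_
  rw [descPochhammer_natDegree]
  exact Finset.card_le_univ T

theorem gT_functional (s : V → ℕ) (hV : (Fintype.card V : ℚ) ≠ 0) :
    ∑ i ∈ Finset.range (Fintype.card V + 1), lam (Fintype.card V) i * gT (Fintype.card V) s i =
      ∏ v, (1 - (s v : ℚ)) := by
  simp only [gT, Finset.mul_sum]
  rw [Finset.sum_comm]
  have h1 : ∀ T : Finset V, ∑ i ∈ Finset.range (Fintype.card V + 1), lam (Fintype.card V) i *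
      ((-1 / (Fintype.card V : ℚ)) ^ T.card * (∏ v ∈ T, (s v : ℚ)) *
        (i.descFactorial T.card : ℚ)) = ∏ v ∈ T, (-(s v : ℚ)) := by
    intro T
    have h2 := lam_desc (Fintype.card V) T.card (Finset.card_le_univ T)
    have h3 : ∀ i ∈ Finset.range (Fintype.card V + 1), lam (Fintype.card V) i *
      ((-1 / (Fintype.card V : ℚ)) ^ T.card * (∏ v ∈ T, (s v : ℚ)) *
        (i.descFactorial T.card : ℚ)) = ((-1 / (Fintype.card V : ℚ)) ^ T.card *
        (∏ v ∈ T, (s v : ℚ))) * (lam (Fintype.card V) i * (i.descFactorial T.card : ℚ)) := by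
      intro i _; ring
    rw [Finset.sum_congr rfl h3, ← Finset.mul_sum, h2]
    have h4 : ∏ v ∈ T, (-(s v : ℚ)) = (-1) ^ T.card * ∏ v ∈ T, (s v : ℚ) := by
      rw [← Finset.prod_const, ← Finset.prod_mul_distrib]
      apply Finset.prod_congr rfl
      intro v _; ring
    rw [h4, div_pow]
    field_simp
  rw [Finset.sum_congr rfl (fun T _ => h1 T)]
  have h5 := Finset.prod_add (fun v : V => (-(s v : ℚ))) (fun _ => 1) Finset.univ
  simp only [Finset.prod_const_one, mul_one, Finset.powerset_univ] at h5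
  rw [← h5]
  apply Finset.prod_congr rfl
  intro v _; ring

theorem gT_one (s : V → ℕ) (hV : (Fintype.card V : ℚ) ≠ 0) (hs : ∑ v, s v = Fintype.card V) :
    gT (Fintype.card V) s 1 = 0 := by
  have h := sum_labels_tuned (Z := Unit) s hV
  have h2 : ∀ ρ : V → Unit, ∏ z : Unit, ((Fintype.card Unit : ℚ) *
      (∑ r, if ρ r = z then (s r : ℚ) else 0) + (-(Fintype.card V : ℚ))) = 0 := by
    intro ρ
    rw [Finset.univ_unique, Finset.prod_singleton]
    have : ∀ r, (if ρ r = default then (s r : ℚ) else 0) = s r :=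
      fun r => if_pos (Subsingleton.elim _ _)
    rw [Finset.sum_congr rfl (fun r _ => this r), Fintype.card_unit, Nat.cast_one, one_mul,
      ← Nat.cast_sum, hs, add_neg_cancel]
  rw [Finset.sum_eq_zero (fun ρ _ => h2 ρ)] at h
  simp only [Fintype.card_unit, Nat.cast_one, pow_one, one_pow, mul_one] at h
  exact (mul_eq_zero.1 h.symm).resolve_left (neg_ne_zero.2 hV)

open Classical in
/-- forest sum with the singletons killed -/
noncomputable def sF (M : V → V → ℚ) (α : ℚ) : ℚ :=
  ∑ ψ₀ : V → Option V, (∏ v, fw M α v (ψ₀ v)) *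
    if Acy ψ₀ then ∏ v, (1 - (tsz ψ₀ v : ℚ)) else 0

theorem sF_eq (M : V → V → ℚ) (α : ℚ) (hV : 1 ≤ Fintype.card V) :
    sF M α = ∑ i ∈ Finset.range (Fintype.card V), wM (Fintype.card V) (i + 2) * gF M α (i + 2) := by
  classical
  have hV' : (Fintype.card V : ℚ) ≠ 0 := by
    have : Fintype.card V ≠ 0 := by omega
    exact_mod_cast this
  have h1 : sF M α = ∑ ψ₀ : V → Option V, (∏ v, fw M α v (ψ₀ v)) *
      ∑ i ∈ Finset.range (Fintype.card V), wM (Fintype.card V) (i + 2) *
        if Acy ψ₀ then gT (Fintype.card V) (tsz ψ₀) (i + 2) else 0 := by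
    rw [sF]
    apply Finset.sum_congr rfl
    intro ψ₀ _
    congr 1
    by_cases hA : Acy ψ₀
    · simp only [hA, if_true]
      have h2 := functional_eq (gTpoly (Fintype.card V) (tsz ψ₀)) (Fintype.card V) hV
        (gTpoly_natDegree _ _) (by
          have := gTpoly_eval (Fintype.card V) (tsz ψ₀) 1
          rw [Nat.cast_one] at this
          rw [this, gT_one _ hV' (sum_tsz hA)])
      simp only [gTpoly_eval] at h2
      rw [← h2, gT_functional _ hV']
    · simp [hA]
  rw [h1]
  simp only [gF, Finset.mul_sum]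
  rw [Finset.sum_comm]
  apply Finset.sum_congr rfl
  intro i _
  apply Finset.sum_congr rfl
  intro ψ₀ _
  ring

end G

end Pool.Agent.Hhelper69.Uni
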