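import Mathlib
import Pool.Agent.Hhelper69.Uni.Interp

/-!
# Extraction of (oriented) perfect matchings
-/

namespace Pool.Agent.Hhelper69.Uni

open Finset

set_option linter.unusedSectionVars false

section acy

variable {V : Type} [Fintype V] [DecidableEq V]

/-- oriented perfect matchings: every non-root is attached to a root, every root gets exactly one -/
def OM (ψ₀ : V → Option V) : Prop :=
  (∀ v w, ψ₀ v = some w → ψ₀ w = none) ∧ (∀ w, ψ₀ w = none → ∃! v, ψ₀ v = some w)

theorem acy_ne_self {ψ₀ : V → Option V} (h : Acy ψ₀) (v : V) : ψ₀ v ≠ some v := by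
  intro hv
  obtain ⟨z, n, hn⟩ := h v
  rw [Function.iterate_fixed (by simp [gfun, comb_some hv])] at hn
  simp at hn

open Classical in
theorem OM_iff {ψ₀ : V → Option V} : OM ψ₀ ↔ Acy ψ₀ ∧ ∀ r, ψ₀ r = none → tsz ψ₀ r = 2 := by
  constructor
  · rintro ⟨h1, h2⟩
    have hroot : ∀ v w, ψ₀ v = some w → rootOf ψ₀ v = some w := fun v w h => by
      rw [rootOf_some h, rootOf_none (h1 v w h)]
    refine ⟨acy_iff.2 fun v => ?_, fun r hr => ?_⟩
    · cases h : ψ₀ v with
      | none => exact ⟨v, rootOf_none h⟩
      | some w => exact ⟨w, hroot v w h⟩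
    · obtain ⟨v, hv, huniq⟩ := h2 r hr
      have hvr : r ≠ v := by
        rintro rfl
        rw [hr] at hv; simp at hv
      rw [tsz, show (Finset.univ.filter fun v => rootOf ψ₀ v = some r) = {r, v} from ?_,
        Finset.card_pair hvr]
      ext u
      rw [Finset.mem_filter, Finset.mem_insert, Finset.mem_singleton]
      constructor
      · rintro ⟨_, hu⟩
        cases h : ψ₀ u with
        | none =>
          rw [rootOf_none h] at hu
          left; exact Option.some.inj hu
        | some w =>
          rw [hroot u w h] at hu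
          right
          apply huniq
          rw [Option.some.inj hu] at h
          exact h
      · rintro (rfl | rfl)
        · exact ⟨Finset.mem_univ _, rootOf_none hr⟩
        · exact ⟨Finset.mem_univ _, hroot _ _ hv⟩
  · rintro ⟨hA, h2⟩
    have hstep : ∀ v w, ψ₀ v = some w → ψ₀ w = none := by
      intro v w hvw
      obtain ⟨r, hr⟩ := acy_iff.1 hA w
      by_contra hw
      have hrr : ψ₀ r = none := rootOf_isRoot hr
      have hwr : w ≠ r := by rintro rfl; exact hw hrr
      have hvr : v ≠ r := by rintro rfl; rw [hrr] at hvw; simp at hvw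
      have hvw' : v ≠ w := by rintro rfl; exact acy_ne_self hA _ hvw
      have h3 : ({v, w, r} : Finset V) ⊆ Finset.univ.filter fun v => rootOf ψ₀ v = some r := by
        intro u hu
        rw [Finset.mem_insert, Finset.mem_insert, Finset.mem_singleton] at hu
        rw [Finset.mem_filter]
        refine ⟨Finset.mem_univ _, ?_⟩
        rcases hu with rfl | rfl | rfl
        · rw [rootOf_some hvw, hr]
        · exact hr
        · exact rootOf_none hrr
      have h4 := Finset.card_le_card h3
      rw [Finset.card_insert_of_notMem (by simp [hvw', hvr]),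
        Finset.card_insert_of_notMem (by simp [hwr]), Finset.card_singleton] at h4
      have h5 := h2 r hrr
      rw [tsz] at h5
      omega
    refine ⟨hstep, fun r hr => ?_⟩
    have hroot : ∀ v w, ψ₀ v = some w → rootOf ψ₀ v = some w := fun v w h => by
      rw [rootOf_some h, rootOf_none (hstep v w h)]
    have h5 := h2 r hr
    rw [tsz] at h5
    have hrm : r ∈ Finset.univ.filter fun v => rootOf ψ₀ v = some r :=
      Finset.mem_filter.2 ⟨Finset.mem_univ _, rootOf_none hr⟩
    have h6 : ((Finset.univ.filter fun v => rootOf ψ₀ v = some r).erase r).card = 1 := by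
      rw [Finset.card_erase_of_mem hrm, h5]
    obtain ⟨v, hv⟩ := Finset.card_eq_one.1 h6
    have hvm : v ∈ (Finset.univ.filter fun v => rootOf ψ₀ v = some r).erase r := by
      rw [hv]; exact Finset.mem_singleton_self _
    rw [Finset.mem_erase, Finset.mem_filter] at hvm
    refine ⟨v, ?_, fun u hu => ?_⟩
    · simp only
      cases h : ψ₀ v with
      | none =>
        rw [rootOf_none h] at hvm
        exact absurd (Option.some.inj hvm.2.2) hvm.1
      | some w =>
        rw [hroot v w h] at hvm
        exact hvm.2.2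
    · have : u ∈ (Finset.univ.filter fun v => rootOf ψ₀ v = some r).erase r := by
        rw [Finset.mem_erase, Finset.mem_filter]
        refine ⟨?_, Finset.mem_univ _, hroot u r hu⟩
        rintro rfl
        rw [hr] at hu; simp at hu
      rw [hv, Finset.mem_singleton] at this
      exact this

/-- number of non-roots -/
def nonr (ψ₀ : V → Option V) : ℕ := (Finset.univ.filter fun v => ψ₀ v ≠ none).card

theorem card_roots (ψ₀ : V → Option V) :
    (Finset.univ.filter fun v => ψ₀ v = none).card + nonr ψ₀ = Fintype.card V := by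
  rw [nonr, ← Finset.card_univ]
  exact Finset.card_filter_add_card_filter_not _

theorem sum_tsz_roots (ψ₀ : V → Option V) :
    ∑ r, tsz ψ₀ r = ∑ r ∈ Finset.univ.filter (fun v => ψ₀ v = none), tsz ψ₀ r := by
  rw [Finset.sum_filter]
  apply Finset.sum_congr rfl
  intro r _
  split_ifs with h
  · rfl
  · exact tsz_eq_zero h

/-- the weight kills forests with few non-roots -/
theorem killed {ψ₀ : V → Option V} {Rr : ℕ} (hV : Fintype.card V = 2 * Rr) (hA : Acy ψ₀)
    (h : ∏ v, (1 - (tsz ψ₀ v : ℚ)) ≠ 0) : Rr ≤ nonr ψ₀ ∧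
      (nonr ψ₀ = Rr → ∀ r, ψ₀ r = none → tsz ψ₀ r = 2) := by
  have h1 : ∀ r, ψ₀ r = none → 2 ≤ tsz ψ₀ r := by
    intro r hr
    have h2 := tsz_pos hr
    have h3 : tsz ψ₀ r ≠ 1 := by
      intro h4
      apply h
      apply Finset.prod_eq_zero (Finset.mem_univ r)
      rw [h4]; simp
    omega
  have h2 := sum_tsz hA
  rw [sum_tsz_roots] at h2
  have h3 := card_roots ψ₀
  have h4 : (Finset.univ.filter fun v => ψ₀ v = none).card * 2 ≤
      ∑ r ∈ Finset.univ.filter (fun v => ψ₀ v = none), tsz ψ₀ r := by
    rw [← smul_eq_mul]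
    exact Finset.card_nsmul_le_sum _ _ _ (fun r hr => h1 r (Finset.mem_filter.1 hr).2)
  refine ⟨by omega, fun h5 r hr => ?_⟩
  by_contra h6
  have h7 : 2 < tsz ψ₀ r := lt_of_le_of_ne (h1 r hr) (Ne.symm h6)
  have h8 : (Finset.univ.filter fun v => ψ₀ v = none).card * 2 <
      ∑ r ∈ Finset.univ.filter (fun v => ψ₀ v = none), tsz ψ₀ r := by
    rw [← smul_eq_mul, ← Finset.sum_const]
    exact Finset.sum_lt_sum (fun r hr => h1 r (Finset.mem_filter.1 hr).2)
      ⟨r, Finset.mem_filter.2 ⟨Finset.mem_univ _, hr⟩, h7⟩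
  omega

theorem OM_nonr {ψ₀ : V → Option V} {Rr : ℕ} (hV : Fintype.card V = 2 * Rr) (h : OM ψ₀) :
    nonr ψ₀ = Rr := by
  rw [OM_iff] at h
  have h2 := sum_tsz h.1
  rw [sum_tsz_roots, Finset.sum_congr rfl (fun r hr => h.2 r (Finset.mem_filter.1 hr).2),
    Finset.sum_const, smul_eq_mul] at h2
  have h3 := card_roots ψ₀
  omega

theorem OM_weight {ψ₀ : V → Option V} {Rr : ℕ} (hV : Fintype.card V = 2 * Rr) (h : OM ψ₀) :
    ∏ v, (1 - (tsz ψ₀ v : ℚ)) = (-1) ^ Rr := by
  have h1 := OM_nonr hV h
  have h3 := card_roots ψ₀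
  rw [OM_iff] at h
  have h4 : ∀ v, (1 - (tsz ψ₀ v : ℚ)) = if ψ₀ v = none then -1 else 1 := by
    intro v
    split_ifs with hv
    · rw [h.2 v hv]; norm_num
    · rw [tsz_eq_zero hv]; norm_num
  rw [Finset.prod_congr rfl (fun v _ => h4 v), Finset.prod_ite, Finset.prod_const_one, mul_one,
    Finset.prod_const]
  congr 1
  omega

end acy

section om

variable {V : Type} [Fintype V] [DecidableEq V]

open Classical in
/-- weighted number of oriented perfect matchings -/
noncomputable def omSum (M : V → V → ℚ) : ℚ :=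
  ∑ ψ₀ : V → Option V, if OM ψ₀ then ∏ v, (ψ₀ v).elim 1 (fun w => M v w) else 0

theorem prod_fw (M : V → V → ℚ) (α : ℚ) (ψ₀ : V → Option V) :
    ∏ v, fw M α v (ψ₀ v) = α ^ nonr ψ₀ * ∏ v, (ψ₀ v).elim 1 (fun w => M v w) := by
  have h1 : ∀ v, fw M α v (ψ₀ v) = (if ψ₀ v ≠ none then α else 1) *
      (ψ₀ v).elim 1 (fun w => M v w) := by
    intro v
    unfold fw
    cases ψ₀ v <;> simp
  rw [Finset.prod_congr rfl (fun v _ => h1 v), Finset.prod_mul_distrib, Finset.prod_ite,
    Finset.prod_const_one, mul_one, Finset.prod_const]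
  rfl

open Classical in
/-- extraction of the lowest coefficient -/
theorem omSum_eq (M : V → V → ℚ) (Rr : ℕ) (hV : Fintype.card V = 2 * Rr) :
    omSum M = (-1) ^ Rr * ∑ i ∈ Finset.range (Rr + 1),
      sF M ((i + 1 : ℕ) : ℚ) / ((i + 1 : ℕ) : ℚ) ^ Rr * lag Rr i (-1) := by
  -- coefficient of a forest
  set cf : (V → Option V) → ℚ := fun ψ₀ => (∏ v, (ψ₀ v).elim 1 (fun w => M v w)) *
    if Acy ψ₀ then ∏ v, (1 - (tsz ψ₀ v : ℚ)) else 0 with hcf
  have h0 : ∀ ψ₀, nonr ψ₀ < Rr → cf ψ₀ = 0 := by
    intro ψ₀ h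
    by_contra hne
    have h1 : Acy ψ₀ := by
      by_contra hA
      exact hne (by rw [hcf]; simp [hA])
    have h2 : ∏ v, (1 - (tsz ψ₀ v : ℚ)) ≠ 0 := by
      intro h3
      exact hne (by rw [hcf]; simp only [h1, if_true]; rw [h3, mul_zero])
    have := (killed hV h1 h2).1
    omega
  set q : Polynomial ℚ := ∑ ψ₀ : V → Option V, Polynomial.C (cf ψ₀) *
    Polynomial.X ^ (nonr ψ₀ - Rr) with hq
  have hqd : q.natDegree ≤ Rr := by
    apply Polynomial.natDegree_sum_le_of_forall_le
    intro ψ₀ _
    refine (Polynomial.natDegree_C_mul_X_pow_le _ _).trans ?_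
    have := card_roots ψ₀
    omega
  have hq1 : ∀ α : ℚ, sF M α = α ^ Rr * q.eval α := by
    intro α
    rw [sF, hq, Polynomial.eval_finsetSum, Finset.mul_sum]
    apply Finset.sum_congr rfl
    intro ψ₀ _
    rw [Polynomial.eval_mul, Polynomial.eval_C, Polynomial.eval_pow, Polynomial.eval_X, prod_fw,
      mul_assoc]
    change α ^ nonr ψ₀ * cf ψ₀ = _
    by_cases h : nonr ψ₀ < Rr
    · rw [h0 ψ₀ h]; ring
    · have : nonr ψ₀ = Rr + (nonr ψ₀ - Rr) := by omega
      conv_lhs => rw [this, pow_add]
      ring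
  have hq0 : q.eval 0 = (-1) ^ Rr * omSum M := by
    rw [hq, Polynomial.eval_finsetSum, omSum, Finset.mul_sum]
    apply Finset.sum_congr rfl
    intro ψ₀ _
    rw [Polynomial.eval_mul, Polynomial.eval_C, Polynomial.eval_pow, Polynomial.eval_X]
    by_cases hOM : OM ψ₀
    · have h1 := OM_nonr hV hOM
      have h2 := OM_weight hV hOM
      rw [h1, Nat.sub_self, pow_zero, mul_one, if_pos hOM, hcf]
      simp only [(OM_iff.1 hOM).1, if_true, h2]
      ring
    · rw [if_neg hOM, mul_zero]
      by_cases h : nonr ψ₀ < Rr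
      · rw [h0 ψ₀ h, zero_mul]
      · by_cases h1 : nonr ψ₀ = Rr
        · have h2 : cf ψ₀ = 0 := by
            by_contra hne
            have h1' : Acy ψ₀ := by
              by_contra hA
              exact hne (by rw [hcf]; simp [hA])
            have h2 : ∏ v, (1 - (tsz ψ₀ v : ℚ)) ≠ 0 := by
              intro h3
              exact hne (by rw [hcf]; simp only [h1', if_true]; rw [h3, mul_zero])
            exact hOM (OM_iff.2 ⟨h1', (killed hV h1' h2).2 h1⟩)
          rw [h2, zero_mul]
        · rw [zero_pow (by omega), mul_zero]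
  have h3 := lagrange_zero q Rr hqd
  rw [hq0] at h3
  have h4 : omSum M = (-1) ^ Rr * ((-1) ^ Rr * omSum M) := by
    rw [← mul_assoc, ← mul_pow]; norm_num
  rw [h4, h3]
  congr 1
  apply Finset.sum_congr rfl
  intro i _
  rw [hq1]
  have : (((i + 1 : ℕ) : ℚ)) ^ Rr ≠ 0 := by positivity
  field_simp

open Classical in
/-- extrapolation to negative entries -/
theorem omSum_sub (P Q : V → V → ℚ) (Rr : ℕ) (hV : Fintype.card V = 2 * Rr) :
    omSum (fun v w => P v w - Q v w) = ∑ t ∈ Finset.range (Rr + 1),
      omSum (fun v w => P v w + t * Q v w) * lag Rr t (-1) := by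
  set F : Polynomial ℚ := ∑ ψ₀ : V → Option V, if OM ψ₀ then ∏ v, (ψ₀ v).elim 1 (fun w =>
    Polynomial.C (P v w) + Polynomial.X * Polynomial.C (Q v w)) else 0 with hF
  have hev : ∀ t : ℚ, F.eval t = omSum (fun v w => P v w + t * Q v w) := by
    intro t
    rw [hF, Polynomial.eval_finsetSum, omSum]
    apply Finset.sum_congr rfl
    intro ψ₀ _
    split_ifs
    · rw [Polynomial.eval_prod]
      apply Finset.prod_congr rfl
      intro v _
      cases ψ₀ v with
      | none => simp
      | some w =>
        rw [Option.elim_some, Option.elim_some, Polynomial.eval_add, Polynomial.eval_mul,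
          Polynomial.eval_C, Polynomial.eval_C, Polynomial.eval_X]
    · simp
  have hdeg : F.natDegree ≤ Rr := by
    apply Polynomial.natDegree_sum_le_of_forall_le
    intro ψ₀ _
    split_ifs with hOM
    · refine (Polynomial.natDegree_prod_le _ _).trans ?_
      have h1 : ∀ v ∈ (Finset.univ : Finset V), ((ψ₀ v).elim 1 (fun w =>
          Polynomial.C (P v w) + Polynomial.X * Polynomial.C (Q v w))).natDegree ≤
          if ψ₀ v ≠ none then 1 else 0 := by
        intro v _
        cases ψ₀ v with
        | none => simp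
        | some w =>
          simp only [Option.elim_some, ne_eq, reduceCtorEq, not_false_eq_true, if_true]
          refine (Polynomial.natDegree_add_le _ _).trans ?_
          rw [Polynomial.natDegree_C]
          simp only [zero_le, sup_of_le_right]
          refine (Polynomial.natDegree_mul_C_le _ _).trans ?_
          exact Polynomial.natDegree_X_le
      refine (Finset.sum_le_sum h1).trans ?_
      rw [← Finset.card_filter]
      exact (OM_nonr hV hOM).le
    · simp
  have h := lagrange_eval F Rr hdeg (-1)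
  rw [hev] at h
  simp only [hev] at h
  rw [← h]
  congr 1
  funext v w
  ring

end om

end Pool.Agent.Hhelper69.Uni
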