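import Mathlib
import Pool.Agent.Hhelper69.Uni.Match

/-!
# Products of linear forms in signs and perfect matchings

If each variable occurs in at most three of the linear forms `L_f = ∑ₓ c f x · sₓ`, then the sum of
`∏_f L_f` over all sign vectors is a weighted count of perfect matchings of the set of forms, with
the Gram matrix of the coefficients as weights.
-/

set_option autoImplicit false
set_option linter.unusedSectionVars false

namespace Pool.Agent.Hhelper69.Uni.Sat

open Finset

/-- sign of a bit -/
def sg (b : Bool) : ℚ := bif b then 1 else -1

@[simp] theorem sg_true : sg true = 1 := rfl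
@[simp] theorem sg_false : sg false = -1 := rfl
theorem sg_sq (b : Bool) : sg b * sg b = 1 := by cases b <;> norm_num [sg]

section partner

variable {F : Type} [Fintype F] [DecidableEq F]

open Classical in
/-- the partner of an element in an oriented matching -/
noncomputable def partner (ψ : F → Option F) (v : F) : F :=
  match ψ v with
  | some w => w
  | none => if h : ∃ u, ψ u = some v then h.choose else v

theorem partner_some {ψ : F → Option F} {v w : F} (h : ψ v = some w) : partner ψ v = w := by
  simp [partner, h]

theorem partner_none {ψ : F → Option F} (hψ : OM ψ) {v : F} (h : ψ v = none) :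
    ψ (partner ψ v) = some v := by
  have hex : ∃ u, ψ u = some v := (hψ.2 v h).exists
  have : partner ψ v = hex.choose := by
    simp only [partner, h]
    rw [dif_pos hex]
  rw [this]
  exact hex.choose_spec

theorem partner_partner {ψ : F → Option F} (hψ : OM ψ) (v : F) :
    partner ψ (partner ψ v) = v := by
  cases h : ψ v with
  | none => exact partner_some (partner_none hψ h)
  | some w =>
    rw [partner_some h]
    have hw : ψ w = none := hψ.1 v w h
    have h2 := partner_none hψ hw
    exact (hψ.2 w hw).unique h2 h

theorem partner_isNone {ψ : F → Option F} (hψ : OM ψ) (v : F) :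
    ψ (partner ψ v) = none ↔ ψ v ≠ none := by
  cases h : ψ v with
  | none => simp [partner_none hψ h]
  | some w => simp [partner_some h, hψ.1 v w h]

/-- compatibility of a labelling with a matching -/
def Compat {X : Type} (ψ : F → Option F) (φ : F → X) : Prop := ∀ v w, ψ v = some w → φ v = φ w

theorem Compat.partner {X : Type} {ψ : F → Option F} {φ : F → X} (hψ : OM ψ)
    (h : Compat ψ φ) (v : F) : φ (partner ψ v) = φ v := by
  cases hv : ψ v with
  | none => exact h _ _ (partner_none hψ hv)
  | some w => rw [partner_some hv]; exact (h v w hv).symm

end partner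

section gram

variable {F X : Type} [Fintype F] [DecidableEq F] [Fintype X] [DecidableEq X]

/-- weight of a labelling -/
def wt (c : F → X → ℚ) (φ : F → X) : ℚ := ∏ f, c f (φ f)

open Classical in
theorem prod_eq_sum_compat (c : F → X → ℚ) {ψ : F → Option F} (hψ : OM ψ) :
    ∏ v, (ψ v).elim 1 (fun w => ∑ x, c v x * c w x) =
      ∑ φ : F → X, if Compat ψ φ then wt c φ else 0 := by
  have h1 : ∏ v, (ψ v).elim 1 (fun w => ∑ x, c v x * c w x) =
      ∏ v : {v // ψ v ≠ none}, ∑ x, c v x * c (partner ψ v) x := by
    rw [← Finset.prod_subtype (Finset.univ.filter fun v => ψ v ≠ none) (by simp)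
      (fun v => ∑ x, c v x * c (partner ψ v) x), Finset.prod_filter]
    apply Finset.prod_congr rfl
    intro v _
    cases h : ψ v with
    | none => simp
    | some w => simp [partner_some h]
  rw [h1, Finset.prod_univ_sum, Fintype.piFinset_univ, ← Finset.sum_filter]
  refine Finset.sum_bij' (fun g _ => fun v : F => if h : ψ v ≠ none then g ⟨v, h⟩ else
      g ⟨partner ψ v, fun h' => by
        have := (partner_isNone hψ v).mp h'
        exact h this⟩)
    (fun φ _ => fun v => φ v.1) ?_ ?_ ?_ ?_ ?_
  · intro g _
    rw [Finset.mem_filter]
    refine ⟨Finset.mem_univ _, fun v w hvw => ?_⟩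
    have hv : ψ v ≠ none := by rw [hvw]; simp
    have hw : ψ w = none := hψ.1 v w hvw
    have hp : partner ψ w = v := by
      have := partner_partner hψ v
      rwa [partner_some hvw] at this
    simp only [hv, hw, ne_eq, not_false_eq_true, not_true_eq_false, dite_true, dite_false]
    congr 1
    exact Subtype.ext hp.symm
  · intro φ _
    exact Finset.mem_univ _
  · intro g _
    funext v
    simp [v.2]
  · intro φ hφ
    rw [Finset.mem_filter] at hφ
    funext v
    by_cases h : ψ v = none
    · simp only [h, ne_eq, not_true_eq_false, dite_false]
      exact hφ.2.partner hψ v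
    · simp [h]
  · intro g _
    -- the weight
    set φ : F → X := fun v : F => if h : ψ v ≠ none then g ⟨v, h⟩ else
      g ⟨partner ψ v, fun h' => by
        have := (partner_isNone hψ v).mp h'
        exact h this⟩ with hφ
    rw [wt, ← Finset.prod_filter_mul_prod_filter_not Finset.univ (fun v => ψ v ≠ none)]
    rw [Finset.prod_mul_distrib]
    congr 1
    · rw [Finset.prod_subtype (p := fun v => ψ v ≠ none)
        (Finset.univ.filter fun v => ψ v ≠ none) (by simp) (fun v => c v (φ v))]
      apply Finset.prod_congr rfl
      intro v _
      simp [hφ, v.2]
    · symm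
      refine Finset.prod_bij' (fun v hv => ⟨partner ψ v, fun h' => by
          rw [Finset.mem_filter] at hv
          exact hv.2 ((partner_isNone hψ v).mp h')⟩) (fun v _ => partner ψ v.1) ?_ ?_ ?_ ?_ ?_
      · intro v _
        exact Finset.mem_univ _
      · intro v _
        rw [Finset.mem_filter]
        refine ⟨Finset.mem_univ _, ?_⟩
        rw [not_not]
        exact (partner_isNone hψ v.1).mpr v.2
      · intro v _
        exact partner_partner hψ v
      · intro v _
        exact Subtype.ext (partner_partner hψ v.1)
      · intro v hv
        rw [Finset.mem_filter] at hv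
        have h3 : ψ v = none := not_not.mp hv.2
        simp only [partner_partner hψ]
        congr 1
        simp [hφ, h3]

open Classical in
/-- number of matchings compatible with a labelling -/
noncomputable def nComp (φ : F → X) : ℕ :=
  (Finset.univ.filter fun ψ : F → Option F => OM ψ ∧ Compat ψ φ).card

theorem omSum_gram (c : F → X → ℚ) :
    omSum (fun f g => ∑ x, c f x * c g x) = ∑ φ : F → X, wt c φ * nComp φ := by
  classical
  have h1 : ∀ ψ : F → Option F, (if OM ψ then ∏ v, (ψ v).elim 1 (fun w => ∑ x, c v x * c w x)
      else 0) = ∑ φ : F → X, if OM ψ ∧ Compat ψ φ then wt c φ else 0 := by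
    intro ψ
    by_cases hψ : OM ψ
    · rw [if_pos hψ, prod_eq_sum_compat c hψ]
      simp [hψ]
    · simp [hψ]
  rw [omSum]
  calc _ = ∑ ψ : F → Option F, ∑ φ : F → X, if OM ψ ∧ Compat ψ φ then wt c φ else 0 := by
        apply Finset.sum_congr rfl
        intro ψ _
        rw [← h1]
    _ = ∑ φ : F → X, ∑ ψ : F → Option F, if OM ψ ∧ Compat ψ φ then wt c φ else 0 :=
        Finset.sum_comm
    _ = _ := by
        apply Finset.sum_congr rfl
        intro φ _
        rw [← Finset.sum_filter, Finset.sum_const, nsmul_eq_mul, mul_comm]
        congr 2

/-- fibres of labellings having a compatible matching are even -/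
theorem even_fibre {φ : F → X} (h : nComp φ ≠ 0) (x : X) :
    Even (Finset.univ.filter fun f => φ f = x).card := by
  classical
  rw [nComp] at h
  obtain ⟨ψ, hψ⟩ := Finset.card_ne_zero.mp h
  rw [Finset.mem_filter] at hψ
  obtain ⟨-, hψ, hc⟩ := hψ
  have h1 : (Finset.univ.filter fun f => φ f = x).card =
      ((Finset.univ.filter fun f => φ f = x).filter fun f => ψ f ≠ none).card +
      ((Finset.univ.filter fun f => φ f = x).filter fun f => ¬ (ψ f ≠ none)).card :=
    (Finset.card_filter_add_card_filter_not _).symm
  have h2 : ((Finset.univ.filter fun f => φ f = x).filter fun f => ψ f ≠ none).card =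
      ((Finset.univ.filter fun f => φ f = x).filter fun f => ¬ (ψ f ≠ none)).card := by
    apply Finset.card_bij' (fun v _ => partner ψ v) (fun v _ => partner ψ v)
    · intro v hv
      simp only [Finset.mem_filter, Finset.mem_univ, true_and] at hv ⊢
      rw [not_not]
      exact ⟨by rw [hc.partner hψ]; exact hv.1, (partner_isNone hψ v).mpr hv.2⟩
    · intro v hv
      simp only [Finset.mem_filter, Finset.mem_univ, true_and] at hv ⊢
      refine ⟨by rw [hc.partner hψ]; exact hv.1, fun h' => ?_⟩
      exact hv.2 ((partner_isNone hψ v).mp h')
    · intro v _
      exact partner_partner hψ v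
    · intro v _
      exact partner_partner hψ v
  rw [h1, h2]
  exact ⟨_, rfl⟩

/-- number of matchings compatible with a labelling all of whose fibres have 0 or 2 elements -/
theorem nComp_eq {R : ℕ} (hF : Fintype.card F = 2 * R) {φ : F → X}
    (h : ∀ x, (Finset.univ.filter fun f => φ f = x).card = 0 ∨
      (Finset.univ.filter fun f => φ f = x).card = 2) : nComp φ = 2 ^ R := by
  classical
  let Im := {x : X // (Finset.univ.filter fun f => φ f = x).card = 2}
  have hcard : Fintype.card Im = R := by
    have h1 : Fintype.card F = ∑ x : X, (Finset.univ.filter fun f => φ f = x).card := by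
      rw [← Finset.card_univ]
      exact Finset.card_eq_sum_card_fiberwise (fun f _ => Finset.mem_univ (φ f))
    have h2 : ∀ x : X, (Finset.univ.filter fun f => φ f = x).card =
        if (Finset.univ.filter fun f => φ f = x).card = 2 then 2 else 0 := by
      intro x
      rcases h x with h3 | h3 <;> simp [h3]
    rw [Finset.sum_congr rfl (fun x _ => h2 x), ← Finset.sum_filter, Finset.sum_const,
      smul_eq_mul, hF] at h1
    have h4 : Fintype.card Im =
        (Finset.univ.filter fun x : X => (Finset.univ.filter fun f => φ f = x).card = 2).card :=
      Fintype.card_subtype _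
    omega
  -- the two elements of a fibre
  have hpair : ∀ x : Im, ∃ p : F × F, p.1 ≠ p.2 ∧
      (Finset.univ.filter fun f => φ f = x.1) = {p.1, p.2} := by
    intro x
    obtain ⟨a, b, hab, he⟩ := Finset.card_eq_two.mp x.2
    exact ⟨(a, b), hab, he⟩
  choose p hp1 hp2 using hpair
  have hmem : ∀ (x : Im) (f : F), φ f = x.1 ↔ f = (p x).1 ∨ f = (p x).2 := by
    intro x f
    have := congrArg (fun s => f ∈ s) (hp2 x)
    simpa using this
  have hφ1 : ∀ x, φ (p x).1 = x.1 := fun x => (hmem x _).mpr (Or.inl rfl)
  have hφ2 : ∀ x, φ (p x).2 = x.1 := fun x => (hmem x _).mpr (Or.inr rfl)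
  have him : ∀ f : F, (Finset.univ.filter fun f' => φ f' = φ f).card = 2 := by
    intro f
    rcases h (φ f) with h3 | h3
    · exfalso
      rw [Finset.card_eq_zero, Finset.filter_eq_empty_iff] at h3
      exact h3 (Finset.mem_univ f) rfl
    · exact h3
  let ix : F → Im := fun f => ⟨φ f, him f⟩
  have hix : ∀ (x : Im) (f : F), φ f = x.1 → ix f = x := fun x f hf => Subtype.ext hf
  -- orientations
  let ori : (Im → Bool) → (F → Option F) := fun β f =>
    if β (ix f) then (if f = (p (ix f)).1 then some (p (ix f)).2 else none)
    else (if f = (p (ix f)).2 then some (p (ix f)).1 else none)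
  have ho1 : ∀ β x, ori β (p x).1 = if β x then some (p x).2 else none := by
    intro β x
    have : ix (p x).1 = x := hix x _ (hφ1 x)
    simp only [ori, this]
    simp [hp1 x]
  have ho2 : ∀ β x, ori β (p x).2 = if β x then none else some (p x).1 := by
    intro β x
    have : ix (p x).2 = x := hix x _ (hφ2 x)
    simp only [ori, this]
    simp [(hp1 x).symm]
  have hcases : ∀ f : F, f = (p (ix f)).1 ∨ f = (p (ix f)).2 := fun f => (hmem (ix f) f).mp rfl
  have hinj : Function.Injective ori := by
    intro β β' hββ
    funext x
    have := congrFun hββ (p x).1
    rw [ho1, ho1] at this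
    cases hb : β x <;> cases hb' : β' x <;> simp [hb, hb'] at this ⊢
  have himg : (Finset.univ.filter fun ψ : F → Option F => OM ψ ∧ Compat ψ φ) =
      Finset.univ.image ori := by
    ext ψ
    simp only [Finset.mem_filter, Finset.mem_univ, true_and, Finset.mem_image]
    constructor
    · rintro ⟨hψ, hc⟩
      refine ⟨fun x => (ψ (p x).1).isSome, ?_⟩
      -- values of ψ
      have hv1 : ∀ x w, ψ (p x).1 = some w → w = (p x).2 := by
        intro x w hw
        have h1 : φ w = x.1 := by rw [← hc _ _ hw, hφ1]
        rcases (hmem x w).mp h1 with h2 | h2
        · exfalso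
          have := hψ.1 _ _ hw
          rw [h2, ← h2, h2] at this
          rw [this] at hw
          simp at hw
        · exact h2
      have hv2 : ∀ x w, ψ (p x).2 = some w → w = (p x).1 := by
        intro x w hw
        have h1 : φ w = x.1 := by rw [← hc _ _ hw, hφ2]
        rcases (hmem x w).mp h1 with h2 | h2
        · exact h2
        · exfalso
          have := hψ.1 _ _ hw
          rw [h2] at this
          rw [this] at hw
          simp at hw
      funext f
      rcases hcases f with hf | hf
      · set x := ix f
        rw [hf]
        rw [ho1 (fun x => (ψ (p x).1).isSome) x]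
        cases hx : ψ (p x).1 with
        | none => simp
        | some w => simp [hv1 x w hx]
      · set x := ix f
        rw [hf]
        rw [ho2 (fun x => (ψ (p x).1).isSome) x]
        cases hx : ψ (p x).1 with
        | none =>
          simp only [Option.isSome_none, Bool.false_eq_true, if_false]
          have h1 := partner_none hψ hx
          have h2 : φ (partner ψ (p x).1) = x.1 := by rw [hc.partner hψ, hφ1]
          rcases (hmem x _).mp h2 with h3 | h3
          · rw [h3, hx] at h1; simp at h1
          · rw [h3] at h1; exact h1.symm
        | some w =>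
          simp only [Option.isSome_some, if_true]
          have h1 := hv1 x w hx
          rw [← h1]
          exact (hψ.1 _ _ hx).symm
    · rintro ⟨β, rfl⟩
      refine ⟨⟨?_, ?_⟩, ?_⟩
      · intro v w hvw
        rcases hcases v with hv | hv
        · set x := ix v
          rw [hv, ho1] at hvw
          cases hb : β x
          · simp [hb] at hvw
          · simp only [hb, if_true, Option.some.injEq] at hvw
            rw [← hvw, ho2]
            simp [hb]
        · set x := ix v
          rw [hv, ho2] at hvw
          cases hb : β x
          · simp only [hb, Bool.false_eq_true, if_false, Option.some.injEq] at hvw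
            rw [← hvw, ho1]
            simp [hb]
          · simp [hb] at hvw
      · intro w hw
        rcases hcases w with hw' | hw'
        · set x := ix w
          rw [hw', ho1] at hw
          have hb : β x = false := by
            cases hb : β x
            · rfl
            · simp [hb] at hw
          refine ⟨(p x).2, ?_, ?_⟩
          · simp only
            rw [ho2, hw']
            simp [hb]
          · intro v hv
            rcases hcases v with hv' | hv'
            · rw [hv', ho1] at hv
              have h5 : (p (ix v)).2 = w := by
                cases hb' : β (ix v)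
                · simp [hb'] at hv
                · simpa [hb'] using hv
              have h6 : ix v = x := by
                have : φ w = (ix v).1 := by rw [← h5, hφ2]
                exact (hix _ _ this).symm
              rw [h6] at hv
              simp [hb] at hv
            · rw [hv', ho2] at hv
              have h5 : (p (ix v)).1 = w := by
                cases hb' : β (ix v)
                · simpa [hb'] using hv
                · simp [hb'] at hv
              have h6 : ix v = x := by
                have : φ w = (ix v).1 := by rw [← h5, hφ1]
                exact (hix _ _ this).symm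
              rw [hv', h6]
        · set x := ix w
          rw [hw', ho2] at hw
          have hb : β x = true := by
            cases hb : β x
            · simp [hb] at hw
            · rfl
          refine ⟨(p x).1, ?_, ?_⟩
          · simp only
            rw [ho1, hw']
            simp [hb]
          · intro v hv
            rcases hcases v with hv' | hv'
            · rw [hv', ho1] at hv
              have h5 : (p (ix v)).2 = w := by
                cases hb' : β (ix v)
                · simp [hb'] at hv
                · simpa [hb'] using hv
              have h6 : ix v = x := by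
                have : φ w = (ix v).1 := by rw [← h5, hφ2]
                exact (hix _ _ this).symm
              rw [hv', h6]
            · rw [hv', ho2] at hv
              have h5 : (p (ix v)).1 = w := by
                cases hb' : β (ix v)
                · simpa [hb'] using hv
                · simp [hb'] at hv
              have h6 : ix v = x := by
                have : φ w = (ix v).1 := by rw [← h5, hφ1]
                exact (hix _ _ this).symm
              rw [h6] at hv
              simp [hb] at hv
      · intro v w hvw
        rcases hcases v with hv | hv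
        · set x := ix v
          rw [hv, ho1] at hvw
          cases hb : β x
          · simp [hb] at hvw
          · simp only [hb, if_true, Option.some.injEq] at hvw
            rw [← hvw, hφ2]
        · set x := ix v
          rw [hv, ho2] at hvw
          cases hb : β x
          · simp only [hb, Bool.false_eq_true, if_false, Option.some.injEq] at hvw
            rw [← hvw, hφ1]
          · simp [hb] at hvw
  rw [nComp, himg, Finset.card_image_of_injective _ hinj, Finset.card_univ, Fintype.card_fun,
    Fintype.card_bool, hcard]

/-- sum over signs -/
theorem sum_signs (φ : F → X) :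
    ∑ z : X → Bool, ∏ f, sg (z (φ f)) =
      ∏ x : X, (1 + (-1 : ℚ) ^ (Finset.univ.filter fun f => φ f = x).card) := by
  have h1 : ∀ z : X → Bool, ∏ f, sg (z (φ f)) =
      ∏ x, sg (z x) ^ (Finset.univ.filter fun f => φ f = x).card := by
    intro z
    rw [← Finset.prod_fiberwise (Finset.univ : Finset F) φ]
    apply Finset.prod_congr rfl
    intro x _
    rw [← Finset.prod_const]
    apply Finset.prod_congr rfl
    intro f hf
    rw [(Finset.mem_filter.mp hf).2]
  rw [Finset.sum_congr rfl (fun z _ => h1 z)]
  have h2 := Finset.prod_univ_sum (fun _ : X => (Finset.univ : Finset Bool))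
    (fun x b => sg b ^ (Finset.univ.filter fun f => φ f = x).card)
  rw [Fintype.piFinset_univ] at h2
  rw [← h2]
  apply Finset.prod_congr rfl
  intro x _
  simp

/-- **Gram lemma.** -/
theorem gram_lemma {R : ℕ} (hF : Fintype.card F = 2 * R) (c : F → X → ℚ)
    (h3 : ∀ x, (Finset.univ.filter fun f => c f x ≠ 0).card ≤ 3) :
    ∑ z : X → Bool, ∏ f, (∑ x, c f x * sg (z x)) =
      2 ^ Fintype.card X / 2 ^ R * omSum (fun f g => ∑ x, c f x * c g x) := by
  classical
  rw [omSum_gram]
  have h1 : ∀ z : X → Bool, ∏ f, (∑ x, c f x * sg (z x)) =
      ∑ φ : F → X, wt c φ * ∏ f, sg (z (φ f)) := by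
    intro z
    rw [Finset.prod_univ_sum, Fintype.piFinset_univ]
    apply Finset.sum_congr rfl
    intro φ _
    rw [Finset.prod_mul_distrib, wt]
  rw [Finset.sum_congr rfl (fun z _ => h1 z), Finset.sum_comm, Finset.mul_sum]
  apply Finset.sum_congr rfl
  intro φ _
  rw [← Finset.mul_sum, sum_signs]
  by_cases hw : wt c φ = 0
  · rw [hw]; ring
  -- the fibres have at most three elements
  have hle : ∀ x, (Finset.univ.filter fun f => φ f = x).card ≤ 3 := by
    intro x
    refine le_trans (Finset.card_le_card ?_) (h3 x)
    intro f hf
    rw [Finset.mem_filter] at hf ⊢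
    refine ⟨Finset.mem_univ _, fun h0 => hw ?_⟩
    rw [wt]
    apply Finset.prod_eq_zero (Finset.mem_univ f)
    rw [hf.2, h0]
  by_cases hall : ∀ x, Even (Finset.univ.filter fun f => φ f = x).card
  · have h02 : ∀ x, (Finset.univ.filter fun f => φ f = x).card = 0 ∨
        (Finset.univ.filter fun f => φ f = x).card = 2 := by
      intro x
      obtain ⟨m, hm⟩ := hall x
      have := hle x
      omega
    rw [nComp_eq hF h02]
    have h4 : ∀ x : X, (1 + (-1 : ℚ) ^ (Finset.univ.filter fun f => φ f = x).card) = 2 := by
      intro x
      rw [(hall x).neg_one_pow]
      norm_num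
    rw [Finset.prod_congr rfl (fun x _ => h4 x), Finset.prod_const, Finset.card_univ]
    push_cast
    field_simp
  · push Not at hall
    obtain ⟨x, hx⟩ := hall
    have h5 : nComp φ = 0 := by
      by_contra h6
      exact (Nat.not_even_iff_odd.mpr (Nat.not_even_iff_odd.mp (by simpa using hx)))
        (even_fibre h6 x)
    have h6 : ∏ x : X, (1 + (-1 : ℚ) ^ (Finset.univ.filter fun f => φ f = x).card) = 0 := by
      apply Finset.prod_eq_zero (Finset.mem_univ x)
      rw [Odd.neg_one_pow (by simpa using hx)]
      norm_num
    rw [h5, h6]
    simp

end gram

end Pool.Agent.Hhelper69.Uni.Sat
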