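import Mathlib
import Pool.Agent.Hhelper69.Uni.Gram

/-!
# Making all variables occur at most three times
-/

set_option autoImplicit false
set_option linter.unusedSectionVars false

namespace Pool.Agent.Hhelper69.Uni.Sat

open Finset

theorem omSum_congr {V : Type} [Fintype V] [DecidableEq V] {M N : V → V → ℚ}
    (h : ∀ v w, v ≠ w → M v w = N v w) : omSum M = omSum N := by
  classical
  rw [omSum, omSum]
  apply Finset.sum_congr rfl
  intro ψ _
  by_cases hψ : OM ψ
  · rw [if_pos hψ, if_pos hψ]
    apply Finset.prod_congr rfl
    intro v _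
    cases hv : ψ v with
    | none => rfl
    | some w =>
      have hne : v ≠ w := by
        rintro rfl
        rw [hψ.1 v v hv] at hv
        simp at hv
      simp only [Option.elim_some]
      exact h v w hne
  · rw [if_neg hψ, if_neg hψ]

theorem omSum_equiv {V W : Type} [Fintype V] [DecidableEq V] [Fintype W] [DecidableEq W]
    (e : V ≃ W) (M : W → W → ℚ) : omSum (fun v w => M (e v) (e w)) = omSum M := by
  classical
  rw [omSum, omSum]
  -- transport of partial functions
  let E : (V → Option V) ≃ (W → Option W) :=
    e.arrowCongr (Equiv.optionCongr e)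
  have hE : ∀ ψ w, E ψ w = (ψ (e.symm w)).map e := fun ψ w => rfl
  refine Fintype.sum_equiv E _ _ fun ψ => ?_
  have hOM : OM (E ψ) ↔ OM ψ := by
    constructor
    · rintro ⟨h1, h2⟩
      refine ⟨fun v w hvw => ?_, fun w hw => ?_⟩
      · have := h1 (e v) (e w) (by rw [hE]; simp [hvw])
        rw [hE] at this
        simpa using this
      · obtain ⟨v, hv, hu⟩ := h2 (e w) (by rw [hE]; simp [hw])
        simp only [hE, Option.map_eq_some_iff] at hv hu
        obtain ⟨w', hw', he⟩ := hv
        refine ⟨e.symm v, ?_, fun u hu' => ?_⟩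
        · simp only
          rw [hw', e.injective he]
        · have := hu (e u) ⟨w, by simpa using hu', rfl⟩
          rw [← this]; simp
    · rintro ⟨h1, h2⟩
      refine ⟨fun v w hvw => ?_, fun w hw => ?_⟩
      · rw [hE, Option.map_eq_some_iff] at hvw
        obtain ⟨w', hw', rfl⟩ := hvw
        rw [hE]
        simp [h1 _ _ hw']
      · rw [hE, Option.map_eq_none_iff] at hw
        obtain ⟨v, hv, hu⟩ := h2 _ hw
        refine ⟨e v, ?_, fun u hu' => ?_⟩
        · simp only [hE]
          simp [hv]
        · simp only [hE, Option.map_eq_some_iff] at hu'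
          obtain ⟨w', hw', rfl⟩ := hu'
          have := hu (e.symm u) (by simpa using hw')
          rw [← this]; simp
  by_cases h : OM ψ
  · rw [if_pos h, if_pos (hOM.mpr h)]
    refine Fintype.prod_equiv e _ _ fun v => ?_
    rw [hE]
    simp only [Equiv.symm_apply_apply]
    cases ψ v <;> rfl
  · rw [if_neg h, if_neg (fun h' => h (hOM.mp h'))]

section

variable {m J : ℕ} (C : Fin J → Fin m → ℚ)

/-- the forms: the original ones, and the chain forms -/
abbrev FT (m J : ℕ) : Type := Fin J ⊕ (Fin m × Fin J)

/-- the variables: `J + 1` copies of each original one -/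
abbrev XT (m J : ℕ) : Type := Fin m × Fin (J + 1)

/-- coefficients of the forms with copies -/
def cc : FT m J → XT m J → ℚ
  | .inl j, x => if x.2 = j.castSucc then C j x.1 else 0
  | .inr p, x => if x.1 = p.1 ∧ (x.2 = p.2.castSucc ∨ x.2 = p.2.succ) then 1 else 0

theorem val_inl (z : XT m J → Bool) (j : Fin J) :
    ∑ x, cc C (.inl j) x * sg (z x) = ∑ v, C j v * sg (z (v, j.castSucc)) := by
  simp only [cc]
  rw [Fintype.sum_prod_type]
  apply Finset.sum_congr rfl
  intro v _
  simp

theorem val_inr (z : XT m J → Bool) (v : Fin m) (t : Fin J) :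
    ∑ x, cc C (.inr (v, t)) x * sg (z x) = sg (z (v, t.castSucc)) + sg (z (v, t.succ)) := by
  simp only [cc]
  rw [Fintype.sum_prod_type, Finset.sum_eq_single v]
  · have hne : t.castSucc ≠ t.succ := (Fin.castSucc_lt_succ).ne
    have : ∀ x : Fin (J + 1), (if v = v ∧ (x = t.castSucc ∨ x = t.succ) then (1 : ℚ) else 0) *
        sg (z (v, x)) = (if x = t.castSucc then sg (z (v, x)) else 0) +
          (if x = t.succ then sg (z (v, x)) else 0) := by
      intro x
      by_cases h1 : x = t.castSucc
      · subst h1
        simp [hne]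
      · by_cases h2 : x = t.succ
        · subst h2
          simp [hne.symm]
        · simp [h1, h2]
    rw [Finset.sum_congr rfl (fun x _ => this x), Finset.sum_add_distrib]
    simp
  · intro v' _ hv'
    simp [hv']
  · simp

theorem sum_copies (hJ : Even J) :
    ∑ z : XT m J → Bool, ∏ f, (∑ x, cc C f x * sg (z x)) =
      2 ^ (m * J) * ∑ y : Fin m → Bool, ∏ j, (∑ v, C j v * sg (y v)) := by
  rw [Finset.mul_sum]
  symm
  apply Fintype.sum_of_injective (fun (y : Fin m → Bool) (x : XT m J) => y x.1)
  · intro y y' h
    funext v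
    exact congrFun h (v, 0)
  · intro z hz
    rw [Fintype.prod_sum_type]
    -- some copies differ
    have h1 : ∃ v : Fin m, ∃ t : Fin J, z (v, t.castSucc) ≠ z (v, t.succ) := by
      by_contra hcon
      push Not at hcon
      apply hz
      refine ⟨fun v => z (v, 0), ?_⟩
      funext x
      obtain ⟨v, t⟩ := x
      simp only
      induction t using Fin.induction with
      | zero => rfl
      | succ t ih => rw [ih, hcon]
    obtain ⟨v, t, hvt⟩ := h1
    have h2 : ∏ p : Fin m × Fin J, (∑ x, cc C (.inr p) x * sg (z x)) = 0 := by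
      apply Finset.prod_eq_zero (Finset.mem_univ (v, t))
      rw [val_inr]
      cases h3 : z (v, t.castSucc) <;> cases h4 : z (v, t.succ) <;> simp_all
    rw [h2, mul_zero]
  · intro y
    rw [Fintype.prod_sum_type, mul_comm]
    congr 1
    · apply Finset.prod_congr rfl
      intro j _
      rw [val_inl]
    · rw [Fintype.prod_prod_type]
      have h1 : ∀ v : Fin m, ∏ t : Fin J, (∑ x, cc C (.inr (v, t)) x * sg (y x.1)) = 2 ^ J := by
        intro v
        have h2 : ∀ t : Fin J, (∑ x, cc C (.inr (v, t)) x * sg (y x.1)) = 2 * sg (y v) := by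
          intro t
          rw [val_inr C (fun x => y x.1)]
          ring
        rw [Finset.prod_congr rfl (fun t _ => h2 t), Finset.prod_const, Finset.card_univ,
          Fintype.card_fin, mul_pow]
        obtain ⟨k, hk⟩ := hJ
        have : sg (y v) ^ J = 1 := by
          rw [hk, pow_add, ← mul_pow, sg_sq, one_pow]
        rw [this, mul_one]
      rw [Finset.prod_congr rfl (fun v _ => h1 v), Finset.prod_const, Finset.card_univ,
        Fintype.card_fin, ← pow_mul, mul_comm]

theorem card_le_three (x : XT m J) :
    (Finset.univ.filter fun f => cc C f x ≠ 0).card ≤ 3 := by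
  classical
  obtain ⟨v, t⟩ := x
  have hsub : (Finset.univ.filter fun f => cc C f (v, t) ≠ 0) ⊆
      ((if h : (t : ℕ) < J then {(.inl ⟨t, h⟩ : FT m J)} else ∅) ∪
      (if h : (t : ℕ) < J then {(.inr (v, ⟨t, h⟩) : FT m J)} else ∅)) ∪
      (if h : 0 < (t : ℕ) then {(.inr (v, ⟨t - 1, by omega⟩) : FT m J)} else ∅) := by
    intro f hf
    rw [Finset.mem_filter] at hf
    rcases f with j | ⟨v', t'⟩
    · have h1 : t = j.castSucc := by
        by_contra h
        exact hf.2 (by simp [cc, h])
      have h2 : (t : ℕ) < J := by rw [h1]; exact j.2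
      have h3 : (⟨t, h2⟩ : Fin J) = j := Fin.ext (by simpa using congrArg Fin.val h1)
      simp [h2, h3]
    · have h1 : v = v' ∧ (t = t'.castSucc ∨ t = t'.succ) := by
        by_contra h
        exact hf.2 (by simp only [cc]; rw [if_neg h])
      obtain ⟨rfl, rfl | rfl⟩ := h1
      · simp
      · simp
  refine (Finset.card_le_card hsub).trans ?_
  refine (Finset.card_union_le _ _).trans ?_
  have h1 : ∀ (p : Prop) [Decidable p] (a : p → FT m J),
      (if h : p then ({a h} : Finset (FT m J)) else ∅).card ≤ 1 := by
    intro p _ a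
    by_cases h : p <;> simp [h]
  have h2 := Finset.card_union_le
    (if h : (t : ℕ) < J then {(.inl ⟨t, h⟩ : FT m J)} else ∅)
    (if h : (t : ℕ) < J then {(.inr (v, ⟨t, h⟩) : FT m J)} else ∅)
  have h3 := h1 ((t : ℕ) < J) (fun h => .inl ⟨t, h⟩)
  have h4 := h1 ((t : ℕ) < J) (fun h => .inr (v, ⟨t, h⟩))
  have h5 := h1 (0 < (t : ℕ)) (fun h => .inr (v, ⟨t - 1, by omega⟩))
  omega

/-- the off-diagonal part of the Gram matrix -/
def GM : FT m J → FT m J → ℚ
  | .inl _, .inl _ => 0
  | .inl j, .inr p => C j p.1 * ((if (p.2 : ℕ) = j then 1 else 0) +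
      (if (p.2 : ℕ) + 1 = j then 1 else 0))
  | .inr p, .inl j => C j p.1 * ((if (p.2 : ℕ) = j then 1 else 0) +
      (if (p.2 : ℕ) + 1 = j then 1 else 0))
  | .inr p, .inr q => if p.1 = q.1 ∧ ((p.2 : ℕ) + 1 = q.2 ∨ (q.2 : ℕ) + 1 = p.2) then 1 else 0

theorem gram_inl_inr (j : Fin J) (v : Fin m) (t : Fin J) :
    ∑ x, cc C (.inl j) x * cc C (.inr (v, t)) x = GM C (.inl j) (.inr (v, t)) := by
  simp only [cc, GM]
  rw [Fintype.sum_prod_type, Finset.sum_eq_single v]
  · rw [Finset.sum_eq_single j.castSucc]
    · simp only [if_true, true_and]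
      congr 1
      have h1 : (j.castSucc = t.castSucc) ↔ ((t : ℕ) = j) := by
        rw [Fin.ext_iff]; simp [eq_comm]
      have h2 : (j.castSucc = t.succ) ↔ ((t : ℕ) + 1 = j) := by
        rw [Fin.ext_iff]; simp [eq_comm]
      simp only [h1, h2]
      by_cases h3 : (t : ℕ) = j
      · have : ¬ ((t : ℕ) + 1 = j) := by omega
        simp [h3]
      · simp [h3]
    · intro x _ hx
      simp [hx]
    · simp
  · intro v' _ hv'
    apply Finset.sum_eq_zero
    intro x _
    simp [hv']
  · simp

theorem gram_eq {f g : FT m J} (h : f ≠ g) : ∑ x, cc C f x * cc C g x = GM C f g := by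
  rcases f with j | ⟨v, t⟩ <;> rcases g with j' | ⟨v', t'⟩
  · simp only [cc, GM]
    apply Finset.sum_eq_zero
    intro x _
    by_cases h1 : x.2 = j.castSucc
    · have h2 : ¬ (x.2 = j'.castSucc) := by
        intro h2
        apply h
        rw [h1] at h2
        rw [Fin.castSucc_injective _ h2]
      simp [h2]
    · simp [h1]
  · exact gram_inl_inr C j v' t'
  · rw [Finset.sum_congr rfl (fun x _ => mul_comm _ _), gram_inl_inr C j' v t]
    rfl
  · simp only [cc, GM]
    by_cases hv : v = v'
    · subst hv
      have htt : t ≠ t' := by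
        rintro rfl
        exact h rfl
      have htt' : (t : ℕ) ≠ t' := fun h => htt (Fin.ext h)
      rw [Fintype.sum_prod_type, Finset.sum_eq_single v]
      · simp only [true_and]
        by_cases h1 : (t : ℕ) + 1 = t'
        · rw [Finset.sum_eq_single t.succ]
          · have h2 : t.succ = t'.castSucc := by rw [Fin.ext_iff]; simpa using h1
            rw [if_pos (Or.inr rfl), if_pos (Or.inl h2), if_pos (Or.inl h1)]
            norm_num
          · intro x _ hx
            by_cases h3 : x = t.castSucc
            · rw [if_neg (show ¬ (x = t'.castSucc ∨ x = t'.succ) from ?_), mul_zero]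
              rintro (h4 | h4)
              · rw [h3, Fin.ext_iff] at h4
                simp at h4
                omega
              · rw [h3, Fin.ext_iff] at h4
                simp at h4
                omega
            · rw [if_neg (show ¬ (x = t.castSucc ∨ x = t.succ) from ?_), zero_mul]
              rintro (h4 | h4)
              · exact h3 h4
              · exact hx h4
          · simp
        · by_cases h2 : (t' : ℕ) + 1 = t
          · rw [Finset.sum_eq_single t'.succ]
            · have h3 : t'.succ = t.castSucc := by rw [Fin.ext_iff]; simpa using h2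
              rw [if_pos (Or.inl h3), if_pos (Or.inr rfl), if_pos (Or.inr h2)]
              norm_num
            · intro x _ hx
              by_cases h3 : x = t'.castSucc
              · rw [if_neg (show ¬ (x = t.castSucc ∨ x = t.succ) from ?_), zero_mul]
                rintro (h4 | h4)
                · rw [h3, Fin.ext_iff] at h4
                  simp at h4
                  omega
                · rw [h3, Fin.ext_iff] at h4
                  simp at h4
                  omega
              · rw [if_neg (show ¬ (x = t'.castSucc ∨ x = t'.succ) from ?_), mul_zero]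
                rintro (h4 | h4)
                · exact h3 h4
                · exact hx h4
            · simp
          · rw [if_neg (by tauto)]
            apply Finset.sum_eq_zero
            intro x _
            by_cases h3 : x = t.castSucc ∨ x = t.succ
            · rw [if_neg (show ¬ (x = t'.castSucc ∨ x = t'.succ) from ?_), mul_zero]
              rcases h3 with rfl | rfl
              · rintro (h4 | h4) <;> rw [Fin.ext_iff] at h4 <;> simp at h4 <;> omega
              · rintro (h4 | h4) <;> rw [Fin.ext_iff] at h4 <;> simp at h4 <;> omega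
            · rw [if_neg h3, zero_mul]
      · intro v'' _ hv''
        apply Finset.sum_eq_zero
        intro x _
        simp [hv'']
      · simp
    · rw [if_neg (by tauto)]
      apply Finset.sum_eq_zero
      intro x _
      by_cases h1 : x.1 = v
      · rw [if_neg (show ¬ (x.1 = v' ∧ (x.2 = t'.castSucc ∨ x.2 = t'.succ)) from ?_), mul_zero]
        rintro ⟨h2, -⟩
        exact hv (h1.symm.trans h2)
      · rw [if_neg (show ¬ (x.1 = v ∧ (x.2 = t.castSucc ∨ x.2 = t.succ)) from ?_), zero_mul]
        rintro ⟨h2, -⟩
        exact h1 h2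

/-- Sum over signs of a product of linear forms, as a count of matchings. -/
theorem sum_forms_eq {R : ℕ} (hJ : Even J) (hR : J + m * J = 2 * R) :
    2 ^ R * (2 ^ (m * J) * ∑ y : Fin m → Bool, ∏ j, (∑ v, C j v * sg (y v))) =
      2 ^ (m * (J + 1)) * omSum (GM C) := by
  have hF : Fintype.card (FT m J) = 2 * R := by
    rw [Fintype.card_sum, Fintype.card_prod, Fintype.card_fin, Fintype.card_fin, hR]
  have h1 := gram_lemma hF (cc C) (card_le_three C)
  rw [sum_copies C hJ] at h1
  rw [h1, Fintype.card_prod, Fintype.card_fin, Fintype.card_fin,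
    omSum_congr (fun f g hfg => gram_eq C hfg)]
  field_simp

end

end Pool.Agent.Hhelper69.Uni.Sat
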