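import Mathlib

/-!
# Definitions for the hardness of counting spanning connected unicyclic subgraphs
-/

namespace Pool.Agent.Hhelper69.Uni

/-- A multigraph on the vertices `0, …, n - 1`, given by the list of its edges; every edge is given
by its two ends, and parallel edges are repeated in the list. -/
structure MGraph where
  n : ℕ
  edges : List (ℕ × ℕ)

namespace MGraph

/-- the ends of every edge are two distinct vertices (no loops) -/
def Valid (G : MGraph) : Prop := ∀ e ∈ G.edges, e.1 < G.n ∧ e.2 < G.n ∧ e.1 ≠ e.2

/-- The simple graph on the vertices of `G` in which two vertices are adjacent when they are joined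
by an edge in `A`; here `A` is a set of (positions of) edges of `G`. -/
def span (G : MGraph) (A : Finset (Fin G.edges.length)) : SimpleGraph (Fin G.n) :=
  SimpleGraph.fromRel fun u v => ∃ i ∈ A, G.edges.get i = ((u : ℕ), (v : ℕ))

/-- `G` is connected -/
def Connected (G : MGraph) : Prop := (G.span Finset.univ).Connected

/-- The number of spanning connected unicyclic subgraphs of `G`: the number of sets `A` of edges with
`|A| = n` which connect all the vertices. -/
noncomputable def unicyclic (G : MGraph) : ℕ :=
  Nat.card {A : Finset (Fin G.edges.length) // A.card = G.n ∧ (G.span A).Connected}

end MGraph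

/-- the pair of two strings: every bit of `x` doubled, then `01`, then `y` -/
def pairing (x y : List Bool) : List Bool := x.flatMap (fun b => [b, b]) ++ [false, true] ++ y

/-- a number in unary, `1ⁿ0` -/
def encUnary (n : ℕ) : List Bool := List.replicate n true ++ [false]

/-- encoding of a multigraph: number of vertices, then the edges, each preceded by `1`, then `0` -/
def encGraph (G : MGraph) : List Bool :=
  encUnary G.n ++ G.edges.flatMap (fun e => true :: (encUnary e.1 ++ encUnary e.2)) ++ [false]

/-- encoding of a list of multigraphs (concatenation of the self-delimiting encodings) -/
def encGraphs (Gs : List MGraph) : List Bool := Gs.flatMap encGraph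

/-- encoding of a list of natural numbers in binary: every digit is preceded by `1` (least
significant digit first), and every number is followed by `0` -/
def encNats (ns : List ℕ) : List Bool :=
  ns.flatMap fun n => (Nat.bits n).flatMap (fun b => [true, b]) ++ [false]

/-- functions on binary strings computed by a Turing machine (Mathlib's `TM2` model) in
polynomial time -/
def FP (g : List Bool → List Bool) : Prop :=
  Nonempty (Turing.TM2ComputableInPolyTime (fun x : List Bool => x) (fun x : List Bool => x) g)

/-- Valiant's class of counting functions: `f x` is the number of witnesses `y` of length `p(|x|)`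
which a polynomial-time Turing machine accepts together with `x`. -/
def SharpP (f : List Bool → ℕ) : Prop :=
  ∃ (p : Polynomial ℕ) (V : List Bool → Bool),
    Nonempty (Turing.TM2ComputableInPolyTime (fun x : List Bool => x) (fun b : Bool => [b]) V) ∧
    ∀ x, f x = Nat.card {y : Fin (p.eval x.length) → Bool // V (pairing x (List.ofFn y)) = true}

end Pool.Agent.Hhelper69.Uni
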