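import Mathlib
import Pool.Agent.Hhelper69.Uni.Match
import Pool.Agent.Hhelper69.Uni.Defs

/-!
# Multigraphs given by lists of edges
-/

namespace Pool.Agent.Hhelper69.Uni

open Finset

set_option linter.unusedSectionVars false

namespace MGraph

/-- ends of the edges of a valid graph as elements of `Fin n` -/
def ends (G : MGraph) (hG : G.Valid) (i : Fin G.edges.length) : Fin G.n × Fin G.n :=
  (⟨(G.edges.get i).1, (hG _ (List.get_mem _ _)).1⟩,
    ⟨(G.edges.get i).2, (hG _ (List.get_mem _ _)).2.1⟩)

theorem ends_ne (G : MGraph) (hG : G.Valid) (i : Fin G.edges.length) :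
    (G.ends hG i).1 ≠ (G.ends hG i).2 := by
  intro h
  exact (hG _ (List.get_mem _ i)).2.2 (congrArg Fin.val h)

theorem ends_eq_iff (G : MGraph) (hG : G.Valid) (i : Fin G.edges.length) (u v : Fin G.n) :
    G.ends hG i = (u, v) ↔ G.edges.get i = ((u : ℕ), (v : ℕ)) := by
  unfold ends
  rw [Prod.ext_iff, Prod.ext_iff]
  simp only [Fin.ext_iff]

theorem span_connected_iff (G : MGraph) (hG : G.Valid) (hn : 0 < G.n)
    (A : Finset (Fin G.edges.length)) :
    (G.span A).Connected ↔ Conn (G.ends hG) A := by
  have hne : Nonempty (Fin G.n) := ⟨⟨0, hn⟩⟩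
  have hadj : ∀ u v, (G.span A).Adj u v ↔ AdjE (G.ends hG) A u v := by
    intro u v
    unfold span AdjE
    rw [SimpleGraph.fromRel_adj]
    constructor
    · rintro ⟨_, ⟨i, hi, h⟩ | ⟨i, hi, h⟩⟩
      · exact ⟨i, hi, Or.inl ((ends_eq_iff G hG i u v).2 h)⟩
      · exact ⟨i, hi, Or.inr ((ends_eq_iff G hG i v u).2 h)⟩
    · rintro ⟨i, hi, h | h⟩
      · refine ⟨?_, Or.inl ⟨i, hi, (ends_eq_iff G hG i u v).1 h⟩⟩
        rintro rfl
        have := ends_ne G hG i
        rw [h] at this
        exact this rfl
      · refine ⟨?_, Or.inr ⟨i, hi, (ends_eq_iff G hG i v u).1 h⟩⟩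
        rintro rfl
        have := ends_ne G hG i
        rw [h] at this
        exact this rfl
  have hadj' : (G.span A).Adj = AdjE (G.ends hG) A := by
    funext u v
    exact propext (hadj u v)
  rw [SimpleGraph.connected_iff]
  unfold Conn
  constructor
  · rintro ⟨h, _⟩ u v
    have := h u v
    rw [SimpleGraph.reachable_iff_reflTransGen, hadj'] at this
    exact this
  · intro h
    refine ⟨fun u v => ?_, hne⟩
    rw [SimpleGraph.reachable_iff_reflTransGen, hadj']
    exact h u v

theorem unicyclic_eq (G : MGraph) (hG : G.Valid) (hn : 0 < G.n) :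
    G.unicyclic = uniNum (G.ends hG) := by
  classical
  unfold unicyclic uniNum
  rw [Nat.card_eq_fintype_card, Fintype.card_subtype]
  congr 1
  ext A
  rw [Finset.mem_filter, Finset.mem_filter, span_connected_iff G hG hn, Fintype.card_fin]

end MGraph

/-- number of occurrences of an unordered pair -/
def cnt (l : List (ℕ × ℕ)) (i j : ℕ) : ℕ := l.count (i, j) + l.count (j, i)

theorem mult_ends (G : MGraph) (hG : G.Valid) (u v : Fin G.n) (huv : u ≠ v) :
    mult (G.ends hG) u v = cnt G.edges u v := by
  classical
  have h1 : ∀ (l : List (ℕ × ℕ)) (x : ℕ × ℕ),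
      (Finset.univ.filter fun i : Fin l.length => l.get i = x).card = l.count x := by
    intro l x
    rw [List.count_eq_length_filter]
    have := List.countP_eq_length_filter (p := fun y => y == x) (l := l)
    rw [← this]
    induction l with
    | nil => simp
    | cons a l ih =>
      rw [List.countP_cons, ← ih]
      · rw [Finset.card_filter, Finset.card_filter]
        rw [show (∑ i : Fin (a :: l).length, if (a :: l).get i = x then 1 else 0) =
          (if a = x then 1 else 0) + ∑ i : Fin l.length, if l.get i = x then 1 else 0 from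
          Fin.sum_univ_succ _]
        rw [add_comm]
        simp
      · rw [List.countP_eq_length_filter]
  unfold mult cnt
  rw [← h1, ← h1, ← Finset.card_union_of_disjoint]
  · congr 1
    ext i
    rw [Finset.mem_filter, Finset.mem_union, Finset.mem_filter, Finset.mem_filter,
      MGraph.ends_eq_iff, MGraph.ends_eq_iff]
    simp
  · rw [Finset.disjoint_left]
    intro i hi hi'
    rw [Finset.mem_filter] at hi hi'
    rw [hi.2] at hi'
    have := (Prod.ext_iff.1 hi'.2).1
    exact huv (Fin.ext this)

theorem mult_self (G : MGraph) (hG : G.Valid) (u : Fin G.n) :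
    mult (G.ends hG) u u = 0 := by
  unfold mult
  rw [Finset.card_eq_zero, Finset.eq_empty_iff_forall_notMem]
  intro i hi
  rw [Finset.mem_filter] at hi
  have := G.ends_ne hG i
  rcases hi.2 with h | h <;> rw [h] at this <;> exact this rfl

/-- the multigraph with prescribed multiplicities: `W u v` edges between `v < u` -/
def grEdges (n : ℕ) (W : ℕ → ℕ → ℕ) : List (ℕ × ℕ) :=
  (List.range n).flatMap fun u => (List.range u).flatMap fun v => List.replicate (W u v) (v, u)

/-- the multigraph with prescribed multiplicities -/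
def gr (n : ℕ) (W : ℕ → ℕ → ℕ) : MGraph := ⟨n, grEdges n W⟩

theorem mem_grEdges {n : ℕ} {W : ℕ → ℕ → ℕ} {e : ℕ × ℕ} :
    e ∈ grEdges n W ↔ e.1 < e.2 ∧ e.2 < n ∧ W e.2 e.1 ≠ 0 := by
  unfold grEdges
  simp only [List.mem_flatMap, List.mem_range, List.mem_replicate]
  constructor
  · rintro ⟨u, hu, v, hv, hW, rfl⟩
    exact ⟨hv, hu, hW⟩
  · rintro ⟨h1, h2, h3⟩
    exact ⟨e.2, h2, e.1, h1, h3, rfl⟩

theorem gr_valid (n : ℕ) (W : ℕ → ℕ → ℕ) : (gr n W).Valid := by
  intro e he
  obtain ⟨h1, h2, _⟩ := mem_grEdges.1 he
  exact ⟨h1.trans h2, h2, h1.ne⟩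

theorem count_grEdges (n : ℕ) (W : ℕ → ℕ → ℕ) (i j : ℕ) :
    (grEdges n W).count (i, j) = if i < j ∧ j < n then W j i else 0 := by
  unfold grEdges
  rw [List.count_flatMap]
  have h1 : ∀ u, List.count (i, j) ((List.range u).flatMap fun v => List.replicate (W u v) (v, u)) =
      if u = j then (if i < j then W j i else 0) else 0 := by
    intro u
    rw [List.count_flatMap]
    by_cases hu : u = j
    · subst hu
      rw [if_pos rfl]
      have h2 : ∀ v, List.count (i, u) (List.replicate (W u v) (v, u)) =
          if v = i then W u i else 0 := by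
        intro v
        rw [List.count_replicate]
        by_cases hv : v = i
        · subst hv; simp
        · rw [if_neg, if_neg hv]
          simp only [beq_iff_eq, Prod.mk.injEq, not_and]
          intro h; exact absurd h hv
      have h3 : (List.map (List.count (i, u) ∘ fun v => List.replicate (W u v) (v, u))
          (List.range u)).sum = ∑ v ∈ Finset.range u, if v = i then W u i else 0 := by
        rw [Finset.sum_range]
        rw [← List.sum_ofFn]
        congr 1
        apply List.ext_getElem
        · simp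
        · intro k h1 h2'
          simp [h2]
      rw [h3, Finset.sum_ite_eq']
      simp only [Finset.mem_range]
    · rw [if_neg hu]
      apply List.sum_eq_zero
      intro x hx
      rw [List.mem_map] at hx
      obtain ⟨v, _, rfl⟩ := hx
      simp only [Function.comp]
      rw [List.count_replicate, if_neg]
      simp only [beq_iff_eq, Prod.mk.injEq, not_and]
      intro _ h; exact hu h
  have h3 : (List.map (List.count (i, j) ∘ fun u => (List.range u).flatMap fun v =>
      List.replicate (W u v) (v, u)) (List.range n)).sum =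
      ∑ u ∈ Finset.range n, if u = j then (if i < j then W j i else 0) else 0 := by
    rw [Finset.sum_range]
    rw [← List.sum_ofFn]
    congr 1
    apply List.ext_getElem
    · simp
    · intro k h1' h2'
      simp only [List.getElem_map, List.getElem_range, Function.comp, h1, List.getElem_ofFn]
  rw [h3, Finset.sum_ite_eq']
  simp only [Finset.mem_range]
  by_cases h1 : i < j <;> by_cases h2 : j < n <;> simp [h1, h2]

theorem mult_gr (n : ℕ) (W : ℕ → ℕ → ℕ) (u v : Fin n) :
    mult ((gr n W).ends (gr_valid n W)) u v =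
      if u = v then 0 else if v < u then W u v else W v u := by
  by_cases huv : u = v
  · subst huv
    rw [if_pos rfl]
    exact mult_self _ _ _
  · rw [if_neg huv]
    refine (mult_ends (gr n W) (gr_valid n W) u v huv).trans ?_
    have hne : (u : ℕ) ≠ v := fun h => huv (Fin.ext h)
    show cnt (grEdges n W) u v = _
    unfold cnt
    rw [count_grEdges, count_grEdges]
    have hu := u.2
    have hv := v.2
    by_cases h : v < u
    · have h' : (v : ℕ) < u := h
      rw [if_neg (by omega), if_pos ⟨h', hu⟩, if_pos h, zero_add]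
    · have h' : (u : ℕ) < v := by
        have : ¬ (v : ℕ) < u := h
        omega
      rw [if_pos ⟨h', hv⟩, if_neg (by omega), if_neg h, add_zero]

section equiv

variable {R : Type*} [CommRing R]

theorem connF_conj {X Y : Type*} (σ : X ≃ Y) (φ : X → X) :
    ConnF (σ ∘ φ ∘ σ.symm) ↔ ConnF φ := by
  have hit : ∀ n x, (σ ∘ φ ∘ σ.symm)^[n] (σ x) = σ (φ^[n] x) := by
    intro n
    induction n with
    | zero => intro x; rfl
    | succ n ih =>
      intro x
      rw [Function.iterate_succ_apply, Function.iterate_succ_apply, ← ih]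
      simp
  constructor
  · intro h u v
    obtain ⟨i, j, hij⟩ := h (σ u) (σ v)
    rw [hit, hit] at hij
    exact ⟨i, j, σ.injective hij⟩
  · intro h u v
    obtain ⟨i, j, hij⟩ := h (σ.symm u) (σ.symm v)
    refine ⟨i, j, ?_⟩
    have h1 := hit i (σ.symm u)
    have h2 := hit j (σ.symm v)
    rw [σ.apply_symm_apply] at h1 h2
    rw [h1, h2, hij]

theorem connSum_equiv {X Y : Type*} [Fintype X] [Fintype Y] [DecidableEq X] [DecidableEq Y]
    (σ : X ≃ Y) (f : Y → Y → R) :
    connSum (fun x x' => f (σ x) (σ x')) = connSum f := by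
  classical
  unfold connSum
  rw [← Equiv.sum_comp (σ.arrowCongr σ)]
  apply Finset.sum_congr rfl
  intro φ _
  have h1 : (σ.arrowCongr σ) φ = σ ∘ φ ∘ σ.symm := rfl
  rw [h1]
  have h2 : (∏ y, f y ((σ ∘ φ ∘ σ.symm) y)) = ∏ x, f (σ x) (σ (φ x)) := by
    rw [← Equiv.prod_comp σ]
    simp
  rw [h2]
  by_cases h : ConnF φ
  · rw [if_pos h, if_pos ((connF_conj σ φ).2 h)]
  · rw [if_neg h, if_neg (fun h' => h ((connF_conj σ φ).1 h'))]

/-- `rootSum` through `connSum` -/
theorem rootSum_eq {X : Type*} [Fintype X] [DecidableEq X] (f : X → X → R) (r : X) :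
    rootSum f r = connSum (fun z t => if z = r then (if t = r then 1 else 0) else f z t) :=
  (connSum_treeW f r).symm

theorem rootSum_equiv {X Y : Type*} [Fintype X] [Fintype Y] [DecidableEq X] [DecidableEq Y]
    (σ : X ≃ Y) (f : Y → Y → R) (r : X) :
    rootSum (fun x x' => f (σ x) (σ x')) r = rootSum f (σ r) := by
  rw [rootSum_eq, rootSum_eq, ← connSum_equiv σ]
  congr 1
  funext z t
  simp only [σ.injective.eq_iff]

end equiv

end Pool.Agent.Hhelper69.Uni
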