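import Mathlib
import Pool.Agent.Hhelper69.Uni.MGraph

/-!
# Signed perfect matchings from numbers of connected unicyclic subgraphs
-/

namespace Pool.Agent.Hhelper69.Uni

open Finset

set_option linter.unusedSectionVars false

section poly

variable {V Z : Type} [Fintype V] [Fintype Z] [DecidableEq V] [DecidableEq Z]

open Classical in
theorem connSum_hom {R S : Type*} [CommRing R] [CommRing S] (F : R →+* S)
    {X : Type*} [Fintype X] [DecidableEq X] (f : X → X → R) :
    F (connSum f) = connSum (fun x y => F (f x y)) := by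
  unfold connSum
  rw [map_sum]
  apply Finset.sum_congr rfl
  intro φ _
  split_ifs
  · rw [map_prod]
  · exact map_zero _

/-- weights as polynomials in the multiplicity between clones -/
noncomputable def gWp (M : V → V → ℚ) (a b : ℚ) : V ⊕ Z → V ⊕ Z → Polynomial ℚ
  | Sum.inl v, Sum.inl w => Polynomial.C (a * M v w)
  | Sum.inl _, Sum.inr _ => Polynomial.C b
  | Sum.inr _, Sum.inl _ => Polynomial.C b
  | Sum.inr z, Sum.inr z' => if z = z' then 0 else Polynomial.X

theorem gWp_eval (M : V → V → ℚ) (a b c : ℚ) (x y : V ⊕ Z) :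
    (gWp M a b x y).eval c = gW M a b c x y := by
  cases x <;> cases y <;> simp only [gWp, gW, Polynomial.eval_C]
  split_ifs <;> simp

theorem gWp_degree (M : V → V → ℚ) (a b : ℚ) (x y : V ⊕ Z) :
    (gWp M a b x y).natDegree ≤ Sum.elim (fun _ => 0) (fun _ => 1) x := by
  cases x <;> cases y <;> simp only [gWp, Polynomial.natDegree_C, Sum.elim_inl, Sum.elim_inr,
    le_refl, zero_le]
  split_ifs
  · simp
  · exact Polynomial.natDegree_X_le

open Classical in
theorem connSum_natDegree (f : V ⊕ Z → V ⊕ Z → Polynomial ℚ)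
    (hf : ∀ x y, (f x y).natDegree ≤ Sum.elim (fun _ => 0) (fun _ => 1) x) :
    (connSum f).natDegree ≤ Fintype.card Z := by
  unfold connSum
  apply Polynomial.natDegree_sum_le_of_forall_le
  intro φ _
  split_ifs
  · refine (Polynomial.natDegree_prod_le _ _).trans ?_
    refine (Finset.sum_le_sum (fun x _ => hf x (φ x))).trans ?_
    rw [Fintype.sum_sum_type]
    simp
  · simp

/-- `connSum` at an arbitrary `c` from its values at `0, …, m` -/
theorem connSum_interp (M : V → V → ℚ) (a b y : ℚ) :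
    connSum (gW (Z := Z) M a b y) = ∑ c ∈ Finset.range (Fintype.card Z + 1),
      connSum (gW (Z := Z) M a b (c : ℚ)) * lag (Fintype.card Z) c y := by
  have h := lagrange_eval (connSum (gWp (Z := Z) M a b)) (Fintype.card Z)
    (connSum_natDegree _ (gWp_degree M a b)) y
  have hev : ∀ c : ℚ, (connSum (gWp (Z := Z) M a b)).eval c = connSum (gW (Z := Z) M a b c) := by
    intro c
    rw [← Polynomial.coe_evalRingHom, connSum_hom]
    simp only [Polynomial.coe_evalRingHom, gWp_eval]
  simp only [hev] at h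
  exact h

theorem rootSum_interp (M : V → V → ℚ) (a b y : ℚ) (r : V) :
    rootSum (gW (Z := Z) M a b y) (Sum.inl r) = ∑ c ∈ Finset.range (Fintype.card Z + 1),
      rootSum (gW (Z := Z) M a b (c : ℚ)) (Sum.inl r) * lag (Fintype.card Z) c y := by
  classical
  set f : V ⊕ Z → V ⊕ Z → Polynomial ℚ := fun z t => if z = Sum.inl r then
    (if t = Sum.inl r then 1 else 0) else gWp (Z := Z) M a b z t with hf
  have h := lagrange_eval (connSum f) (Fintype.card Z)
    (connSum_natDegree _ (fun x y => by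
      rw [hf]
      simp only
      split_ifs
      · simp
      · simp
      · exact gWp_degree M a b x y)) y
  have hev : ∀ c : ℚ, (connSum f).eval c = rootSum (gW (Z := Z) M a b c) (Sum.inl r) := by
    intro c
    rw [← Polynomial.coe_evalRingHom, connSum_hom, rootSum_eq]
    congr 1
    funext x y
    rw [hf]
    simp only [Polynomial.coe_evalRingHom]
    split_ifs
    · simp
    · simp
    · exact gWp_eval M a b c x y
  simp only [hev] at h
  exact h

end poly

section instances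

/-- the multiplicities of the query graph: vertices `0, …, N - 1` of the base graph and `m` clones -/
def Wq (P Q : List (ℕ × ℕ)) (N t α m c : ℕ) (u v : ℕ) : ℕ :=
  if u < N then α * m * m * (cnt P u v + t * cnt Q u v) else if v < N then m else c

/-- the query graph -/
def Gq (P Q : List (ℕ × ℕ)) (N t α m c : ℕ) : MGraph := gr (N + m) (Wq P Q N t α m c)

theorem Gq_valid (P Q : List (ℕ × ℕ)) (N t α m c : ℕ) : (Gq P Q N t α m c).Valid := gr_valid _ _

theorem cnt_comm (l : List (ℕ × ℕ)) (i j : ℕ) : cnt l i j = cnt l j i := by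
  unfold cnt; rw [add_comm]

theorem Gq_connected (P Q : List (ℕ × ℕ)) (N t α m c : ℕ) (hN : 0 < N) (hm : 0 < m) :
    (Gq P Q N t α m c).Connected := by
  have hedge : ∀ v z : Fin (N + m), (v : ℕ) < N → N ≤ (z : ℕ) →
      ((Gq P Q N t α m c).span Finset.univ).Adj v z := by
    intro v z hv hz
    refine (SimpleGraph.fromRel_adj _ _ _).2 ⟨fun h => ?_, Or.inl ?_⟩
    · rw [h] at hv; omega
    · have : ((v : ℕ), (z : ℕ)) ∈ (Gq P Q N t α m c).edges := by
        show ((v : ℕ), (z : ℕ)) ∈ grEdges _ _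
        rw [mem_grEdges]
        refine ⟨by omega, z.2, ?_⟩
        unfold Wq
        simp only
        rw [if_neg (by omega), if_pos hv]
        omega
      obtain ⟨i, hi⟩ := List.get_of_mem this
      exact ⟨i, Finset.mem_univ _, hi⟩
  have hN' : N < N + m := by omega
  have h0 : 0 < N + m := by omega
  unfold MGraph.Connected
  rw [SimpleGraph.connected_iff]
  have key : ∀ x : Fin (N + m), ((Gq P Q N t α m c).span Finset.univ).Reachable x
      (⟨N, hN'⟩ : Fin (N + m)) := by
    intro x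
    by_cases hx : (x : ℕ) < N
    · exact (hedge x ⟨N, hN'⟩ hx le_rfl).reachable
    · have h1 := (hedge ⟨0, h0⟩ x hN (not_lt.1 hx)).reachable
      have h2 := (hedge ⟨0, h0⟩ ⟨N, hN'⟩ hN le_rfl).reachable
      exact h1.symm.trans h2
  exact ⟨fun x y => (key x).trans (key y).symm, ⟨(⟨0, h0⟩ : Fin (N + m))⟩⟩

/-- base matrix -/
def Mq (P Q : List (ℕ × ℕ)) (N t : ℕ) (i j : Fin N) : ℚ :=
  if i = j then 0 else (cnt P i j : ℚ) + t * cnt Q i j

theorem mult_gr' (n : ℕ) (W : ℕ → ℕ → ℕ) (u v : Fin n) :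
    mult ((gr n W).ends (gr_valid n W)) u v =
      if (u : ℕ) = v then 0 else if (v : ℕ) < u then W u v else W v u := by
  have h := mult_gr n W u v
  refine h.trans ?_
  simp only [Fin.ext_iff, Fin.lt_def]

theorem mult_Gq (P Q : List (ℕ × ℕ)) (N t α m c : ℕ) (x y : Fin N ⊕ Fin m) :
    ((mult ((Gq P Q N t α m c).ends (Gq_valid P Q N t α m c)) (finSumFinEquiv x)
      (finSumFinEquiv y) : ℕ) : ℚ) =
      gW (Mq P Q N t) ((α : ℚ) * (m : ℚ) ^ 2) m c x y := by
  have h := mult_gr' (N + m) (Wq P Q N t α m c) (finSumFinEquiv x) (finSumFinEquiv y)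
  refine (congrArg (Nat.cast : ℕ → ℚ) h).trans ?_
  clear h
  have hl : ∀ v : Fin N, ((finSumFinEquiv (Sum.inl v) : Fin (N + m)) : ℕ) = v := fun v => by simp
  have hr : ∀ z : Fin m, ((finSumFinEquiv (Sum.inr z) : Fin (N + m)) : ℕ) = N + z :=
    fun z => by simp
  cases x with
  | inl v =>
    have h1 : (v : ℕ) < N := v.2
    cases y with
    | inl w =>
      have h2 : (w : ℕ) < N := w.2
      rw [hl, hl]
      simp only [gW, Mq]
      by_cases hvw : v = w
      · subst hvw; simp
      · have hne : (v : ℕ) ≠ w := fun h => hvw (Fin.ext h)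
        rw [if_neg hvw, if_neg hne]
        unfold Wq
        rw [if_pos h1, if_pos h2, cnt_comm P w v, cnt_comm Q w v]
        split_ifs <;> push_cast <;> ring
    | inr z =>
      rw [hl, hr]
      simp only [gW]
      rw [if_neg (by omega), if_neg (by omega)]
      unfold Wq
      rw [if_neg (by omega), if_pos h1]
  | inr z =>
    cases y with
    | inl v =>
      have h1 : (v : ℕ) < N := v.2
      rw [hl, hr]
      simp only [gW]
      rw [if_neg (by omega), if_pos (by omega)]
      unfold Wq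
      rw [if_neg (by omega), if_pos h1]
    | inr z' =>
      rw [hr, hr]
      simp only [gW]
      by_cases hz : z = z'
      · subst hz; simp
      · have hz' : (z : ℕ) ≠ z' := fun h => hz (Fin.ext h)
        rw [if_neg hz, if_neg (by omega)]
        unfold Wq
        split_ifs <;> first | rfl | omega

/-- twice the number of unicyclic subgraphs -/
theorem two_unicyclic (P Q : List (ℕ × ℕ)) (N t α m c : ℕ) (r : Fin N) :
    2 * ((Gq P Q N t α m c).unicyclic : ℚ) =
      connSum (gW (Z := Fin m) (Mq P Q N t) ((α : ℚ) * (m : ℚ) ^ 2) m c) -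
        ((N : ℚ) + m - 1) *
          rootSum (gW (Z := Fin m) (Mq P Q N t) ((α : ℚ) * (m : ℚ) ^ 2) m c) (Sum.inl r) := by
  have hn : 0 < (Gq P Q N t α m c).n := by
    show 0 < N + m
    have := r.2; omega
  have hne : Nonempty (Fin (Gq P Q N t α m c).n) := ⟨⟨0, hn⟩⟩
  have hl := MGraph.ends_ne (Gq P Q N t α m c) (Gq_valid P Q N t α m c)
  have h1 := connSum_mult (R := ℚ) hl hne
  have h2 := rootSum_mult (R := ℚ) hl (finSumFinEquiv (Sum.inl r) : Fin (N + m))
  rw [Fintype.card_fin] at h1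
  have h3 : connSum (fun v w => (mult ((Gq P Q N t α m c).ends (Gq_valid P Q N t α m c)) v w : ℚ)) =
      connSum (gW (Z := Fin m) (Mq P Q N t) ((α : ℚ) * (m : ℚ) ^ 2) m c) := by
    have := connSum_equiv (R := ℚ) (finSumFinEquiv (m := N) (n := m))
      (fun v w => (mult ((Gq P Q N t α m c).ends (Gq_valid P Q N t α m c)) v w : ℚ))
    refine this.symm.trans ?_
    congr 1
    funext x y
    exact mult_Gq P Q N t α m c x y
  have h4 : rootSum (fun v w => (mult ((Gq P Q N t α m c).ends (Gq_valid P Q N t α m c)) v w : ℚ))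
      (finSumFinEquiv (Sum.inl r) : Fin (N + m)) =
      rootSum (gW (Z := Fin m) (Mq P Q N t) ((α : ℚ) * (m : ℚ) ^ 2) m c) (Sum.inl r) := by
    have := rootSum_equiv (R := ℚ) (finSumFinEquiv (m := N) (n := m))
      (fun v w => (mult ((Gq P Q N t α m c).ends (Gq_valid P Q N t α m c)) v w : ℚ)) (Sum.inl r)
    refine this.symm.trans ?_
    congr 1
    funext x y
    exact mult_Gq P Q N t α m c x y
  rw [h4] at h2
  rw [h3] at h1
  rw [MGraph.unicyclic_eq _ (Gq_valid P Q N t α m c) hn, h2, h1]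
  have h5 : (((Gq P Q N t α m c).n : ℕ) : ℚ) = (N : ℚ) + m := by
    show ((N + m : ℕ) : ℚ) = _
    push_cast; rfl
  rw [h5]
  ring

/-- the forest sum from the unicyclic counts -/
theorem gF_eq (P Q : List (ℕ × ℕ)) (N t α j : ℕ) (hN : 0 < N) :
    gF (Mq P Q N t) α (j + 2) =
      (-1 / ((j.factorial : ℚ) * ((-(N : ℚ)) ^ (j + 2) * ((j + 2 : ℕ) : ℚ) ^ (2 * N)))) *
      ∑ c ∈ Finset.range (j + 3), 2 * lag (j + 2) c (-(N : ℚ)) *
        ((Gq P Q N t α (j + 2) c).unicyclic : ℚ) := by
  have hN' : (N : ℚ) ≠ 0 := by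
    have : N ≠ 0 := by omega
    exact_mod_cast this
  have h1 := connSum_tuned (V := Fin N) (Z := Fin (j + 2)) (n := j) (by simp) (by simpa using hN')
    (Mq P Q N t) α
  have h2 := rootSum_tuned (V := Fin N) (Z := Fin (j + 2)) (n := j) (by simp)
    (Mq P Q N t) ((α : ℚ) * ((j + 2 : ℕ) : ℚ) ^ 2) ⟨0, hN⟩
  have h3 := connSum_interp (V := Fin N) (Z := Fin (j + 2)) (Mq P Q N t)
    ((α : ℚ) * ((j + 2 : ℕ) : ℚ) ^ 2) ((j + 2 : ℕ) : ℚ) (-(N : ℚ))
  have h4 := rootSum_interp (V := Fin N) (Z := Fin (j + 2)) (Mq P Q N t)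
    ((α : ℚ) * ((j + 2 : ℕ) : ℚ) ^ 2) ((j + 2 : ℕ) : ℚ) (-(N : ℚ)) ⟨0, hN⟩
  simp only [Fintype.card_fin] at h1 h2 h3 h4
  rw [h2] at h4
  rw [h1] at h3
  have h5 : ∑ c ∈ Finset.range (j + 3), 2 * lag (j + 2) c (-(N : ℚ)) *
        ((Gq P Q N t α (j + 2) c).unicyclic : ℚ) =
      -(j.factorial : ℚ) * ((-(N : ℚ)) ^ (j + 2) * ((j + 2 : ℕ) : ℚ) ^ (2 * N)) *
        gF (Mq P Q N t) α (j + 2) := by
    rw [h3]
    have h6 : ∀ c ∈ Finset.range (j + 3), 2 * lag (j + 2) c (-(N : ℚ)) *
        ((Gq P Q N t α (j + 2) c).unicyclic : ℚ) =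
        connSum (gW (Z := Fin (j + 2)) (Mq P Q N t) ((α : ℚ) * ((j + 2 : ℕ) : ℚ) ^ 2)
          ((j + 2 : ℕ) : ℚ) c) * lag (j + 2) c (-(N : ℚ)) -
        ((N : ℚ) + ((j + 2 : ℕ) : ℚ) - 1) * (rootSum (gW (Z := Fin (j + 2)) (Mq P Q N t)
          ((α : ℚ) * ((j + 2 : ℕ) : ℚ) ^ 2) ((j + 2 : ℕ) : ℚ) c) (Sum.inl ⟨0, hN⟩) *
            lag (j + 2) c (-(N : ℚ))) := by
      intro c _
      have := two_unicyclic P Q N t α (j + 2) c ⟨0, hN⟩
      calc 2 * lag (j + 2) c (-(N : ℚ)) * ((Gq P Q N t α (j + 2) c).unicyclic : ℚ)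
          = lag (j + 2) c (-(N : ℚ)) * (2 * ((Gq P Q N t α (j + 2) c).unicyclic : ℚ)) := by ring
        _ = _ := by rw [this]; ring
    rw [Finset.sum_congr rfl h6, Finset.sum_sub_distrib, ← Finset.mul_sum, ← h4]
    ring
  rw [h5]
  have a1 : (j.factorial : ℚ) ≠ 0 := by exact_mod_cast Nat.factorial_ne_zero _
  have a2 : ((j + 2 : ℕ) : ℚ) ≠ 0 := by
    have : j + 2 ≠ 0 := by omega
    exact_mod_cast this
  have a3 : (-(N : ℚ)) ^ (j + 2) ≠ 0 := pow_ne_zero _ (neg_ne_zero.2 hN')
  have a4 : ((j + 2 : ℕ) : ℚ) ^ (2 * N) ≠ 0 := pow_ne_zero _ a2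
  field_simp

/-- the weights -/
def wt (R t i j c : ℕ) : ℚ :=
  lag R t (-1) * ((-1) ^ R * (lag R i (-1) / ((i + 1 : ℕ) : ℚ) ^ R)) * wM (2 * R) (j + 2) *
    (-1 / ((j.factorial : ℚ) * ((-((2 * R : ℕ) : ℚ)) ^ (j + 2) *
      ((j + 2 : ℕ) : ℚ) ^ (2 * (2 * R))))) * (2 * lag (j + 2) c (-((2 * R : ℕ) : ℚ)))

theorem omSum_congr {V : Type} [Fintype V] [DecidableEq V] {M M' : V → V → ℚ}
    (h : ∀ i j, i ≠ j → M i j = M' i j) : omSum M = omSum M' := by
  classical
  unfold omSum
  apply Finset.sum_congr rfl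
  intro ψ₀ _
  split_ifs with hOM
  · apply Finset.prod_congr rfl
    intro v _
    cases hv : ψ₀ v with
    | none => rfl
    | some w =>
      simp only [Option.elim_some]
      apply h
      rintro rfl
      have := hOM.1 _ _ hv
      rw [hv] at this
      simp at this
  · rfl

/-- **Main identity**: signed perfect matchings are an explicit linear combination of numbers of
spanning connected unicyclic subgraphs of explicit multigraphs. -/
theorem main_identity (P Q : List (ℕ × ℕ)) (R : ℕ) (hR : 0 < R) :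
    omSum (V := Fin (2 * R)) (fun i j => (cnt P i j : ℚ) - cnt Q i j) =
      ∑ t ∈ Finset.range (R + 1), ∑ i ∈ Finset.range (R + 1), ∑ j ∈ Finset.range (2 * R),
        ∑ c ∈ Finset.range (j + 3), wt R t i j c *
          ((Gq P Q (2 * R) t (i + 1) (j + 2) c).unicyclic : ℚ) := by
  rw [omSum_sub (fun i j : Fin (2 * R) => (cnt P i j : ℚ)) (fun i j => (cnt Q i j : ℚ)) R (by simp)]
  apply Finset.sum_congr rfl
  intro t _
  have h1 : omSum (fun i j : Fin (2 * R) => (cnt P i j : ℚ) + t * cnt Q i j) =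
      omSum (Mq P Q (2 * R) t) := by
    apply omSum_congr
    intro i j hij
    unfold Mq
    rw [if_neg hij]
  rw [h1, omSum_eq (Mq P Q (2 * R) t) R (by simp), Finset.mul_sum, Finset.sum_mul]
  apply Finset.sum_congr rfl
  intro i _
  rw [sF_eq _ _ (by rw [Fintype.card_fin]; omega), Fintype.card_fin, Finset.sum_div,
    Finset.sum_mul, Finset.mul_sum, Finset.sum_mul]
  apply Finset.sum_congr rfl
  intro j _
  rw [gF_eq P Q (2 * R) t (i + 1) j (by omega)]
  rw [Finset.mul_sum, Finset.mul_sum, Finset.sum_div, Finset.sum_mul, Finset.mul_sum,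
    Finset.sum_mul]
  apply Finset.sum_congr rfl
  intro c _
  unfold wt
  ring

end instances

end Pool.Agent.Hhelper69.Uni
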