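import Mathlib
import Pool.Agent.Lib.PolyTime.Lib
import Pool.Agent.Hhelper69.Uni.MGraph

/-!
# String encodings
-/

namespace Pool.Agent.Hhelper69.Uni

open Pool.Agent.Lib.PT

/-! ### Parsing pairs -/

/-- state: finished first component, pending bit, first component (reversed), second (reversed) -/
def upStep (s : Bool × List Bool × List Bool × List Bool) (b : Bool) :
    Bool × List Bool × List Bool × List Bool :=
  bif s.1 then (true, s.2.1, s.2.2.1, b :: s.2.2.2)
  else bif s.2.1.isEmpty then (false, [b], s.2.2.1, s.2.2.2)
  else bif (s.2.1.headD false == b) then (false, [], b :: s.2.2.1, s.2.2.2)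
  else (true, [], s.2.2.1, s.2.2.2)

/-- inverse of `pairing` -/
def unpair (s : List Bool) : List Bool × List Bool :=
  let r := s.foldl upStep (false, [], [], [])
  (r.2.2.1.reverse, r.2.2.2.reverse)

theorem upStep_first (x xs ys : List Bool) :
    (x.flatMap (fun b => [b, b])).foldl upStep (false, [], xs, ys) =
      (false, [], x.reverse ++ xs, ys) := by
  induction x generalizing xs with
  | nil => rfl
  | cons b x ih =>
    rw [List.flatMap_cons, List.foldl_append]
    have : List.foldl upStep (false, [], xs, ys) [b, b] = (false, [], b :: xs, ys) := by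
      simp [upStep]
    rw [this, ih]
    simp

theorem upStep_second (y p xs ys : List Bool) :
    y.foldl upStep (true, p, xs, ys) = (true, p, xs, y.reverse ++ ys) := by
  induction y generalizing ys with
  | nil => rfl
  | cons b y ih =>
    rw [List.foldl_cons]
    have : upStep (true, p, xs, ys) b = (true, p, xs, b :: ys) := rfl
    rw [this, ih]
    simp

theorem unpair_pairing (x y : List Bool) : unpair (pairing x y) = (x, y) := by
  unfold unpair pairing
  rw [List.foldl_append, List.foldl_append, upStep_first]
  have : List.foldl upStep (false, [], x.reverse ++ [], []) [false, true] =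
      (true, [], x.reverse ++ [], []) := by
    simp [upStep]
  rw [this, upStep_second]
  simp

theorem PolyTime.unpair {α : Type*} [Enc α] {f : α → List Bool} (hf : PolyTime f) :
    PolyTime (fun a => Uni.unpair (f a)) := by
  have hs : PolyTime (fun q : List Bool × (Bool × List Bool × List Bool × List Bool) × Bool =>
      upStep q.2.1 q.2.2) := by
    have s1 : PolyTime (fun q : List Bool × (Bool × List Bool × List Bool × List Bool) × Bool =>
      q.2.1.1) := PolyTime.id.snd.fst.fst
    have s2 : PolyTime (fun q : List Bool × (Bool × List Bool × List Bool × List Bool) × Bool =>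
      q.2.1.2.1) := PolyTime.id.snd.fst.snd.fst
    have s3 : PolyTime (fun q : List Bool × (Bool × List Bool × List Bool × List Bool) × Bool =>
      q.2.1.2.2.1) := PolyTime.id.snd.fst.snd.snd.fst
    have s4 : PolyTime (fun q : List Bool × (Bool × List Bool × List Bool × List Bool) × Bool =>
      q.2.1.2.2.2) := PolyTime.id.snd.fst.snd.snd.snd
    have sb : PolyTime (fun q : List Bool × (Bool × List Bool × List Bool × List Bool) × Bool =>
      q.2.2) := PolyTime.id.snd.snd
    exact s1.cond ((PolyTime.const true).pair (s2.pair (s3.pair (sb.cons s4))))
      (s2.isEmpty.cond ((PolyTime.const false).pair ((sb.cons (PolyTime.const [])).pair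
        (s3.pair s4)))
      (((s2.headD (PolyTime.const false)).beqBool sb).cond
        ((PolyTime.const false).pair ((PolyTime.const []).pair ((sb.cons s3).pair s4)))
        ((PolyTime.const true).pair ((PolyTime.const []).pair (s3.pair s4)))))
  have h := PolyTime.foldl_add' (f := fun (_ : List Bool) s b => upStep s b)
    (l := fun s : List Bool => s) (b := fun _ => (false, [], [], [])) PolyTime.id
    (PolyTime.const _) hs ⟨Polynomial.C 20, fun a s b => by
      obtain ⟨s1, s2, s3, s4⟩ := s
      have hb := sz_bool_le b
      have h1 := sz_pos s2
      have h2 : sz s1 = 1 ∨ sz s1 = 3 := by cases s1 <;> simp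
      simp only [Polynomial.eval_C, sz_pair]
      unfold upStep
      cases s1
      · cases h3 : s2.isEmpty
        · cases h4 : (s2.headD false == b)
          · simp only [cond_false, sz_pair, sz_true, sz_list_nil]
            omega
          · simp only [cond_false, cond_true, sz_pair, sz_false, sz_list_nil, sz_list_cons]
            omega
        · simp only [cond_false, cond_true, sz_pair, sz_false, sz_list_nil, sz_list_cons]
          omega
      · simp only [cond_true, sz_pair, sz_true, sz_list_cons]
        omega⟩
  have h2 := h.comp hf
  exact h2.snd.snd.fst.reverse.pair h2.snd.snd.snd.reverse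

/-! ### Parsing lists of numbers -/

/-- state: next symbol is a digit, current number (reversed), list of numbers (reversed) -/
def pnStep (s : Bool × List Bool × List (List Bool)) (b : Bool) :
    Bool × List Bool × List (List Bool) :=
  bif s.1 then (false, b :: s.2.1, s.2.2)
  else bif b then (true, s.2.1, s.2.2)
  else (false, [], s.2.1.reverse :: s.2.2)

/-- inverse of `encNats`, the numbers being given by their lists of digits -/
def parseNats (s : List Bool) : List (List Bool) :=
  (s.foldl pnStep (false, [], [])).2.2.reverse

theorem pnStep_digits (l cur : List Bool) (out : List (List Bool)) :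
    (l.flatMap (fun b => [true, b])).foldl pnStep (false, cur, out) =
      (false, l.reverse ++ cur, out) := by
  induction l generalizing cur with
  | nil => rfl
  | cons b l ih =>
    rw [List.flatMap_cons, List.foldl_append]
    have : List.foldl pnStep (false, cur, out) [true, b] = (false, b :: cur, out) := by
      simp [pnStep]
    rw [this, ih]
    simp

theorem parseNats_encNats (ns : List ℕ) : parseNats (encNats ns) = ns.map Nat.bits := by
  have key : ∀ (ns : List ℕ) (out : List (List Bool)),
      (encNats ns).foldl pnStep (false, [], out) = (false, [], (ns.map Nat.bits).reverse ++ out) := by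
    intro ns
    induction ns with
    | nil => intro out; rfl
    | cons n ns ih =>
      intro out
      unfold encNats at ih ⊢
      rw [List.flatMap_cons, List.foldl_append, List.foldl_append, pnStep_digits]
      have : List.foldl pnStep (false, (Nat.bits n).reverse ++ [], out) [false] =
          (false, [], Nat.bits n :: out) := by
        simp [pnStep]
      rw [this, ih]
      simp
  unfold parseNats
  rw [key]
  simp

theorem PolyTime.parseNats {α : Type*} [Enc α] {f : α → List Bool} (hf : PolyTime f) :
    PolyTime (fun a => Uni.parseNats (f a)) := by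
  have hs : PolyTime (fun q : List Bool × (Bool × List Bool × List (List Bool)) × Bool =>
      pnStep q.2.1 q.2.2) := by
    have s1 : PolyTime (fun q : List Bool × (Bool × List Bool × List (List Bool)) × Bool =>
      q.2.1.1) := PolyTime.id.snd.fst.fst
    have s2 : PolyTime (fun q : List Bool × (Bool × List Bool × List (List Bool)) × Bool =>
      q.2.1.2.1) := PolyTime.id.snd.fst.snd.fst
    have s3 : PolyTime (fun q : List Bool × (Bool × List Bool × List (List Bool)) × Bool =>
      q.2.1.2.2) := PolyTime.id.snd.fst.snd.snd
    have sb : PolyTime (fun q : List Bool × (Bool × List Bool × List (List Bool)) × Bool =>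
      q.2.2) := PolyTime.id.snd.snd
    exact s1.cond ((PolyTime.const false).pair ((sb.cons s2).pair s3))
      (sb.cond ((PolyTime.const true).pair (s2.pair s3))
        ((PolyTime.const false).pair ((PolyTime.const []).pair (s2.reverse.cons s3))))
  have h := PolyTime.foldl_add' (f := fun (_ : List Bool) s b => pnStep s b)
    (l := fun s : List Bool => s) (b := fun _ => (false, [], [])) PolyTime.id
    (PolyTime.const _) hs ⟨Polynomial.C 20, fun a s b => by
      obtain ⟨s1, s2, s3⟩ := s
      have hb := sz_bool_le b
      have h1 := sz_pos s2
      have h2 : sz s1 = 1 ∨ sz s1 = 3 := by cases s1 <;> simp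
      simp only [Polynomial.eval_C, sz_pair]
      unfold pnStep
      cases s1
      · cases b
        · simp only [cond_false, sz_pair, sz_false, sz_list_nil, sz_list_cons, sz_reverse]
          omega
        · simp only [cond_false, cond_true, sz_pair, sz_true]
          omega
      · simp only [cond_true, sz_pair, sz_false, sz_list_cons]
        omega⟩
  exact (h.comp hf).snd.snd.reverse

/-! ### Producing encodings -/

theorem PolyTime.encUnary {α : Type*} [Enc α] {f : α → ℕ} (hf : PolyTime f) :
    PolyTime (fun a => Uni.encUnary (f a)) :=
  (PolyTime.replicate hf (PolyTime.const true)).append (PolyTime.const [false])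

/-- doubling of bits and separator -/
theorem PolyTime.dbl {α : Type*} [Enc α] {f : α → List Bool} (hf : PolyTime f) :
    PolyTime (fun a => (f a).flatMap (fun b => [b, b]) ++ [false, true]) :=
  (hf.flatMap (f := fun _ b => [b, b]) (PolyTime.id.snd.cons (PolyTime.id.snd.cons
    (PolyTime.const [])))).append (PolyTime.const _)

/-- edge lists of prescribed multiplicities -/
theorem PolyTime.encGr {α : Type*} [Enc α] {n : α → ℕ} {W : α → ℕ → ℕ → ℕ} (hn : PolyTime n)
    (hW : PolyTime (fun q : α × ℕ × ℕ => W q.1 q.2.1 q.2.2)) :
    PolyTime (fun a => encGraph (gr (n a) (W a))) := by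
  have hE : PolyTime (fun a => grEdges (n a) (W a)) := by
    have h1 : PolyTime (fun q : (α × ℕ) × ℕ => List.replicate (W q.1.1 q.1.2 q.2) (q.2, q.1.2)) :=
      PolyTime.replicate (hW.comp (PolyTime.id.fst.fst.pair (PolyTime.id.fst.snd.pair
        PolyTime.id.snd))) (PolyTime.id.snd.pair PolyTime.id.fst.snd)
    have h2 : PolyTime (fun q : α × ℕ => (List.range q.2).flatMap fun v =>
        List.replicate (W q.1 q.2 v) (v, q.2)) :=
      (PolyTime.id.snd.range).flatMap (f := fun (q : α × ℕ) v =>
        List.replicate (W q.1 q.2 v) (v, q.2)) h1
    exact hn.range.flatMap (f := fun a u => (List.range u).flatMap fun v =>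
      List.replicate (W a u v) (v, u)) h2
  have hedge : PolyTime (fun q : α × ℕ × ℕ => true :: (Uni.encUnary q.2.1 ++ Uni.encUnary q.2.2)) :=
    (PolyTime.const true).cons ((PolyTime.encUnary PolyTime.id.snd.fst).append
      (PolyTime.encUnary PolyTime.id.snd.snd))
  exact ((PolyTime.encUnary hn).append (hE.flatMap (f := fun _ (e : ℕ × ℕ) =>
    true :: (Uni.encUnary e.1 ++ Uni.encUnary e.2)) hedge)).append (PolyTime.const [false])

/-- counting a pair of numbers in a list -/
theorem PolyTime.cnt {α : Type*} [Enc α] {l : α → List (ℕ × ℕ)} {i j : α → ℕ} (hl : PolyTime l)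
    (hi : PolyTime i) (hj : PolyTime j) : PolyTime (fun a => Uni.cnt (l a) (i a) (j a)) := by
  have key : ∀ {i j : α → ℕ}, PolyTime i → PolyTime j →
      PolyTime (fun a => (l a).count (i a, j a)) := by
    intro i j hi hj
    have h1 : PolyTime (fun q : α × ℕ × ℕ => decide (q.2.1 = i q.1) && decide (q.2.2 = j q.1)) :=
      (PolyTime.id.snd.fst.eqNat (hi.comp PolyTime.id.fst)).and
        (PolyTime.id.snd.snd.eqNat (hj.comp PolyTime.id.fst))
    refine (hl.filter (f := fun a (e : ℕ × ℕ) => decide (e.1 = i a) && decide (e.2 = j a))
      h1).length.congr fun a => ?_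
    rw [List.count_eq_length_filter]
    congr 2
  exact (key hi hj).add (key hj hi)

end Pool.Agent.Hhelper69.Uni
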