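import Mathlib
import Pool.Agent.Hhelper69.Uni.Strings
import Pool.Agent.Hhelper69.Uni.Core

/-!
# The list of queries
-/

namespace Pool.Agent.Hhelper69.Uni

open Pool.Agent.Lib.PT

/-- the index set of the queries -/
def idx (R : ℕ) : List (ℕ × ℕ × ℕ × ℕ) :=
  (List.range (R + 1)).flatMap fun t => (List.range (R + 1)).flatMap fun i =>
    (List.range (2 * R)).flatMap fun j => (List.range (j + 3)).map fun c => (t, i, j, c)

theorem list_sum_range {M : Type*} [AddCommMonoid M] (n : ℕ) (f : ℕ → M) :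
    ((List.range n).map f).sum = ∑ i ∈ Finset.range n, f i := by
  induction n with
  | zero => simp
  | succ n ih => rw [List.range_succ, List.map_append, List.sum_append, ih,
      Finset.sum_range_succ]; simp

theorem list_sum_flatMap {M A B : Type*} [AddCommMonoid M] (l : List A) (g : A → List B)
    (f : B → M) : ((l.flatMap g).map f).sum = (l.map fun a => ((g a).map f).sum).sum := by
  induction l with
  | nil => rfl
  | cons a l ih => simp [ih]

theorem idx_sum {M : Type*} [AddCommMonoid M] (R : ℕ) (F : ℕ → ℕ → ℕ → ℕ → M) :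
    ((idx R).map fun q => F q.1 q.2.1 q.2.2.1 q.2.2.2).sum =
      ∑ t ∈ Finset.range (R + 1), ∑ i ∈ Finset.range (R + 1), ∑ j ∈ Finset.range (2 * R),
        ∑ c ∈ Finset.range (j + 3), F t i j c := by
  unfold idx
  rw [list_sum_flatMap, list_sum_range]
  apply Finset.sum_congr rfl
  intro t _
  rw [list_sum_flatMap, list_sum_range]
  apply Finset.sum_congr rfl
  intro i _
  rw [list_sum_flatMap, list_sum_range]
  apply Finset.sum_congr rfl
  intro j _
  rw [List.map_map, ← list_sum_range]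
  rfl

theorem PolyTime.idx {α : Type*} [Enc α] {R : α → ℕ} (hR : PolyTime R) :
    PolyTime (fun a => Uni.idx (R a)) := by
  have h1 : PolyTime (fun q : ((ℕ × ℕ) × ℕ) × ℕ => (List.range (q.2 + 3)).map fun c =>
      (q.1.1.2, q.1.2, q.2, c)) :=
    (PolyTime.id.snd.add (PolyTime.const 3)).range.map
      (f := fun (q : ((ℕ × ℕ) × ℕ) × ℕ) c => (q.1.1.2, q.1.2, q.2, c))
      (PolyTime.id.fst.fst.fst.snd.pair (PolyTime.id.fst.fst.snd.pair
        (PolyTime.id.fst.snd.pair PolyTime.id.snd)))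
  have h2 : PolyTime (fun q : (ℕ × ℕ) × ℕ => (List.range (2 * q.1.1)).flatMap fun j =>
      (List.range (j + 3)).map fun c => (q.1.2, q.2, j, c)) :=
    ((PolyTime.const 2).mul PolyTime.id.fst.fst).range.flatMap
      (f := fun (q : (ℕ × ℕ) × ℕ) j => (List.range (j + 3)).map fun c => (q.1.2, q.2, j, c)) h1
  have h3 : PolyTime (fun q : ℕ × ℕ => (List.range (q.1 + 1)).flatMap fun i =>
      (List.range (2 * q.1)).flatMap fun j =>
      (List.range (j + 3)).map fun c => (q.2, i, j, c)) :=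
    (PolyTime.id.fst.succ.range).flatMap
      (f := fun (q : ℕ × ℕ) i => (List.range (2 * q.1)).flatMap fun j =>
        (List.range (j + 3)).map fun c => (q.2, i, j, c)) h2
  have h4 : PolyTime (fun R : ℕ => Uni.idx R) :=
    (PolyTime.id.succ.range).flatMap
      (f := fun (R : ℕ) t => (List.range (R + 1)).flatMap fun i =>
        (List.range (2 * R)).flatMap fun j =>
        (List.range (j + 3)).map fun c => (t, i, j, c)) h3
  exact h4.comp hR

theorem PolyTime.Wq {α : Type*} [Enc α] {P Q : α → List (ℕ × ℕ)} {N t r m c u v : α → ℕ}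
    (hP : PolyTime P) (hQ : PolyTime Q) (hN : PolyTime N) (ht : PolyTime t) (hr : PolyTime r)
    (hm : PolyTime m) (hc : PolyTime c) (hu : PolyTime u) (hv : PolyTime v) :
    PolyTime (fun a => Uni.Wq (P a) (Q a) (N a) (t a) (r a) (m a) (c a) (u a) (v a)) :=
  PolyTime.ite (hu.lt hN)
    (((hr.mul hm).mul hm).mul ((PolyTime.cnt hP hu hv).add (ht.mul (PolyTime.cnt hQ hu hv))))
    (PolyTime.ite (hv.lt hN) hm hc)

/-- the graph of an index -/
def Gidx (P Q : List (ℕ × ℕ)) (R : ℕ) (q : ℕ × ℕ × ℕ × ℕ) : MGraph :=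
  Gq P Q (2 * R) q.1 (q.2.1 + 1) (q.2.2.1 + 2) q.2.2.2

/-- the list of queries -/
def queries (P Q : List (ℕ × ℕ)) (R : ℕ) : List MGraph := (idx R).map (Gidx P Q R)

theorem queries_ok (P Q : List (ℕ × ℕ)) (R : ℕ) (hR : 0 < R) :
    ∀ G ∈ queries P Q R, G.Valid ∧ G.Connected := by
  intro G hG
  obtain ⟨q, _, rfl⟩ := List.mem_map.1 hG
  exact ⟨Gq_valid _ _ _ _ _ _ _, Gq_connected _ _ _ _ _ _ _ (by omega) (by omega)⟩

theorem PolyTime.encGidx {α : Type*} [Enc α] {P Q : α → List (ℕ × ℕ)} {R : α → ℕ}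
    (hP : PolyTime P) (hQ : PolyTime Q) (hR : PolyTime R) :
    PolyTime (fun q : α × (ℕ × ℕ × ℕ × ℕ) => encGraph (Gidx (P q.1) (Q q.1) (R q.1) q.2)) := by
  refine PolyTime.encGr (n := fun q : α × (ℕ × ℕ × ℕ × ℕ) => 2 * R q.1 + (q.2.2.2.1 + 2))
    (W := fun q : α × (ℕ × ℕ × ℕ × ℕ) => Uni.Wq (P q.1) (Q q.1) (2 * R q.1) q.2.1 (q.2.2.1 + 1)
      (q.2.2.2.1 + 2) q.2.2.2.2) ?_ ?_
  · exact ((PolyTime.const 2).mul (hR.comp PolyTime.id.fst)).add
      (PolyTime.id.snd.snd.snd.fst.add (PolyTime.const 2))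
  · exact PolyTime.Wq (hP.comp PolyTime.id.fst.fst) (hQ.comp PolyTime.id.fst.fst)
      ((PolyTime.const 2).mul (hR.comp PolyTime.id.fst.fst)) PolyTime.id.fst.snd.fst
      PolyTime.id.fst.snd.snd.fst.succ (PolyTime.id.fst.snd.snd.snd.fst.add (PolyTime.const 2))
      PolyTime.id.fst.snd.snd.snd.snd PolyTime.id.snd.fst PolyTime.id.snd.snd

theorem PolyTime.queries {α : Type*} [Enc α] {P Q : α → List (ℕ × ℕ)} {R : α → ℕ}
    (hP : PolyTime P) (hQ : PolyTime Q) (hR : PolyTime R) :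
    PolyTime (fun a => encGraphs (Uni.queries (P a) (Q a) (R a))) := by
  have h1 := PolyTime.encGidx hP hQ hR
  refine ((PolyTime.idx hR).flatMap (f := fun a q => encGraph (Gidx (P a) (Q a) (R a) q))
    h1).congr fun a => ?_
  unfold encGraphs Uni.queries
  rw [List.flatMap_map]

theorem main_identity' (P Q : List (ℕ × ℕ)) (R : ℕ) (hR : 0 < R) :
    omSum (V := Fin (2 * R)) (fun i j => (cnt P i j : ℚ) - cnt Q i j) =
      ((idx R).map fun q => wt R q.1 q.2.1 q.2.2.1 q.2.2.2 *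
        ((Gidx P Q R q).unicyclic : ℚ)).sum := by
  rw [main_identity P Q R hR]
  exact (idx_sum R (fun t i j c => wt R t i j c *
    ((Gq P Q (2 * R) t (i + 1) (j + 2) c).unicyclic : ℚ))).symm

end Pool.Agent.Hhelper69.Uni
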