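import Mathlib
import Pool.Agent.Hhelper69.Uni.Query
import Pool.Agent.Lib.PolyTime.CookLevin
import Pool.Agent.Lib.PolyTime.ToTM2

/-!
# Counting connected unicyclic spanning subgraphs is hard for the class of counting functions
-/

namespace Pool.Agent.Hhelper69.Uni

open Pool.Agent.Lib.PT

/-- the value computed from the answers -/
def comboVal (R k e : ℕ) (vals : List ℕ) : ℚ :=
  2 ^ k / 2 ^ e * (List.zipWith (fun q (v : ℕ) => wt R q.1 q.2.1 q.2.2.1 q.2.2.2 * (v : ℚ))
    (idx R) vals).sum

theorem hard_of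
    (posE negE : List Bool → ℕ → List (ℕ × ℕ) → List (ℕ × ℕ)) (Rf : List Bool → ℕ →
      List (ℕ × ℕ) → ℕ)
    (hpos : PolyTime (fun q : List Bool × ℕ × List (ℕ × ℕ) => posE q.1 q.2.1 q.2.2))
    (hneg : PolyTime (fun q : List Bool × ℕ × List (ℕ × ℕ) => negE q.1 q.2.1 q.2.2))
    (hRf : PolyTime (fun q : List Bool × ℕ × List (ℕ × ℕ) => Rf q.1 q.2.1 q.2.2))
    (hR0 : ∀ pre k gs, 0 < Rf pre k gs)
    (hsat : ∀ (pre : List Bool) (k : ℕ) (gs : List (ℕ × ℕ)), gs ≠ [] →
      (∀ e (h : e < gs.length), gs[e].1 < pre.length + k + e ∧ gs[e].2 < pre.length + k + e) →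
      ((Nat.card {y : Fin k → Bool //
        (runNand gs (pre ++ List.ofFn y)).getLast? = some true} : ℕ) : ℚ) *
          2 ^ (2 * gs.length + 1 + Rf pre k gs) =
        2 ^ k * omSum (V := Fin (2 * Rf pre k gs)) (fun i j =>
          (cnt (posE pre k gs) i j : ℚ) - cnt (negE pre k gs) i j))
    (combo : ℕ → ℕ → ℕ → List (List Bool) → List Bool)
    (hcombo : PolyTime (fun q : ℕ × ℕ × ℕ × List (List Bool) => combo q.1 q.2.1 q.2.2.1 q.2.2.2))
    (hcv : ∀ (R k e : ℕ) (vals : List ℕ) (n : ℕ), comboVal R k e vals = n →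
      combo R k e (vals.map Nat.bits) = Nat.bits n)
    (f : List Bool → ℕ) (hf : SharpP f) :
    ∃ (Gs : List Bool → List MGraph) (A : List Bool → List (List Bool) → List Bool),
      (∀ x, ∀ G ∈ Gs x, G.Valid ∧ G.Connected) ∧
      PolyTime (fun x => encGraphs (Gs x)) ∧
      (∃ (ι : List Bool → List (ℕ × ℕ × ℕ × ℕ)) (γ : List Bool → (ℕ × ℕ × ℕ × ℕ) → MGraph),
        PolyTime ι ∧ PolyTime (fun q : List Bool × (ℕ × ℕ × ℕ × ℕ) => encGraph (γ q.1 q.2)) ∧
        ∀ x, Gs x = (ι x).map (γ x)) ∧
      PolyTime (fun q : List Bool × List (List Bool) => A q.1 q.2) ∧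
      ∀ x, A x (((Gs x).map MGraph.unicyclic).map Nat.bits) = Nat.bits (f x) := by
  obtain ⟨p, V, hV, hfx⟩ := hf
  obtain ⟨gates, hg, hv, hw⟩ := cook_levin V hV
  -- the ingredients
  set pre : List Bool → List Bool := fun x => x.flatMap (fun b => [b, b]) ++ [false, true] with hpre
  set k : List Bool → ℕ := fun x => p.eval x.length with hk
  set gs : List Bool → List (ℕ × ℕ) := fun x => gates ((pre x).length + k x) with hgs
  have Ppre : PolyTime pre := PolyTime.dbl PolyTime.id
  have Pk : PolyTime k := PolyTime.polyEval p PolyTime.id.length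
  have Pgs : PolyTime gs := hg.comp (Ppre.length.add Pk)
  set R : List Bool → ℕ := fun x => Rf (pre x) (k x) (gs x) with hR
  set P : List Bool → List (ℕ × ℕ) := fun x => posE (pre x) (k x) (gs x) with hP
  set Q : List Bool → List (ℕ × ℕ) := fun x => negE (pre x) (k x) (gs x) with hQ
  have Ptr : PolyTime (fun x => (pre x, k x, gs x)) := Ppre.pair (Pk.pair Pgs)
  have PR : PolyTime R := hRf.comp Ptr
  have PP : PolyTime P := hpos.comp Ptr
  have PQ : PolyTime Q := hneg.comp Ptr
  have hL : ∀ x, 0 < (pre x).length + k x := by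
    intro x
    simp only [hpre, List.length_append, List.length_cons, List.length_nil]
    omega
  refine ⟨fun x => queries (P x) (Q x) (R x),
    fun x vals => combo (R x) (k x) (2 * (gs x).length + 1 + R x) vals, ?_, ?_, ?_, ?_, ?_⟩
  · intro x
    exact queries_ok _ _ _ (hR0 _ _ _)
  · exact PolyTime.queries PP PQ PR
  · refine ⟨fun x => idx (R x), fun x => Gidx (P x) (Q x) (R x), PolyTime.idx PR, ?_,
      fun x => rfl⟩
    exact PolyTime.encGidx PP PQ PR
  · exact hcombo.comp ((PR.comp PolyTime.id.fst).pair ((Pk.comp PolyTime.id.fst).pair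
      (((((PolyTime.const 2).mul (Pgs.comp PolyTime.id.fst).length).add (PolyTime.const 1)).add
        (PR.comp PolyTime.id.fst)).pair PolyTime.id.snd)))
  · intro x
    apply hcv
    have h1 := hsat (pre x) (k x) (gs x) ?_ (fun e h => hv _ e (hL x) h)
    · have h2 := main_identity' (P x) (Q x) (R x) (hR0 _ _ _)
      have h3 : Nat.card {y : Fin (k x) → Bool //
          (runNand (gs x) (pre x ++ List.ofFn y)).getLast? = some true} = f x := by
        rw [hfx]
        apply Nat.card_congr
        refine Equiv.subtypeEquivRight fun y => ?_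
        have h4 : pre x ++ List.ofFn y = pairing x (List.ofFn y) := rfl
        have h5 := (hw (pre x ++ List.ofFn y) (by simp [hpre])).1
        have h6 : (pre x ++ List.ofFn y).length = (pre x).length + k x := by simp
        rw [h6] at h5
        rw [hgs]
        simp only
        rw [h5, Option.some.injEq, h4]
      rw [h3] at h1
      unfold comboVal
      have h7 : (List.zipWith (fun q (v : ℕ) => wt (R x) q.1 q.2.1 q.2.2.1 q.2.2.2 * (v : ℚ))
          (idx (R x)) ((queries (P x) (Q x) (R x)).map MGraph.unicyclic)).sum =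
          omSum (V := Fin (2 * R x)) (fun i j => (cnt (P x) i j : ℚ) - cnt (Q x) i j) := by
        rw [h2]
        congr 1
        unfold queries
        rw [List.map_map, List.zipWith_map_right, List.zipWith_self]
        rfl
      rw [h7]
      have h8 : (2 : ℚ) ^ (2 * (gs x).length + 1 + R x) ≠ 0 := by positivity
      rw [div_mul_eq_mul_div, div_eq_iff h8]
      exact h1.symm
    · have h5 := (hw (pre x ++ List.ofFn (fun _ : Fin (k x) => false)) (by simp [hpre])).2
      have h6 : (pre x ++ List.ofFn (fun _ : Fin (k x) => false)).length =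
        (pre x).length + k x := by simp
      rw [h6] at h5
      exact h5

end Pool.Agent.Hhelper69.Uni
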