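import Mathlib
import Pool.Agent.Hhelper69.Uni.Final
import Pool.Agent.Lib.PolyTime.Bin

/-!
# Polynomial-time computation of the weights
-/

namespace Pool.Agent.Hhelper69.Uni

open Pool.Agent.Lib.PT

/-- power of a fraction with unary exponent -/
def qpow (x : BQ) (n : ℕ) : BQ := qprod (List.replicate n x)

theorem qval_qpow (x : BQ) (n : ℕ) : qval (qpow x n) = qval x ^ n := by
  simp [qpow]

theorem PolyTime.qpow {α : Type*} [Enc α] {f : α → BQ} {n : α → ℕ} (hf : PolyTime f)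
    (hn : PolyTime n) : PolyTime (fun a => Uni.qpow (f a) (n a)) :=
  PolyTime.qprod (PolyTime.replicate hn hf)

/-- factorial -/
def qfac (n : ℕ) : BQ := qprod ((List.range n).map fun k => qofInt (k + 1) 0)

theorem qval_qfac (n : ℕ) : qval (qfac n) = n.factorial := by
  unfold qfac
  rw [qval_qprod, List.map_map]
  induction n with
  | zero => simp
  | succ n ih =>
    rw [List.range_succ, List.map_append, List.prod_append, ih, Nat.factorial_succ]
    simp
    ring

theorem PolyTime.qfac {α : Type*} [Enc α] {n : α → ℕ} (hn : PolyTime n) :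
    PolyTime (fun a => Uni.qfac (n a)) :=
  PolyTime.qprod (hn.range.map (f := fun _ k => qofInt (k + 1) 0)
    (PolyTime.qofInt PolyTime.id.snd.succ (PolyTime.const 0)))

/-- `lag d i (-Y)` -/
def lagQ (d i Y : ℕ) : BQ :=
  qprod (((List.range (d + 1)).filter fun j => !decide (j = i)).map fun j =>
    qdiv (qofInt 0 (Y + j)) (qofInt i j))

theorem qval_lagQ (d i Y : ℕ) : qval (lagQ d i Y) = lag d i (-(Y : ℚ)) := by
  unfold lagQ lag
  rw [qval_qprod, List.map_map]
  have h1 : (Finset.range (d + 1)).erase i =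
      ((List.range (d + 1)).filter fun j => !decide (j = i)).toFinset := by
    ext j
    simp only [Finset.mem_erase, Finset.mem_range, List.mem_toFinset, List.mem_filter,
      List.mem_range, Bool.not_eq_true', decide_eq_false_iff_not]
    tauto
  rw [h1, List.prod_toFinset]
  · congr 1
    apply List.map_congr_left
    intro j _
    simp only [Function.comp, qval_qdiv, qval_qofInt]
    push_cast
    ring
  · exact (List.nodup_range).filter _

theorem PolyTime.lagQ {α : Type*} [Enc α] {d i Y : α → ℕ} (hd : PolyTime d) (hi : PolyTime i)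
    (hY : PolyTime Y) : PolyTime (fun a => Uni.lagQ (d a) (i a) (Y a)) := by
  have h1 : PolyTime (fun q : α × ℕ => !decide (q.2 = i q.1)) :=
    (PolyTime.id.snd.eqNat (hi.comp PolyTime.id.fst)).not
  have h2 : PolyTime (fun q : α × ℕ => qdiv (qofInt 0 (Y q.1 + q.2)) (qofInt (i q.1) q.2)) :=
    PolyTime.qdiv (PolyTime.qofInt (PolyTime.const 0)
      ((hY.comp PolyTime.id.fst).add PolyTime.id.snd))
      (PolyTime.qofInt (hi.comp PolyTime.id.fst) PolyTime.id.snd)
  exact PolyTime.qprod ((hd.succ.range.filter (f := fun a j => !decide (j = i a)) h1).map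
    (f := fun a j => qdiv (qofInt 0 (Y a + j)) (qofInt (i a) j)) h2)

/-- `texp n (-N)` -/
def texpQ (n N : ℕ) : BQ :=
  qsum ((List.range (n + 1)).map fun l => qdiv (qpow (qofInt 0 N) l) (qfac l))

theorem qval_texpQ (n N : ℕ) : qval (texpQ n N) = texp n (-(N : ℚ)) := by
  unfold texpQ texp
  rw [qval_qsum, List.map_map, ← list_sum_range]
  congr 1
  apply List.map_congr_left
  intro j _
  simp [qval_qpow, qval_qfac]

theorem PolyTime.texpQ {α : Type*} [Enc α] {n N : α → ℕ} (hn : PolyTime n) (hN : PolyTime N) :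
    PolyTime (fun a => Uni.texpQ (n a) (N a)) := by
  have h2 : PolyTime (fun q : α × ℕ => qdiv (Uni.qpow (qofInt 0 (N q.1)) q.2) (Uni.qfac q.2)) :=
    PolyTime.qdiv (PolyTime.qpow (PolyTime.qofInt (PolyTime.const 0) (hN.comp PolyTime.id.fst))
      PolyTime.id.snd) (PolyTime.qfac PolyTime.id.snd)
  exact PolyTime.qsum (hn.succ.range.map
    (f := fun a l => qdiv (Uni.qpow (qofInt 0 (N a)) l) (Uni.qfac l)) h2)

/-- `lam N i` -/
def lamQ (N i : ℕ) : BQ := qmul (qdiv (qpow (qofInt N 0) i) (qfac i)) (texpQ (N - i) N)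

theorem qval_lamQ (N i : ℕ) : qval (lamQ N i) = lam N i := by
  simp [lamQ, lam, qval_qpow, qval_qfac, qval_texpQ]

theorem PolyTime.lamQ {α : Type*} [Enc α] {N i : α → ℕ} (hN : PolyTime N) (hi : PolyTime i) :
    PolyTime (fun a => Uni.lamQ (N a) (i a)) :=
  PolyTime.qmul (PolyTime.qdiv (PolyTime.qpow (PolyTime.qofInt hN (PolyTime.const 0)) hi)
    (PolyTime.qfac hi)) (PolyTime.texpQ (hN.sub hi) hN)

/-- `wM N i` -/
def wMQ (N i : ℕ) : BQ :=
  qadd (if i ≤ N then lamQ N i else qofInt 0 0) (qmul (lamQ N 0) (lagQ N (i - 1) 1))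

theorem qval_wMQ (N i : ℕ) : qval (wMQ N i) = wM N i := by
  unfold wMQ wM
  rw [qval_qadd, qval_qmul, qval_lamQ, qval_lagQ]
  split_ifs
  · rw [qval_lamQ]; simp
  · simp

theorem PolyTime.wMQ {α : Type*} [Enc α] {N i : α → ℕ} (hN : PolyTime N) (hi : PolyTime i) :
    PolyTime (fun a => Uni.wMQ (N a) (i a)) :=
  PolyTime.qadd (PolyTime.ite (hi.le hN) (PolyTime.lamQ hN hi) (PolyTime.const _))
    (PolyTime.qmul (PolyTime.lamQ hN (PolyTime.const 0))
      (PolyTime.lagQ hN hi.pred (PolyTime.const 1)))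

/-- the weights -/
def wtQ (R t i j c : ℕ) : BQ :=
  qmul (qmul (qmul (qmul (lagQ R t 1) (qmul (qpow (qofInt 0 1) R)
    (qdiv (lagQ R i 1) (qpow (qofInt (i + 1) 0) R)))) (wMQ (2 * R) (j + 2)))
    (qdiv (qofInt 0 1) (qmul (qfac j) (qmul (qpow (qofInt 0 (2 * R)) (j + 2))
      (qpow (qofInt (j + 2) 0) (2 * (2 * R)))))))
    (qmul (qofInt 2 0) (lagQ (j + 2) c (2 * R)))

theorem qval_wtQ (R t i j c : ℕ) : qval (wtQ R t i j c) = wt R t i j c := by
  unfold wtQ wt
  simp only [qval_qmul, qval_qdiv, qval_qpow, qval_qfac, qval_lagQ, qval_wMQ, qval_qofInt]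
  push_cast
  simp

theorem PolyTime.wtQ {α : Type*} [Enc α] {R t i j c : α → ℕ} (hR : PolyTime R) (ht : PolyTime t)
    (hi : PolyTime i) (hj : PolyTime j) (hc : PolyTime c) :
    PolyTime (fun a => Uni.wtQ (R a) (t a) (i a) (j a) (c a)) := by
  have h2R : PolyTime (fun a => 2 * R a) := (PolyTime.const 2).mul hR
  have hj2 : PolyTime (fun a => j a + 2) := hj.add (PolyTime.const 2)
  refine PolyTime.qmul (PolyTime.qmul (PolyTime.qmul (PolyTime.qmul ?_ (PolyTime.qmul ?_
    (PolyTime.qdiv ?_ ?_))) ?_) (PolyTime.qdiv (PolyTime.const _) (PolyTime.qmul ?_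
      (PolyTime.qmul ?_ ?_)))) (PolyTime.qmul (PolyTime.const _) ?_)
  · exact PolyTime.lagQ hR ht (PolyTime.const 1)
  · exact PolyTime.qpow (PolyTime.const _) hR
  · exact PolyTime.lagQ hR hi (PolyTime.const 1)
  · exact PolyTime.qpow (PolyTime.qofInt hi.succ (PolyTime.const 0)) hR
  · exact PolyTime.wMQ h2R hj2
  · exact PolyTime.qfac hj
  · exact PolyTime.qpow (PolyTime.qofInt (PolyTime.const 0) h2R) hj2
  · exact PolyTime.qpow (PolyTime.qofInt hj2 (PolyTime.const 0)) ((PolyTime.const 2).mul h2R)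
  · exact PolyTime.lagQ hj2 hc h2R

/-- combination of the answers -/
def comboB (R k e : ℕ) (vals : List (List Bool)) : List Bool :=
  bnorm (qtoNat (qmul (qdiv (qpow (qofInt 2 0) k) (qpow (qofInt 2 0) e))
    (qsum (List.zipWith (fun q v => qmul (wtQ R q.1 q.2.1 q.2.2.1 q.2.2.2) (qofNat v))
      (idx R) vals))))

theorem comboB_spec (R k e : ℕ) (vals : List ℕ) (n : ℕ) (h : comboVal R k e vals = n) :
    comboB R k e (vals.map Nat.bits) = Nat.bits n := by
  unfold comboB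
  apply bnorm_qtoNat
  rw [← h, comboVal, qval_qmul, qval_qdiv, qval_qpow, qval_qpow, qval_qsum, qval_qofInt]
  congr 1
  · norm_num
  · congr 1
    rw [List.zipWith_map_right, List.map_zipWith]
    congr 1
    funext q v
    rw [qval_qmul, qval_wtQ, qval_qofNat, bval_bits]

theorem PolyTime.comboB : PolyTime (fun q : ℕ × ℕ × ℕ × List (List Bool) =>
    Uni.comboB q.1 q.2.1 q.2.2.1 q.2.2.2) := by
  have h1 : PolyTime (fun q : (ℕ × ℕ × ℕ × List (List Bool)) × (ℕ × ℕ × ℕ × ℕ) × List Bool =>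
      qmul (Uni.wtQ q.1.1 q.2.1.1 q.2.1.2.1 q.2.1.2.2.1 q.2.1.2.2.2) (qofNat q.2.2)) :=
    PolyTime.qmul (PolyTime.wtQ PolyTime.id.fst.fst PolyTime.id.snd.fst.fst
      PolyTime.id.snd.fst.snd.fst PolyTime.id.snd.fst.snd.snd.fst
      PolyTime.id.snd.fst.snd.snd.snd) (PolyTime.qofNat PolyTime.id.snd.snd)
  have h2 : PolyTime (fun q : ℕ × ℕ × ℕ × List (List Bool) =>
      List.zipWith (fun (p : ℕ × ℕ × ℕ × ℕ) v => qmul (Uni.wtQ q.1 p.1 p.2.1 p.2.2.1 p.2.2.2)
        (qofNat v)) (Uni.idx q.1) q.2.2.2) :=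
    PolyTime.zipWith (f := fun (q : ℕ × ℕ × ℕ × List (List Bool)) (p : ℕ × ℕ × ℕ × ℕ) v =>
      qmul (Uni.wtQ q.1 p.1 p.2.1 p.2.2.1 p.2.2.2) (qofNat v))
      (PolyTime.idx PolyTime.id.fst) PolyTime.id.snd.snd.snd h1
  exact PolyTime.bnorm (PolyTime.qtoNat (PolyTime.qmul (PolyTime.qdiv
    (PolyTime.qpow (PolyTime.const _) PolyTime.id.snd.fst)
    (PolyTime.qpow (PolyTime.const _) PolyTime.id.snd.snd.fst)) (PolyTime.qsum h2)))

end Pool.Agent.Hhelper69.Uni
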