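import Mathlib
import Pool.Agent.Hhelper69.Uni.Weights
import Pool.Agent.Lib.PolyTime.FromTM2

/-!
# From the typed reduction to Turing machines
-/

namespace Pool.Agent.Hhelper69.Uni

open Pool.Agent.Lib.PT

/-- `f` reduces to the unicyclic count by a non-adaptive polynomial-time reduction -/
def ReducesTT (f : List Bool → ℕ) : Prop :=
  ∃ (Gs : List Bool → List MGraph) (A : List Bool → List (List Bool) → List Bool),
      (∀ x, ∀ G ∈ Gs x, G.Valid ∧ G.Connected) ∧
      PolyTime (fun x => encGraphs (Gs x)) ∧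
      (∃ (ι : List Bool → List (ℕ × ℕ × ℕ × ℕ)) (γ : List Bool → (ℕ × ℕ × ℕ × ℕ) → MGraph),
        PolyTime ι ∧ PolyTime (fun q : List Bool × (ℕ × ℕ × ℕ × ℕ) => encGraph (γ q.1 q.2)) ∧
        ∀ x, Gs x = (ι x).map (γ x)) ∧
      PolyTime (fun q : List Bool × List (List Bool) => A q.1 q.2) ∧
      ∀ x, A x (((Gs x).map MGraph.unicyclic).map Nat.bits) = Nat.bits (f x)

theorem ReducesTT.tm {f : List Bool → ℕ} (h : ReducesTT f) :
    ∃ Q A : List Bool → List Bool, FP Q ∧ FP A ∧ ∀ x, ∃ Gs : List MGraph,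
      (∀ G ∈ Gs, G.Valid ∧ G.Connected) ∧ Q x = encGraphs Gs ∧
      A (pairing x (encNats (Gs.map MGraph.unicyclic))) = Nat.bits (f x) := by
  obtain ⟨Gs, A, hG, hQ, _, hA, hf⟩ := h
  refine ⟨fun x => encGraphs (Gs x), fun s => A (unpair s).1 (parseNats (unpair s).2),
    ToTM2.polyTime_toTM2 _ hQ, ToTM2.polyTime_toTM2 _ ?_, fun x => ⟨Gs x, hG x, rfl, ?_⟩⟩
  · have h1 : PolyTime (fun s : List Bool => unpair s) := PolyTime.unpair PolyTime.id
    exact hA.comp (h1.fst.pair (PolyTime.parseNats h1.snd))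
  · simp only [unpair_pairing, parseNats_encNats]
    exact hf x

theorem ReducesTT.fp {f : List Bool → ℕ} (h : ReducesTT f) {U : List Bool → List Bool}
    (hU : FP U) (hUG : ∀ G : MGraph, G.Valid → G.Connected →
      U (encGraph G) = Nat.bits G.unicyclic) : FP (fun x => Nat.bits (f x)) := by
  obtain ⟨Gs, A, hG, _, ⟨ι, γ, hι, hγ, hGs⟩, hA, hf⟩ := h
  have pU : PolyTime U := polyTime_of_TM2 U hU
  apply ToTM2.polyTime_toTM2
  have h1 : PolyTime (fun x : List Bool => (ι x).map (fun q => U (encGraph (γ x q)))) :=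
    hι.map (f := fun x q => U (encGraph (γ x q))) (pU.comp hγ)
  have h2 : PolyTime (fun x : List Bool => A x ((ι x).map (fun q => U (encGraph (γ x q))))) :=
    hA.comp (PolyTime.id.pair h1)
  refine h2.congr fun x => ?_
  rw [← hf x]
  congr 1
  rw [hGs x, List.map_map, List.map_map]
  apply List.map_congr_left
  intro q hq
  have hq' : γ x q ∈ Gs x := by rw [hGs x]; exact List.mem_map_of_mem hq
  obtain ⟨h3, h4⟩ := hG x _ hq'
  exact hUG _ h3 h4

end Pool.Agent.Hhelper69.Uni
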