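import Mathlib
import Pool.Agent.Hhelper69.Uni.Copies
import Pool.Agent.Lib.PolyTime.CellCircuit

/-!
# Linear forms for NAND circuits
-/

set_option autoImplicit false
set_option linter.unusedSectionVars false

namespace Pool.Agent.Hhelper69.Uni.Sat

open Finset
open Pool.Agent.Lib.PT (runNand length_runNand getD_runNand runNand_append)

/-- A linear form in the signs, as a list of signed variables. -/
abbrev Form : Type := List (Bool × ℕ)

/-- value of a form -/
def fval (z : ℕ → Bool) (fm : Form) : ℚ := (fm.map fun p => sg p.1 * sg (z p.2)).sum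

/-- coefficient of a variable in a form -/
def coef (fm : Form) (v : ℕ) : ℚ := (fm.count (true, v) : ℚ) - fm.count (false, v)

/-- forms of a gate with output wire `m` -/
def gateForms (x0 m : ℕ) (g : ℕ × ℕ) : List Form :=
  [[(false, m)],
   [(true, g.1), (true, g.2), (false, m), (false, x0)],
   [(true, g.1), (true, g.2), (true, m), (true, x0), (true, x0), (true, x0)],
   [(true, x0)]]

/-- forms fixing the wire `i` -/
def fixForms (x0 i : ℕ) (b : Bool) : List Form := [[(b, i), (true, x0)], [(true, x0)]]

/-- all forms -/
def forms (pre : List Bool) (k : ℕ) (gs : List (ℕ × ℕ)) : List Form :=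
  ((List.range gs.length).zip gs).flatMap (fun p =>
    gateForms (pre.length + k + gs.length) (pre.length + k + p.1) p.2) ++
  (((List.range pre.length).zip pre).flatMap (fun p =>
    fixForms (pre.length + k + gs.length) p.1 p.2) ++
  fixForms (pre.length + k + gs.length) (pre.length + k + gs.length - 1) true)

/-- recursive version -/
def gF (x0 : ℕ) : ℕ → List (ℕ × ℕ) → List Form
  | _, [] => []
  | m, g :: gs => gateForms x0 m g ++ gF x0 (m + 1) gs

/-- recursive version -/
def pF (x0 : ℕ) : ℕ → List Bool → List Form
  | _, [] => []
  | i, b :: l => fixForms x0 i b ++ pF x0 (i + 1) l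

theorem gF_eq (x0 n s : ℕ) (gs : List (ℕ × ℕ)) :
    ((List.range' s gs.length).zip gs).flatMap (fun p => gateForms x0 (n + p.1) p.2) =
      gF x0 (n + s) gs := by
  induction gs generalizing s with
  | nil => rfl
  | cons g gs ih =>
    rw [List.length_cons, List.range'_succ, List.zip_cons_cons, List.flatMap_cons, ih]
    rfl

theorem pF_eq (x0 s : ℕ) (l : List Bool) :
    ((List.range' s l.length).zip l).flatMap (fun p => fixForms x0 p.1 p.2) = pF x0 s l := by
  induction l generalizing s with
  | nil => rfl
  | cons g gs ih =>
    rw [List.length_cons, List.range'_succ, List.zip_cons_cons, List.flatMap_cons, ih]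
    rfl

theorem forms_eq (pre : List Bool) (k : ℕ) (gs : List (ℕ × ℕ)) :
    forms pre k gs = gF (pre.length + k + gs.length) (pre.length + k) gs ++
      (pF (pre.length + k + gs.length) 0 pre ++
        fixForms (pre.length + k + gs.length) (pre.length + k + gs.length - 1) true) := by
  rw [forms, List.range_eq_range', List.range_eq_range', gF_eq, pF_eq, Nat.add_zero]

theorem length_gF (x0 m : ℕ) (gs : List (ℕ × ℕ)) : (gF x0 m gs).length = 4 * gs.length := by
  induction gs generalizing m with
  | nil => rfl
  | cons g gs ih => simp [gF, gateForms, ih]; omega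

theorem length_pF (x0 i : ℕ) (l : List Bool) : (pF x0 i l).length = 2 * l.length := by
  induction l generalizing i with
  | nil => rfl
  | cons g gs ih => simp [pF, fixForms, ih]; omega

theorem length_forms (pre : List Bool) (k : ℕ) (gs : List (ℕ × ℕ)) :
    (forms pre k gs).length = 4 * gs.length + 2 * pre.length + 2 := by
  rw [forms_eq]
  simp [length_gF, length_pF, fixForms]
  omega

/-- consistency of wires with gates -/
def Cons (z : ℕ → Bool) : ℕ → List (ℕ × ℕ) → Prop
  | _, [] => True
  | m, g :: gs => z m = (!(z g.1 && z g.2)) ∧ Cons z (m + 1) gs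

/-- consistency of wires with a prefix -/
def POk (z : ℕ → Bool) : ℕ → List Bool → Prop
  | _, [] => True
  | i, b :: l => z i = b ∧ POk z (i + 1) l

instance (z : ℕ → Bool) (m : ℕ) (gs : List (ℕ × ℕ)) : Decidable (Cons z m gs) := by
  induction gs generalizing m with
  | nil => exact instDecidableTrue
  | cons g gs ih =>
    have := ih (m + 1)
    exact instDecidableAnd

instance (z : ℕ → Bool) (i : ℕ) (l : List Bool) : Decidable (POk z i l) := by
  induction l generalizing i with
  | nil => exact instDecidableTrue
  | cons b l ih =>
    have := ih (i + 1)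
    exact instDecidableAnd

theorem prod_gF {z : ℕ → Bool} {x0 : ℕ} (h0 : z x0 = true) (m : ℕ) (gs : List (ℕ × ℕ)) :
    ((gF x0 m gs).map (fval z)).prod = if Cons z m gs then 8 ^ gs.length else 0 := by
  classical
  induction gs generalizing m with
  | nil => simp [gF, Cons]
  | cons g gs ih =>
    obtain ⟨a, b⟩ := g
    rw [gF, List.map_append, List.prod_append, ih]
    have h1 : ((gateForms x0 m (a, b)).map (fval z)).prod =
        if z m = (!(z a && z b)) then 8 else 0 := by
      simp only [gateForms, fval, List.map_cons, List.map_nil, List.sum_cons, List.sum_nil,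
        List.prod_cons, List.prod_nil, h0]
      cases z a <;> cases z b <;> cases z m <;> norm_num [sg]
    rw [h1]
    by_cases h2 : z m = (!(z a && z b))
    · by_cases h3 : Cons z (m + 1) gs
      · rw [if_pos h2, if_pos h3, if_pos (show Cons z m ((a, b) :: gs) from ⟨h2, h3⟩),
          List.length_cons, pow_succ, mul_comm]
      · rw [if_neg h3, mul_zero, if_neg (fun h => h3 h.2)]
    · rw [if_neg h2, zero_mul, if_neg (fun h => h2 h.1)]

theorem prod_fix {z : ℕ → Bool} {x0 : ℕ} (h0 : z x0 = true) (i : ℕ) (b : Bool) :
    ((fixForms x0 i b).map (fval z)).prod = if z i = b then 2 else 0 := by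
  simp only [fixForms, fval, List.map_cons, List.map_nil, List.sum_cons, List.sum_nil,
    List.prod_cons, List.prod_nil, h0]
  cases z i <;> cases b <;> norm_num [sg]

theorem prod_pF {z : ℕ → Bool} {x0 : ℕ} (h0 : z x0 = true) (i : ℕ) (l : List Bool) :
    ((pF x0 i l).map (fval z)).prod = if POk z i l then 2 ^ l.length else 0 := by
  classical
  induction l generalizing i with
  | nil => simp [pF, POk]
  | cons b l ih =>
    rw [pF, List.map_append, List.prod_append, ih, prod_fix h0]
    by_cases h2 : z i = b
    · by_cases h3 : POk z (i + 1) l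
      · rw [if_pos h2, if_pos h3, if_pos (show POk z i (b :: l) from ⟨h2, h3⟩),
          List.length_cons, pow_succ, mul_comm]
      · rw [if_neg h3, mul_zero, if_neg (fun h => h3 h.2)]
    · rw [if_neg h2, zero_mul, if_neg (fun h => h2 h.1)]

/-- consistency of all wires -/
def Ok (pre : List Bool) (k : ℕ) (gs : List (ℕ × ℕ)) (z : ℕ → Bool) : Prop :=
  Cons z (pre.length + k) gs ∧ POk z 0 pre ∧ z (pre.length + k + gs.length - 1) = true

instance (pre : List Bool) (k : ℕ) (gs : List (ℕ × ℕ)) (z : ℕ → Bool) :
    Decidable (Ok pre k gs z) := instDecidableAnd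

theorem prod_forms (pre : List Bool) (k : ℕ) (gs : List (ℕ × ℕ)) {z : ℕ → Bool}
    (h0 : z (pre.length + k + gs.length) = true) :
    ((forms pre k gs).map (fval z)).prod =
      if Ok pre k gs z then 2 ^ (3 * gs.length + pre.length + 1) else 0 := by
  rw [forms_eq, List.map_append, List.prod_append, List.map_append, List.prod_append,
    prod_gF h0, prod_pF h0, prod_fix h0]
  by_cases h1 : Cons z (pre.length + k) gs
  · by_cases h2 : POk z 0 pre
    · by_cases h3 : z (pre.length + k + gs.length - 1) = true
      · rw [if_pos h1, if_pos h2, if_pos h3, if_pos (show Ok pre k gs z from ⟨h1, h2, h3⟩)]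
        rw [show (8 : ℚ) = 2 ^ 3 by norm_num, ← pow_mul, pow_add, pow_add]
        ring
      · rw [if_neg h3, if_neg (fun h : Ok pre k gs z => h3 h.2.2)]
        ring
    · rw [if_neg h2, if_neg (fun h : Ok pre k gs z => h2 h.2.1)]
      ring
  · rw [if_neg h1, if_neg (fun h : Ok pre k gs z => h1 h.1)]
    ring

/-! ### Relation with `runNand` -/

theorem getD_map_range (z : ℕ → Bool) {m i : ℕ} (h : i < m) :
    ((List.range m).map z).getD i false = z i := by
  rw [List.getD_eq_getElem _ _ (by simpa using h)]
  simp

/-- indices of the gates are in range -/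
def InRange : ℕ → List (ℕ × ℕ) → Prop
  | _, [] => True
  | m, g :: gs => (g.1 < m ∧ g.2 < m) ∧ InRange (m + 1) gs

theorem inRange_of {m : ℕ} {gs : List (ℕ × ℕ)}
    (h : ∀ e (he : e < gs.length), gs[e].1 < m + e ∧ gs[e].2 < m + e) : InRange m gs := by
  induction gs generalizing m with
  | nil => trivial
  | cons g gs ih =>
    refine ⟨h 0 (Nat.succ_pos _), ih fun e he => ?_⟩
    have := h (e + 1) (by simpa using he)
    simp only [List.getElem_cons_succ] at this
    omega

theorem cons_iff (z : ℕ → Bool) (m : ℕ) (gs : List (ℕ × ℕ)) (h : InRange m gs) :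
    Cons z m gs ↔ runNand gs ((List.range m).map z) = (List.range (m + gs.length)).map z := by
  induction gs generalizing m with
  | nil => simp [Cons, runNand]
  | cons g gs ih =>
    obtain ⟨a, b⟩ := g
    obtain ⟨⟨ha, hb⟩, h2⟩ := h
    simp only [Cons, runNand]
    simp only at ha hb
    rw [getD_map_range z ha, getD_map_range z hb]
    have hlen : m + ((a, b) :: gs).length = m + 1 + gs.length := by
      rw [List.length_cons]; omega
    rw [hlen]
    constructor
    · rintro ⟨h3, h4⟩
      rw [← h3, ← (ih (m + 1) h2).mp h4, List.range_succ, List.map_append]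
      rfl
    · intro h3
      have h4 : z m = (!(z a && z b)) := by
        have h5 : (runNand gs ((List.range m).map z ++ [!(z a && z b)])).getD m false =
          ((List.range (m + 1 + gs.length)).map z).getD m false := by rw [h3]
        rw [getD_map_range z (by omega), getD_runNand _ _ (by simp)] at h5
        rw [← h5, List.getD_append_right _ _ _ _ (by simp)]
        simp
      refine ⟨h4, (ih (m + 1) h2).mpr ?_⟩
      rw [← h3, ← h4, List.range_succ, List.map_append]
      rfl

theorem pOk_iff (z : ℕ → Bool) (i : ℕ) (l : List Bool) :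
    POk z i l ↔ ∀ j (h : j < l.length), z (i + j) = l[j] := by
  induction l generalizing i with
  | nil => simp [POk]
  | cons b l ih =>
    simp only [POk, ih]
    constructor
    · rintro ⟨h1, h2⟩ j hj
      cases j with
      | zero => simpa using h1
      | succ j =>
        have := h2 j (by simpa using hj)
        rw [List.getElem_cons_succ, ← this]
        congr 1
        omega
    · intro h
      refine ⟨h 0 (Nat.succ_pos _), fun j hj => ?_⟩
      have := h (j + 1) (by simpa using hj)
      rw [List.getElem_cons_succ] at this
      rw [← this]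
      congr 1
      omega

/-- extension of an assignment of `Fin m` -/
def ext' {m : ℕ} (y : Fin m → Bool) (i : ℕ) : Bool := if h : i < m then y ⟨i, h⟩ else false

theorem ext'_apply {m : ℕ} (y : Fin m → Bool) (i : Fin m) : ext' y i = y i := by
  simp [ext']

open Classical in
theorem card_ok (pre : List Bool) (k : ℕ) (gs : List (ℕ × ℕ)) (hgs : gs ≠ [])
    (hv : InRange (pre.length + k) gs) :
    (Finset.univ.filter fun y : Fin (pre.length + k + gs.length + 1) → Bool =>
      y (Fin.last _) = true ∧ Ok pre k gs (ext' y)).card =
    Fintype.card {y : Fin k → Bool //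
      (runNand gs (pre ++ List.ofFn y)).getLast? = some true} := by
  rw [Fintype.card_subtype]
  set L := pre.length with hL
  set g := gs.length with hg
  have hg0 : 0 < g := List.length_pos_iff.mpr hgs
  have hlen : ∀ u : Fin k → Bool, (runNand gs (pre ++ List.ofFn u)).length = L + k + g := by
    intro u
    rw [length_runNand]; simp [hL, hg]
  -- prefix
  have hpre : ∀ z : ℕ → Bool, POk z 0 pre → ∀ u : Fin k → Bool, (∀ i : Fin k, z (L + i) = u i) →
      (List.range (L + k)).map z = pre ++ List.ofFn u := by
    intro z hz u hu
    rw [pOk_iff] at hz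
    apply List.ext_getElem
    · simp [hL]
    · intro i h1 h2
      simp only [List.length_map, List.length_range] at h1
      rw [List.getElem_map, List.getElem_range]
      by_cases h3 : i < L
      · rw [List.getElem_append_left h3]
        simpa using hz i h3
      · rw [List.getElem_append_right (by omega)]
        have h4 : i - L < k := by omega
        have := hu ⟨i - L, h4⟩
        simp only at this
        rw [show L + (i - L) = i by omega] at this
        rw [this, List.getElem_ofFn]
  refine Finset.card_bij'
    (fun (y : Fin (L + k + g + 1) → Bool) _ => fun i : Fin k => y ⟨L + i, by omega⟩)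
    (fun (u : Fin k → Bool) _ => fun i : Fin (L + k + g + 1) => if (i : ℕ) < L + k + g then
      (runNand gs (pre ++ List.ofFn u)).getD i false else true) ?_ ?_ ?_ ?_
  · intro y hy
    rw [Finset.mem_filter] at hy ⊢
    obtain ⟨-, hy1, hy2, hy3, hy4⟩ := hy
    refine ⟨Finset.mem_univ _, ?_⟩
    have h1 := hpre (ext' y) hy3 (fun i : Fin k => y ⟨L + i, by omega⟩) (fun i => by
      rw [ext', dif_pos (by omega)])
    rw [cons_iff _ _ _ hv] at hy2
    rw [h1] at hy2
    rw [hy2, List.getLast?_eq_getElem?]
    simp only [List.length_map, List.length_range]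
    rw [List.getElem?_map, List.getElem?_range (by omega)]
    simp only [Option.map_some]
    rw [hy4]
  · intro u hu
    rw [Finset.mem_filter] at hu ⊢
    refine ⟨Finset.mem_univ _, by simp, ?_⟩
    set y : Fin (L + k + g + 1) → Bool := fun i => if (i : ℕ) < L + k + g then
      (runNand gs (pre ++ List.ofFn u)).getD i false else true with hy
    have hval : ∀ i, i < L + k + g → ext' y i = (runNand gs (pre ++ List.ofFn u)).getD i false := by
      intro i hi
      rw [ext', dif_pos (by omega), hy]
      simp [hi]
    have hval' : ∀ i, i < L + k → ext' y i = (pre ++ List.ofFn u).getD i false := by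
      intro i hi
      rw [hval i (by omega), getD_runNand _ _ (by simp [← hL]; omega)]
    have h1 : (List.range (L + k)).map (ext' y) = pre ++ List.ofFn u := by
      apply List.ext_getElem
      · simp [hL]
      · intro i h1 h2
        simp only [List.length_map, List.length_range] at h1
        rw [List.getElem_map, List.getElem_range, hval' i h1, List.getD_eq_getElem _ _ h2]
    refine ⟨?_, ?_, ?_⟩
    · rw [cons_iff _ _ _ hv, h1]
      apply List.ext_getElem
      · rw [hlen]; simp [hg]
      · intro i h2 h3
        rw [hlen] at h2
        rw [List.getElem_map, List.getElem_range, hval i h2, List.getD_eq_getElem]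
    · rw [pOk_iff]
      intro j hj
      rw [Nat.zero_add, hval' j (by omega), List.getD_append _ _ _ _ hj,
        List.getD_eq_getElem _ _ hj]
    · rw [hval _ (by omega)]
      have h5 := hu.2
      rw [List.getLast?_eq_getElem?, hlen, List.getElem?_eq_getElem (by rw [hlen]; omega)] at h5
      rw [List.getD_eq_getElem _ _ (by rw [hlen]; omega)]
      exact Option.some.inj h5
  · intro y hy
    rw [Finset.mem_filter] at hy
    obtain ⟨-, hy1, hy2, hy3, hy4⟩ := hy
    have h1 := hpre (ext' y) hy3 (fun i : Fin k => y ⟨L + i, by omega⟩) (fun i => by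
      rw [ext', dif_pos (by omega)])
    rw [cons_iff _ _ _ hv] at hy2
    rw [h1] at hy2
    funext i
    by_cases hi : (i : ℕ) < L + k + g
    · simp only [hi, if_true]
      rw [hy2, getD_map_range _ hi, ext'_apply]
    · simp only [hi, if_false]
      have : i = Fin.last _ := Fin.ext (by simp; omega)
      rw [this, hy1]
  · intro u hu
    funext i
    have hi : L + (i : ℕ) < L + k + g := by omega
    simp only [hi, if_true]
    rw [getD_runNand _ _ (by simp [← hL]), List.getD_append_right _ _ _ _ (by omega),
      show L + (i : ℕ) - pre.length = i by omega, List.getD_eq_getElem _ _ (by simp)]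
    simp

/-! ### Coefficients -/

theorem fval_eq {m : ℕ} (y : Fin m → Bool) (fm : Form) (h : ∀ p ∈ fm, p.2 < m) :
    fval (ext' y) fm = ∑ v : Fin m, coef fm v * sg (y v) := by
  induction fm with
  | nil => simp [fval, coef]
  | cons p fm ih =>
    have h1 : fval (ext' y) (p :: fm) = sg p.1 * sg (ext' y p.2) + fval (ext' y) fm := by
      simp [fval]
    have hp := h p (by simp)
    rw [h1, ih (fun q hq => h q (by simp [hq]))]
    have h2 : ∀ v : Fin m, coef (p :: fm) v = (if (v : ℕ) = p.2 then sg p.1 else 0) + coef fm v := by
      intro v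
      obtain ⟨b, w⟩ := p
      simp only [coef, List.count_cons]
      by_cases hvw : (v : ℕ) = w
      · subst hvw
        cases b <;> simp [sg] <;> ring
      · have hne : ¬ (w = (v : ℕ)) := fun h => hvw h.symm
        simp [hvw, hne]
    have h3 : ∀ v : Fin m, coef (p :: fm) v * sg (y v) =
        (if (v : ℕ) = p.2 then sg p.1 else 0) * sg (y v) + coef fm v * sg (y v) := by
      intro v
      rw [h2 v, add_mul]
    rw [Finset.sum_congr rfl (fun v _ => h3 v), Finset.sum_add_distrib]
    congr 1
    rw [Finset.sum_eq_single (⟨p.2, hp⟩ : Fin m)]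
    · simp only [if_true]
      rw [ext', dif_pos hp]
    · intro v _ hv
      rw [if_neg (fun h' => hv (Fin.ext h')), zero_mul]
    · simp

theorem mem_gF {x0 m : ℕ} {gs : List (ℕ × ℕ)} (hv : InRange m gs) (hx0 : m + gs.length ≤ x0) :
    ∀ fm ∈ gF x0 m gs, ∀ p ∈ fm, p.2 < x0 + 1 := by
  induction gs generalizing m with
  | nil => simp [gF]
  | cons g gs ih =>
    intro fm hfm p hp
    rw [gF, List.mem_append] at hfm
    rw [List.length_cons] at hx0
    rcases hfm with hfm | hfm
    · have h1 := hv.1
      simp only [gateForms, List.mem_cons, List.not_mem_nil, or_false] at hfm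
      rcases hfm with rfl | rfl | rfl | rfl <;>
        simp only [List.mem_cons, List.not_mem_nil, or_false] at hp
      · subst hp; simp only; omega
      · rcases hp with rfl | rfl | rfl | rfl <;> simp only <;> omega
      · rcases hp with rfl | rfl | rfl | rfl | rfl | rfl <;> simp only <;> omega
      · subst hp; simp only; omega
    · exact ih hv.2 (by omega) fm hfm p hp

theorem mem_pF {x0 i : ℕ} {l : List Bool} (hx0 : i + l.length ≤ x0) :
    ∀ fm ∈ pF x0 i l, ∀ p ∈ fm, p.2 < x0 + 1 := by
  induction l generalizing i with
  | nil => simp [pF]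
  | cons b l ih =>
    intro fm hfm p hp
    rw [pF, List.mem_append] at hfm
    rw [List.length_cons] at hx0
    rcases hfm with hfm | hfm
    · simp only [fixForms, List.mem_cons, List.not_mem_nil, or_false] at hfm
      rcases hfm with rfl | rfl <;>
        simp only [List.mem_cons, List.not_mem_nil, or_false] at hp
      · rcases hp with rfl | rfl <;> simp only <;> omega
      · subst hp; simp only; omega
    · exact ih (by omega) fm hfm p hp

theorem mem_forms (pre : List Bool) (k : ℕ) (gs : List (ℕ × ℕ))
    (hv : InRange (pre.length + k) gs) :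
    ∀ fm ∈ forms pre k gs, ∀ p ∈ fm, p.2 < pre.length + k + gs.length + 1 := by
  intro fm hfm p hp
  rw [forms_eq, List.mem_append, List.mem_append] at hfm
  rcases hfm with hfm | hfm | hfm
  · exact mem_gF hv le_rfl fm hfm p hp
  · exact mem_pF (by omega) fm hfm p hp
  · simp only [fixForms, List.mem_cons, List.not_mem_nil, or_false] at hfm
    rcases hfm with rfl | rfl <;>
      simp only [List.mem_cons, List.not_mem_nil, or_false] at hp
    · rcases hp with rfl | rfl <;> simp only <;> omega
    · subst hp; simp only; omega

/-- coefficient matrix -/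
def CM (pre : List Bool) (k : ℕ) (gs : List (ℕ × ℕ)) (m : ℕ)
    (j : Fin (forms pre k gs).length) (v : Fin m) : ℚ := coef ((forms pre k gs)[(j : ℕ)]) v

theorem prod_CM (pre : List Bool) (k : ℕ) (gs : List (ℕ × ℕ))
    (hv : InRange (pre.length + k) gs) (y : Fin (pre.length + k + gs.length + 1) → Bool) :
    ∏ j, (∑ v, CM pre k gs _ j v * sg (y v)) = ((forms pre k gs).map (fval (ext' y))).prod := by
  rw [← Fin.prod_univ_fun_getElem]
  apply Finset.prod_congr rfl
  intro j _
  rw [fval_eq y _ (mem_forms pre k gs hv _ (List.getElem_mem _))]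
  rfl

open Classical in
/-- sum over all signs -/
theorem sum_CM (pre : List Bool) (k : ℕ) (gs : List (ℕ × ℕ)) (hgs : gs ≠ [])
    (hv : InRange (pre.length + k) gs) :
    ∑ y : Fin (pre.length + k + gs.length + 1) → Bool,
        ∏ j, (∑ v, CM pre k gs _ j v * sg (y v)) =
      2 ^ (3 * gs.length + pre.length + 2) * (Fintype.card {y : Fin k → Bool //
        (runNand gs (pre ++ List.ofFn y)).getLast? = some true} : ℕ) := by
  set G : (Fin (pre.length + k + gs.length + 1) → Bool) → ℚ := fun y =>
    ∏ j, (∑ v, CM pre k gs _ j v * sg (y v)) with hG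
  -- the global flip
  have hflip : ∀ y, G (fun v => !(y v)) = G y := by
    intro y
    have h1 : ∀ j : Fin (forms pre k gs).length, (∑ v, CM pre k gs _ j v * sg (!(y v))) =
        (-1) * (∑ v, CM pre k gs _ j v * sg (y v)) := by
      intro j
      rw [Finset.mul_sum]
      apply Finset.sum_congr rfl
      intro v _
      cases y v <;> simp [sg]
    simp only [hG]
    have heven : Even (forms pre k gs).length := by
      rw [length_forms]
      exact ⟨2 * gs.length + pre.length + 1, by ring⟩
    rw [Finset.prod_congr rfl (fun j _ => h1 j), Finset.prod_mul_distrib, Finset.prod_const,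
      Finset.card_univ, Fintype.card_fin, heven.neg_one_pow, one_mul]
  have hsplit : ∑ y, G y = ∑ y ∈ Finset.univ.filter (fun y => y (Fin.last _) = true), G y +
      ∑ y ∈ Finset.univ.filter (fun y => ¬ y (Fin.last _) = true), G y :=
    (Finset.sum_filter_add_sum_filter_not _ _ _).symm
  have hsym : ∑ y ∈ Finset.univ.filter (fun y => ¬ y (Fin.last (pre.length + k + gs.length)) = true), G y =
      ∑ y ∈ Finset.univ.filter (fun y => y (Fin.last (pre.length + k + gs.length)) = true), G y := by
    apply Finset.sum_bij' (fun y _ => fun v => !(y v)) (fun y _ => fun v => !(y v))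
    · intro y hy
      simp only [Finset.mem_filter, Finset.mem_univ, true_and] at hy ⊢
      simpa using hy
    · intro y hy
      simp only [Finset.mem_filter, Finset.mem_univ, true_and] at hy ⊢
      simp [hy]
    · intro y _
      funext v
      simp
    · intro y _
      funext v
      simp
    · intro y _
      exact (hflip y).symm
  have hval : ∀ y ∈ Finset.univ.filter (fun y : Fin (pre.length + k + gs.length + 1) → Bool =>
      y (Fin.last _) = true), G y =
      if Ok pre k gs (ext' y) then 2 ^ (3 * gs.length + pre.length + 1) else 0 := by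
    intro y hy
    rw [Finset.mem_filter] at hy
    simp only [hG]
    rw [prod_CM pre k gs hv y, prod_forms]
    rw [ext', dif_pos (by omega)]
    exact hy.2
  rw [hsplit, hsym, Finset.sum_congr rfl hval, ← Finset.sum_filter, Finset.filter_filter,
    Finset.sum_const, card_ok pre k gs hgs hv, nsmul_eq_mul, pow_succ]
  ring

end Pool.Agent.Hhelper69.Uni.Sat
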