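import Mathlib
import Pool.Agent.Hhelper69.Uni.SatForms
import Pool.Agent.Lib.PolyTime.Lib

/-!
# Counting satisfying inputs of a NAND circuit by signed perfect matchings
-/

set_option autoImplicit false
set_option linter.unusedSectionVars false

namespace Pool.Agent.Hhelper69.Uni.Sat

open Finset
open Pool.Agent.Lib.PT (runNand length_runNand getD_runNand runNand_append)

/-- number of edges between `i` and `j` in an edge list -/
def cnt (l : List (ℕ × ℕ)) (i j : ℕ) : ℕ := l.count (i, j) + l.count (j, i)

/-- edges coming from the occurrences with sign `b` in the `j`-th form -/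
def occEdges (J : ℕ) (b : Bool) (j : ℕ) (fm : Form) : List (ℕ × ℕ) :=
  (fm.filter fun p => p.1 == b).flatMap fun p =>
    (j, J + (j + J * p.2)) :: (if j = 0 then [] else [(j, J + (j - 1 + J * p.2))])

/-- edges between original forms and chain forms -/
def origEdges (J : ℕ) (b : Bool) (fs : List Form) : List (ℕ × ℕ) :=
  ((List.range fs.length).zip fs).flatMap fun q => occEdges J b q.1 q.2

/-- edges between chain forms -/
def chainEdges (m J : ℕ) : List (ℕ × ℕ) :=
  (List.range m).flatMap fun v => (List.range (J - 1)).map fun t =>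
    (J + (t + J * v), J + (t + 1 + J * v))

/-- positive edges -/
def posE (pre : List Bool) (k : ℕ) (gs : List (ℕ × ℕ)) : List (ℕ × ℕ) :=
  origEdges (forms pre k gs).length true (forms pre k gs) ++
    chainEdges (pre.length + k + gs.length + 1) (forms pre k gs).length

/-- negative edges -/
def negE (pre : List Bool) (k : ℕ) (gs : List (ℕ × ℕ)) : List (ℕ × ℕ) :=
  origEdges (forms pre k gs).length false (forms pre k gs)

/-- half the number of vertices -/
def Rn (pre : List Bool) (k : ℕ) (gs : List (ℕ × ℕ)) : ℕ :=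
  (2 * gs.length + pre.length + 1) * (pre.length + k + gs.length + 2)

theorem two_Rn (pre : List Bool) (k : ℕ) (gs : List (ℕ × ℕ)) :
    (forms pre k gs).length + (pre.length + k + gs.length + 1) * (forms pre k gs).length =
      2 * Rn pre k gs := by
  rw [length_forms, Rn]
  ring

theorem split_unique {J t v t' v' : ℕ} (ht : t < J) (ht' : t' < J)
    (h : t + J * v = t' + J * v') : t = t' ∧ v = v' := by
  have h1 : (t + J * v) % J = (t' + J * v') % J := by rw [h]
  rw [Nat.add_mul_mod_self_left, Nat.add_mul_mod_self_left, Nat.mod_eq_of_lt ht,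
    Nat.mod_eq_of_lt ht'] at h1
  subst h1
  refine ⟨rfl, ?_⟩
  have h2 : J * v = J * v' := by omega
  exact Nat.eq_of_mul_eq_mul_left (by omega) h2

/-! ### Counting the edges -/

theorem count_occ_ne {J : ℕ} {b : Bool} {j : ℕ} {fm : Form} {x : ℕ × ℕ} (h : x.1 ≠ j) :
    (occEdges J b j fm).count x = 0 := by
  rw [List.count_eq_zero]
  intro hx
  simp only [occEdges, List.mem_flatMap, List.mem_cons] at hx
  obtain ⟨p, -, rfl | hx⟩ := hx
  · exact h rfl
  · split_ifs at hx with hj
    · simp at hx
    · simp only [List.mem_cons, List.not_mem_nil, or_false] at hx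
      exact h (by rw [hx])

theorem count_occ {J : ℕ} {b : Bool} {j : ℕ} {fm : Form} {t v : ℕ} (hj : j < J) (ht : t < J) :
    (occEdges J b j fm).count (j, J + (t + J * v)) =
      fm.count (b, v) * ((if t = j then 1 else 0) + (if t + 1 = j then 1 else 0)) := by
  induction fm with
  | nil => simp [occEdges]
  | cons p fm ih =>
    obtain ⟨b', w⟩ := p
    by_cases hb : b' = b
    · subst hb
      have h1 : occEdges J b' j ((b', w) :: fm) =
          ((j, J + (j + J * w)) :: (if j = 0 then [] else [(j, J + (j - 1 + J * w))])) ++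
          occEdges J b' j fm := by
        simp [occEdges]
      rw [h1, List.count_append, ih]
      have h2 : ((j, J + (j + J * w)) ::
          (if j = 0 then [] else [(j, J + (j - 1 + J * w))])).count (j, J + (t + J * v)) =
          (if w = v then 1 else 0) * ((if t = j then 1 else 0) + (if t + 1 = j then 1 else 0)) := by
        have h3 : ((j, J + (j + J * w)) = ((j, J + (t + J * v)) : ℕ × ℕ)) ↔ (w = v ∧ t = j) := by
          rw [Prod.mk.injEq]
          constructor
          · rintro ⟨-, h⟩
            obtain ⟨h4, h5⟩ := split_unique hj ht (by omega : j + J * w = t + J * v)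
            exact ⟨h5, h4.symm⟩
          · rintro ⟨rfl, rfl⟩
            exact ⟨rfl, rfl⟩
        have h4 : j ≠ 0 → (((j, J + (j - 1 + J * w)) = ((j, J + (t + J * v)) : ℕ × ℕ)) ↔
            (w = v ∧ t + 1 = j)) := by
          intro hj0
          rw [Prod.mk.injEq]
          constructor
          · rintro ⟨-, h⟩
            obtain ⟨h4, h5⟩ := split_unique (by omega : j - 1 < J) ht
              (by omega : j - 1 + J * w = t + J * v)
            exact ⟨h5, by omega⟩
          · rintro ⟨rfl, h⟩
            exact ⟨rfl, by omega⟩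
        rw [List.count_cons]
        simp only [beq_iff_eq, h3]
        by_cases hj0 : j = 0
        · subst hj0
          by_cases hw : w = v <;> by_cases ht0 : t = 0 <;> simp [hw, ht0]
        · rw [if_neg hj0, List.count_singleton]
          simp only [beq_iff_eq, h4 hj0]
          by_cases hw : w = v
          · by_cases ht0 : t = j
            · simp [hw, ht0]
            · by_cases ht1 : t + 1 = j <;> simp [hw, ht0, ht1]
          · simp [hw]
      rw [h2, List.count_cons]
      have h5 : (((b', w) : Bool × ℕ) == (b', v)) = decide (w = v) := by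
        by_cases hw : w = v <;> simp [hw]
      rw [h5]
      by_cases hw : w = v
      · simp [hw]
        ring
      · simp [hw]
    · have h1 : occEdges J b j ((b', w) :: fm) = occEdges J b j fm := by
        simp [occEdges, hb]
      rw [h1, ih, List.count_cons]
      have h5 : (((b', w) : Bool × ℕ) == (b, v)) = false := by
        rw [beq_eq_false_iff_ne]
        intro h
        exact hb (by rw [Prod.mk.injEq] at h; exact h.1)
      rw [h5]
      simp

theorem count_orig_aux {J : ℕ} {b : Bool} (s : ℕ) (fs : List Form) {j t v : ℕ}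
    (hj : j < J) (ht : t < J) :
    (((List.range' s fs.length).zip fs).flatMap fun q => occEdges J b q.1 q.2).count
      (j, J + (t + J * v)) = if s ≤ j then (fs.getD (j - s) []).count (b, v) *
        ((if t = j then 1 else 0) + (if t + 1 = j then 1 else 0)) else 0 := by
  induction fs generalizing s with
  | nil => simp
  | cons fm fs ih =>
    rw [List.length_cons, List.range'_succ, List.zip_cons_cons, List.flatMap_cons,
      List.count_append, ih (s + 1)]
    by_cases hsj : s = j
    · subst hsj
      rw [count_occ hj ht, if_neg (show ¬ (s + 1 ≤ s) by omega), if_pos (show s ≤ s from le_rfl),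
        Nat.sub_self]
      rfl
    · rw [count_occ_ne (fun h => hsj h.symm), Nat.zero_add]
      by_cases hle : s + 1 ≤ j
      · rw [if_pos hle, if_pos (show s ≤ j by omega)]
        have : j - s = (j - (s + 1)) + 1 := by omega
        rw [this, List.getD_cons_succ]
      · rw [if_neg hle, if_neg (show ¬ (s ≤ j) by omega)]

theorem count_orig {b : Bool} {fs : List Form} {j t v : ℕ}
    (hj : j < fs.length) (ht : t < fs.length) :
    (origEdges fs.length b fs).count (j, fs.length + (t + fs.length * v)) =
      (fs[j]).count (b, v) * ((if t = j then 1 else 0) + (if t + 1 = j then 1 else 0)) := by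
  rw [origEdges, List.range_eq_range', count_orig_aux 0 fs hj ht, if_pos (Nat.zero_le _),
    Nat.sub_zero, List.getD_eq_getElem _ _ hj]

theorem mem_orig {J : ℕ} {b : Bool} {fs : List Form} (hJ : fs.length = J) {x : ℕ × ℕ}
    (hx : x ∈ origEdges J b fs) :
    x.1 < J ∧ ∃ v t, t < J ∧ x.2 = J + (t + J * v) ∧ ∃ fm ∈ fs, (b, v) ∈ fm := by
  simp only [origEdges, List.mem_flatMap] at hx
  obtain ⟨⟨j, fm⟩, hq, hx⟩ := hx
  have h1 := (List.of_mem_zip hq)
  rw [List.mem_range] at h1
  simp only at hx
  simp only [occEdges, List.mem_flatMap, List.mem_cons, List.mem_filter, beq_iff_eq] at hx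
  obtain ⟨⟨b', v⟩, ⟨hp1, hp2⟩, hx⟩ := hx
  simp only at hp2
  subst hp2
  rcases hx with rfl | hx
  · exact ⟨by omega, v, j, by omega, rfl, fm, h1.2, hp1⟩
  · split_ifs at hx with hj0
    · simp at hx
    · simp only [List.mem_cons, List.not_mem_nil, or_false] at hx
      subst hx
      exact ⟨by simp only; omega, v, j - 1, by omega, rfl, fm, h1.2, hp1⟩

theorem mem_chain {m J : ℕ} {x : ℕ × ℕ} : x ∈ chainEdges m J ↔
    ∃ v t, v < m ∧ t + 1 < J ∧ x = (J + (t + J * v), J + (t + 1 + J * v)) := by
  simp only [chainEdges, List.mem_flatMap, List.mem_map, List.mem_range]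
  constructor
  · rintro ⟨v, hv, t, ht, rfl⟩
    exact ⟨v, t, hv, by omega, rfl⟩
  · rintro ⟨v, t, hv, ht, rfl⟩
    exact ⟨v, hv, t, by omega, rfl⟩

theorem nodup_chain (m J : ℕ) : (chainEdges m J).Nodup := by
  rw [chainEdges, List.nodup_flatMap]
  constructor
  · intro v _
    apply List.Nodup.map _ List.nodup_range
    intro t t' h
    simp only [Prod.mk.injEq] at h
    omega
  · have : (List.range m).Pairwise (fun a b => a < b) := List.pairwise_lt_range
    refine this.imp ?_
    intro v v' hvv x hx hx'
    simp only [List.mem_map, List.mem_range] at hx hx'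
    obtain ⟨t, ht, rfl⟩ := hx
    obtain ⟨t', ht', h⟩ := hx'
    simp only [Prod.mk.injEq] at h
    obtain ⟨-, h5⟩ := split_unique (by omega : t' < J) (by omega : t < J)
      (by omega : t' + J * v' = t + J * v)
    omega

theorem count_chain {m J t v t' v' : ℕ} (ht : t < J) (ht' : t' < J) (hv : v < m) :
    (chainEdges m J).count (J + (t + J * v), J + (t' + J * v')) =
      if v = v' ∧ t + 1 = t' then 1 else 0 := by
  rw [(nodup_chain m J).count]
  congr 1
  rw [mem_chain, eq_iff_iff]
  constructor
  · rintro ⟨v0, t0, hv0, ht0, h⟩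
    rw [Prod.mk.injEq] at h
    obtain ⟨h1, h2⟩ := split_unique ht (by omega : t0 < J) (by omega : t + J * v = t0 + J * v0)
    obtain ⟨h3, h4⟩ := split_unique ht' ht0 (by omega : t' + J * v' = t0 + 1 + J * v0)
    omega
  · rintro ⟨rfl, rfl⟩
    exact ⟨v, t, hv, ht', rfl⟩

/-- number of a form -/
def idx {m J : ℕ} : FT m J → ℕ
  | .inl j => j
  | .inr p => J + (p.2 + J * p.1)

/-- numbering of the forms -/
def numEquiv {m J R : ℕ} (h : J + m * J = 2 * R) : Fin (2 * R) ≃ FT m J :=
  (finCongr h.symm).trans (finSumFinEquiv.symm.trans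
    (Equiv.sumCongr (Equiv.refl _) finProdFinEquiv.symm))

theorem idx_numEquiv {m J R : ℕ} (h : J + m * J = 2 * R) (i : Fin (2 * R)) :
    idx (numEquiv h i) = i := by
  have : ∀ f : FT m J, (((numEquiv h).symm f : Fin (2 * R)) : ℕ) = idx f := by
    rintro (j | ⟨v, t⟩)
    · rfl
    · rfl
  rw [← this, Equiv.symm_apply_apply]

theorem cnt_pos {m : ℕ} {fs : List Form} (f g : FT m fs.length) :
    (cnt (origEdges fs.length true fs ++ chainEdges m fs.length) (idx f) (idx g) : ℚ) -
      cnt (origEdges fs.length false fs) (idx f) (idx g) =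
    GM (fun (j : Fin fs.length) (v : Fin m) => coef (fs[(j : ℕ)]) v) f g := by
  have horig0 : ∀ (b : Bool) (x : ℕ × ℕ), ¬ (x.1 < fs.length) →
      (origEdges fs.length b fs).count x = 0 := by
    intro b x hx
    rw [List.count_eq_zero]
    intro h
    exact hx (mem_orig rfl h).1
  have horig1 : ∀ (b : Bool) (x : ℕ × ℕ), x.2 < fs.length →
      (origEdges fs.length b fs).count x = 0 := by
    intro b x hx
    rw [List.count_eq_zero]
    intro h
    obtain ⟨-, v, t, -, h2, -⟩ := mem_orig rfl h
    omega
  have hchain0 : ∀ x : ℕ × ℕ, x.1 < fs.length → (chainEdges m fs.length).count x = 0 := by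
    intro x hx
    rw [List.count_eq_zero]
    intro h
    obtain ⟨v, t, -, -, rfl⟩ := mem_chain.mp h
    simp only at hx
    omega
  have hchain1 : ∀ x : ℕ × ℕ, x.2 < fs.length → (chainEdges m fs.length).count x = 0 := by
    intro x hx
    rw [List.count_eq_zero]
    intro h
    obtain ⟨v, t, -, -, rfl⟩ := mem_chain.mp h
    simp only at hx
    omega
  have hmix : ∀ (j : Fin fs.length) (v : Fin m) (t : Fin fs.length),
      (cnt (origEdges fs.length true fs ++ chainEdges m fs.length) j
        (fs.length + (t + fs.length * v)) : ℚ) -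
        cnt (origEdges fs.length false fs) j (fs.length + (t + fs.length * v)) =
      coef (fs[(j : ℕ)]) v * ((if (t : ℕ) = j then 1 else 0) +
        (if (t : ℕ) + 1 = j then 1 else 0)) := by
    intro j v t
    simp only [cnt, List.count_append]
    rw [count_orig j.2 t.2, count_orig j.2 t.2, hchain0 _ (by simp),
      horig0 true (fs.length + (t + fs.length * v), (j : ℕ)) (by simp),
      horig0 false (fs.length + (t + fs.length * v), (j : ℕ)) (by simp),
      hchain1 (fs.length + (t + fs.length * v), (j : ℕ)) (by simp)]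
    rw [coef]
    push_cast
    ring
  rcases f with j | ⟨v, t⟩ <;> rcases g with j' | ⟨v', t'⟩
  · simp only [idx, GM, cnt, List.count_append]
    rw [horig1 true _ (by simp), horig1 true _ (by simp), horig1 false _ (by simp),
      horig1 false _ (by simp), hchain0 _ (by simp), hchain0 _ (by simp)]
    simp
  · simp only [idx, GM]
    exact hmix j v' t'
  · simp only [idx, GM]
    have hc : ∀ l : List (ℕ × ℕ), ∀ a b : ℕ, cnt l a b = cnt l b a := fun l a b => by
      rw [cnt, cnt, Nat.add_comm]
    rw [hc, hc (origEdges fs.length false fs)]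
    exact hmix j' v t
  · simp only [idx, GM, cnt, List.count_append]
    rw [horig0 true _ (by simp), horig0 true _ (by simp), horig0 false _ (by simp),
      horig0 false _ (by simp), count_chain t.2 t'.2 v.2, count_chain t'.2 t.2 v'.2]
    have hv : (v : ℕ) = v' ↔ v = v' := Fin.ext_iff.symm
    have hv' : (v' : ℕ) = v ↔ v = v' := by rw [eq_comm]; exact Fin.ext_iff.symm
    simp only [hv, hv']
    by_cases h1 : v = v'
    · by_cases h2 : (t : ℕ) + 1 = t'
      · have h3 : ¬ ((t' : ℕ) + 1 = t) := by omega
        simp [h1, h2, h3]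
      · by_cases h3 : (t' : ℕ) + 1 = t
        · simp [h1, h2, h3]
        · simp [h1, h2, h3]
    · simp [h1]

/-- **Counting satisfying inputs by signed perfect matchings.** -/
theorem sat_match (pre : List Bool) (k : ℕ) (gs : List (ℕ × ℕ)) (hgs : gs ≠ [])
    (hv : ∀ e (h : e < gs.length), gs[e].1 < pre.length + k + e ∧ gs[e].2 < pre.length + k + e) :
    ((Fintype.card {y : Fin k → Bool //
      (runNand gs (pre ++ List.ofFn y)).getLast? = some true} : ℕ) : ℚ) *
      2 ^ (2 * gs.length + 1 + Rn pre k gs) =
    2 ^ k * omSum (V := Fin (2 * Rn pre k gs)) (fun i j =>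
      (cnt (posE pre k gs) i j : ℚ) - cnt (negE pre k gs) i j) := by
  have hv' := inRange_of hv
  have h2R := two_Rn pre k gs
  have heven : Even (forms pre k gs).length := by
    rw [length_forms]
    exact ⟨2 * gs.length + pre.length + 1, by ring⟩
  have h1 := sum_forms_eq (CM pre k gs (pre.length + k + gs.length + 1)) heven h2R
  rw [sum_CM pre k gs hgs hv'] at h1
  have h2 : omSum (V := Fin (2 * Rn pre k gs)) (fun i j =>
      (cnt (posE pre k gs) i j : ℚ) - cnt (negE pre k gs) i j) =
      omSum (GM (CM pre k gs (pre.length + k + gs.length + 1))) := by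
    rw [← omSum_equiv (numEquiv h2R)]
    congr 1
    funext i j
    have := cnt_pos (m := pre.length + k + gs.length + 1) (fs := forms pre k gs)
      (numEquiv h2R i) (numEquiv h2R j)
    rw [idx_numEquiv, idx_numEquiv] at this
    exact this
  rw [h2]
  set N : ℚ := ((Fintype.card {y : Fin k → Bool //
      (runNand gs (pre ++ List.ofFn y)).getLast? = some true} : ℕ) : ℚ) with hN
  set O := omSum (GM (CM pre k gs (pre.length + k + gs.length + 1))) with hO
  set J := (forms pre k gs).length with hJ
  set g := gs.length with hg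
  set L := pre.length with hL
  set R := Rn pre k gs with hR
  have h3 : (2 : ℚ) ^ ((L + k + g + 1) * (J + 1)) = 2 ^ ((L + k + g + 1) * J) * 2 ^ (L + g + 1) *
      2 ^ k := by
    rw [← pow_add, ← pow_add]
    congr 1
    ring
  have h4 : (2 : ℚ) ^ (3 * g + L + 2) = 2 ^ (2 * g + 1) * 2 ^ (L + g + 1) := by
    rw [← pow_add]
    congr 1
    ring
  rw [h3, h4] at h1
  have h5 : (2 : ℚ) ^ ((L + k + g + 1) * J) * 2 ^ (L + g + 1) ≠ 0 := by positivity
  apply mul_left_cancel₀ h5
  rw [pow_add 2 (2 * g + 1) R]
  calc (2 : ℚ) ^ ((L + k + g + 1) * J) * 2 ^ (L + g + 1) * (N * (2 ^ (2 * g + 1) * 2 ^ R))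
      = 2 ^ R * (2 ^ ((L + k + g + 1) * J) * (2 ^ (2 * g + 1) * 2 ^ (L + g + 1) * N)) := by ring
    _ = 2 ^ ((L + k + g + 1) * J) * 2 ^ (L + g + 1) * 2 ^ k * O := h1
    _ = _ := by ring

/-- the vertices of all edges are in range, and there are no loops -/
theorem mem_edges (pre : List Bool) (k : ℕ) (gs : List (ℕ × ℕ))
    (hv : ∀ e (h : e < gs.length), gs[e].1 < pre.length + k + e ∧ gs[e].2 < pre.length + k + e)
    (x : ℕ × ℕ) (hx : x ∈ posE pre k gs ∨ x ∈ negE pre k gs) :
    x.1 < 2 * Rn pre k gs ∧ x.2 < 2 * Rn pre k gs ∧ x.1 ≠ x.2 := by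
  have hv' := inRange_of hv
  have h2R := two_Rn pre k gs
  set J := (forms pre k gs).length with hJ
  set m := pre.length + k + gs.length + 1 with hm
  have horig : ∀ b, x ∈ origEdges J b (forms pre k gs) →
      x.1 < 2 * Rn pre k gs ∧ x.2 < 2 * Rn pre k gs ∧ x.1 ≠ x.2 := by
    intro b h
    obtain ⟨h1, v, t, ht, h2, fm, hfm, hb⟩ := mem_orig hJ.symm h
    have h3 : v < m := mem_forms pre k gs hv' fm hfm _ hb
    have h4 : (v + 1) * J ≤ m * J := Nat.mul_le_mul_right _ h3
    rw [Nat.add_mul, Nat.mul_comm v] at h4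
    refine ⟨by omega, by omega, by omega⟩
  have hchain : x ∈ chainEdges m J →
      x.1 < 2 * Rn pre k gs ∧ x.2 < 2 * Rn pre k gs ∧ x.1 ≠ x.2 := by
    intro h
    obtain ⟨v, t, h3, ht, rfl⟩ := mem_chain.mp h
    have h4 : (v + 1) * J ≤ m * J := Nat.mul_le_mul_right _ h3
    rw [Nat.add_mul, Nat.mul_comm v] at h4
    refine ⟨by simp only; omega, by simp only; omega, by simp only; omega⟩
  rcases hx with hx | hx
  · rw [posE, List.mem_append] at hx
    rcases hx with hx | hx
    · exact horig _ hx
    · exact hchain hx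
  · exact horig _ hx

/-! ### Polynomial time -/

open Pool.Agent.Lib.PT (PolyTime Enc)

section

variable {α : Type*} [Enc α]

theorem pt_gateForms {x0 m : α → ℕ} {g : α → ℕ × ℕ} (h0 : PolyTime x0) (hm : PolyTime m)
    (hg : PolyTime g) : PolyTime (fun a => gateForms (x0 a) (m a) (g a)) := by
  have ht : ∀ {f : α → ℕ}, PolyTime f → PolyTime (fun a => ((true, f a) : Bool × ℕ)) :=
    fun hf => (PolyTime.const true).pair hf
  have hf : ∀ {f : α → ℕ}, PolyTime f → PolyTime (fun a => ((false, f a) : Bool × ℕ)) :=
    fun hf => (PolyTime.const false).pair hf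
  have hn : PolyTime (fun _ : α => ([] : List (Bool × ℕ))) := PolyTime.const []
  have hn' : PolyTime (fun _ : α => ([] : List (List (Bool × ℕ)))) := PolyTime.const []
  exact ((hf hm).cons hn).cons
    (((ht hg.fst).cons ((ht hg.snd).cons ((hf hm).cons ((hf h0).cons hn)))).cons
    (((ht hg.fst).cons ((ht hg.snd).cons ((ht hm).cons ((ht h0).cons ((ht h0).cons
      ((ht h0).cons hn)))))).cons (((ht h0).cons hn).cons hn')))

theorem pt_fixForms {x0 i : α → ℕ} {b : α → Bool} (h0 : PolyTime x0) (hi : PolyTime i)
    (hb : PolyTime b) : PolyTime (fun a => fixForms (x0 a) (i a) (b a)) := by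
  have h0' : PolyTime (fun a => ((true, x0 a) : Bool × ℕ)) := (PolyTime.const true).pair h0
  have hn : PolyTime (fun _ : α => ([] : List (Bool × ℕ))) := PolyTime.const []
  have hn' : PolyTime (fun _ : α => ([] : List (List (Bool × ℕ)))) := PolyTime.const []
  exact ((hb.pair hi).cons (h0'.cons hn)).cons ((h0'.cons hn).cons hn')

/-- instances -/
abbrev Inst : Type := List Bool × ℕ × List (ℕ × ℕ)

theorem pt_forms : PolyTime (fun q : Inst => forms q.1 q.2.1 q.2.2) := by
  have hpre : PolyTime (fun q : Inst => q.1) := PolyTime.id.fst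
  have hk : PolyTime (fun q : Inst => q.2.1) := PolyTime.id.snd.fst
  have hgs : PolyTime (fun q : Inst => q.2.2) := PolyTime.id.snd.snd
  have hn : PolyTime (fun q : Inst => q.1.length + q.2.1) := hpre.length.add hk
  have hx0 : PolyTime (fun q : Inst => q.1.length + q.2.1 + q.2.2.length) := hn.add hgs.length
  have h1 : PolyTime (fun q : Inst => ((List.range q.2.2.length).zip q.2.2).flatMap
      (fun p => gateForms (q.1.length + q.2.1 + q.2.2.length) (q.1.length + q.2.1 + p.1) p.2)) :=
    (hgs.length.range.zip hgs).flatMap (f := fun (q : Inst) p =>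
      gateForms (q.1.length + q.2.1 + q.2.2.length) (q.1.length + q.2.1 + p.1) p.2)
      (pt_gateForms (hx0.comp PolyTime.id.fst) ((hn.comp PolyTime.id.fst).add
        PolyTime.id.snd.fst) PolyTime.id.snd.snd)
  have h2 : PolyTime (fun q : Inst => ((List.range q.1.length).zip q.1).flatMap
      (fun p => fixForms (q.1.length + q.2.1 + q.2.2.length) p.1 p.2)) :=
    (hpre.length.range.zip hpre).flatMap (f := fun (q : Inst) p =>
      fixForms (q.1.length + q.2.1 + q.2.2.length) p.1 p.2)
      (pt_fixForms (hx0.comp PolyTime.id.fst) PolyTime.id.snd.fst PolyTime.id.snd.snd)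
  exact h1.append (h2.append (pt_fixForms hx0 hx0.pred (PolyTime.const true)))

theorem pt_occEdges {J j : α → ℕ} (b : Bool) {fm : α → Form} (hJ : PolyTime J) (hj : PolyTime j)
    (hfm : PolyTime fm) : PolyTime (fun a => occEdges (J a) b (j a) (fm a)) := by
  have h1 : PolyTime (fun a => (fm a).filter fun p => p.1 == b) :=
    hfm.filter (f := fun _ p => p.1 == b) (PolyTime.id.snd.fst.beqBool (PolyTime.const b))
  have hJ' : PolyTime (fun q : α × (Bool × ℕ) => J q.1) := hJ.comp PolyTime.id.fst
  have hj' : PolyTime (fun q : α × (Bool × ℕ) => j q.1) := hj.comp PolyTime.id.fst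
  have hv' : PolyTime (fun q : α × (Bool × ℕ) => J q.1 * q.2.2) := hJ'.mul PolyTime.id.snd.snd
  exact h1.flatMap (f := fun a p =>
    (j a, J a + (j a + J a * p.2)) :: (if j a = 0 then [] else [(j a, J a + (j a - 1 + J a * p.2))]))
    ((hj'.pair (hJ'.add (hj'.add hv'))).cons (PolyTime.ite hj'.isZero (PolyTime.const [])
      ((hj'.pair (hJ'.add (hj'.pred.add hv'))).cons (PolyTime.const []))))

theorem pt_origEdges (b : Bool) {J : α → ℕ} {fs : α → List Form} (hJ : PolyTime J)
    (hfs : PolyTime fs) : PolyTime (fun a => origEdges (J a) b (fs a)) :=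
  (hfs.length.range.zip hfs).flatMap (f := fun a (q : ℕ × Form) => occEdges (J a) b q.1 q.2)
    (pt_occEdges b (hJ.comp PolyTime.id.fst)
      (PolyTime.id.snd.fst : PolyTime (fun q : α × (ℕ × Form) => q.2.1))
      (PolyTime.id.snd.snd : PolyTime (fun q : α × (ℕ × Form) => q.2.2)))

theorem pt_chainEdges {m J : α → ℕ} (hm : PolyTime m) (hJ : PolyTime J) :
    PolyTime (fun a => chainEdges (m a) (J a)) := by
  have hJ2 : PolyTime (fun q : (α × ℕ) × ℕ => J q.1.1) := hJ.comp PolyTime.id.fst.fst
  have hv2 : PolyTime (fun q : (α × ℕ) × ℕ => J q.1.1 * q.1.2) := hJ2.mul PolyTime.id.fst.snd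
  have ht2 : PolyTime (fun q : (α × ℕ) × ℕ => q.2) := PolyTime.id.snd
  have h1 : PolyTime (fun q : α × ℕ => (List.range (J q.1 - 1)).map fun t =>
      (J q.1 + (t + J q.1 * q.2), J q.1 + (t + 1 + J q.1 * q.2))) :=
    (hJ.comp PolyTime.id.fst).pred.range.map (f := fun (q : α × ℕ) t =>
      (J q.1 + (t + J q.1 * q.2), J q.1 + (t + 1 + J q.1 * q.2)))
      ((hJ2.add (ht2.add hv2)).pair (hJ2.add (ht2.succ.add hv2)))
  exact hm.range.flatMap (f := fun a v => (List.range (J a - 1)).map fun t =>
      (J a + (t + J a * v), J a + (t + 1 + J a * v))) h1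

end

theorem pt_posE : PolyTime (fun q : Inst => posE q.1 q.2.1 q.2.2) := by
  have hpre : PolyTime (fun q : Inst => q.1) := PolyTime.id.fst
  have hk : PolyTime (fun q : Inst => q.2.1) := PolyTime.id.snd.fst
  have hgs : PolyTime (fun q : Inst => q.2.2) := PolyTime.id.snd.snd
  have hn : PolyTime (fun q : Inst => q.1.length + q.2.1) := hpre.length.add hk
  have hx0 : PolyTime (fun q : Inst => q.1.length + q.2.1 + q.2.2.length) := hn.add hgs.length
  exact (pt_origEdges true pt_forms.length pt_forms).append
    (pt_chainEdges hx0.succ pt_forms.length)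

theorem pt_negE : PolyTime (fun q : Inst => negE q.1 q.2.1 q.2.2) :=
  pt_origEdges false pt_forms.length pt_forms

theorem pt_Rn : PolyTime (fun q : Inst => Rn q.1 q.2.1 q.2.2) := by
  have hpre : PolyTime (fun q : Inst => q.1) := PolyTime.id.fst
  have hk : PolyTime (fun q : Inst => q.2.1) := PolyTime.id.snd.fst
  have hgs : PolyTime (fun q : Inst => q.2.2) := PolyTime.id.snd.snd
  exact ((((PolyTime.const 2).mul hgs.length).add hpre.length).succ).mul
    (((hpre.length.add hk).add hgs.length).add (PolyTime.const 2))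

end Pool.Agent.Hhelper69.Uni.Sat
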